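import Pool.Agent.K3h93.UR.Det

/-!
The dimension of the intersection of the trace with all the sets which are modelled on `K`.
-/

namespace K93U

open H974 Finset H342P H984P H984N H443P H443U MeasureTheory Filter Topology
open scoped ENNReal

/-- `A` is locally modelled on `K`: around each of its points `x`, at all small scales `r`, it is
within `o(r)` of a linear image of `K` seen from a fixed point `κ`, with bounded distortion. -/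
def Modelled (K A : Set ℂ) : Prop :=
  ∀ x ∈ A, ∃ (κ : ℂ) (Λ : ℝ), ∀ ε : ℝ, 0 < ε → ∃ ρ : ℝ, 0 < ρ ∧ ∀ r : ℝ, 0 < r → r < ρ →
    ∃ L : ℂ →L[ℝ] ℂ, (∀ z, ‖L z‖ ≤ Λ * ‖z‖) ∧ (∀ z, ‖z‖ ≤ Λ * ‖L z‖) ∧
      ∀ y ∈ A, ‖y - x‖ ≤ r → ∃ κ' ∈ K, ‖y - x - L (κ' - κ)‖ ≤ ε * r

/-- The points of `A` where the model is good at all scales at most `1 / (N + 1)`. -/
def Good (K A : Set ℂ) (Λ M N : ℕ) (κ : ℂ → ℂ) : Set ℂ :=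
  {x | x ∈ A ∧ ‖κ x‖ ≤ N ∧ ∀ ρ : ℝ, 0 < ρ → ρ ≤ 1 / ((N:ℝ) + 1) → ∃ L : ℂ →L[ℝ] ℂ,
    (∀ z, ‖L z‖ ≤ Λ * ‖z‖) ∧ (∀ z, ‖z‖ ≤ Λ * ‖L z‖) ∧
    ∀ y' ∈ A, ‖y' - x‖ ≤ ρ → ∃ κ' ∈ K, ‖y' - x - L (κ' - κ x)‖ ≤ ρ / (64 * M)}

theorem norm_D {R : Rect} {y : ℂ} (hy : y ∈ R.D) : ‖y‖ ≤ R.A + R.B + R.H := by
  obtain ⟨h1, h2, h3, h4⟩ := hy
  have hA := R.hA
  have hB := R.hB
  refine (norm_le_abs y).trans ?_
  have e1 : |y.re| ≤ R.A + R.B := by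
    rw [abs_le]; constructor <;> linarith
  have e2 : |y.im| ≤ R.H := by
    rw [abs_le]; constructor <;> linarith
  linarith

theorem dp_D {R : Rect} {y : ℂ} (hy : y ∈ R.D) : 0 < dp R y := by
  obtain ⟨h1, h2, h3, h4⟩ := hy
  unfold dp
  apply lt_min <;> apply lt_min <;> linarith

/-- The deterministic part. -/
theorem det_all {R : Rect} {f : C(unitInterval, ℂ)} {K : Set ℂ} {C γ ε : ℝ}
    (hγ : 0 < γ) (hε : 0 < ε) (C2 : ℕ → ℝ) (k M : ℕ → ℕ)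
    (hpar : ∀ Λ, 1 ≤ Λ → Par C (C2 Λ) γ ε Λ (k Λ) (M Λ))
    (hfew : ∀ Λ N Z, 1 ≤ Λ → Few R K Λ (M Λ) ⌈(M Λ:ℝ) ^ (γ + ε)⌉₊ ε N Z f) {A : Set ℂ}
    (hA : ∃ κ : ℂ → ℂ, ∀ x ∈ A, ∃ Λ N : ℕ, 1 ≤ Λ ∧ x ∈ Good K A Λ (M Λ) N κ) :
    dimH (Set.range f ∩ R.D ∩ A) ≤ ENNReal.ofReal (γ + 6 * ε) := by
  obtain ⟨κ, hκ⟩ := hA
  set Y : ℕ → ℕ → ℕ → (ℤ × ℤ) → Set ℂ := fun Λ N n q =>
    Set.range f ∩ R.D ∩ Good K A Λ (M Λ) N κ ∩ {y | 1 / ((max N n : ℕ) + 1 : ℝ) ≤ dp R y} ∩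
      {y | ‖y - (rs Λ (M Λ) (max N n) 0 : ℂ) * qc q‖ ≤ rs Λ (M Λ) (max N n) 0} with hY
  have hsub : Set.range f ∩ R.D ∩ A ⊆ ⋃ Λ : ℕ, ⋃ N : ℕ, ⋃ n : ℕ, ⋃ q : ℤ × ℤ, Y (Λ + 1) N n q := by
    rintro y ⟨⟨h1, h2⟩, h3⟩
    obtain ⟨Λ, N, hΛ, hG⟩ := hκ y h3
    obtain ⟨n, hn⟩ := exists_nat_one_div_lt (dp_D h2)
    have hM : 1 ≤ M Λ := by have := (hpar Λ hΛ).two; omega
    have hr := rs_pos hΛ hM (max N n) 0
    have hr' : (rs Λ (M Λ) (max N n) 0 : ℂ) ≠ 0 := by exact_mod_cast hr.ne'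
    obtain ⟨q, hq, -, -⟩ := exists_round (y / (rs Λ (M Λ) (max N n) 0 : ℂ))
    simp only [Set.mem_iUnion]
    refine ⟨Λ - 1, N, n, q, ?_⟩
    have e : Λ - 1 + 1 = Λ := by omega
    rw [e]
    refine ⟨⟨⟨⟨h1, h2⟩, hG⟩, ?_⟩, ?_⟩
    · show 1 / ((max N n : ℕ) + 1 : ℝ) ≤ dp R y
      refine le_trans ?_ hn.le
      apply one_div_le_one_div_of_le (by positivity)
      have : (n:ℝ) ≤ (max N n : ℕ) := by exact_mod_cast le_max_right N n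
      linarith
    · show ‖y - (rs Λ (M Λ) (max N n) 0 : ℂ) * qc q‖ ≤ rs Λ (M Λ) (max N n) 0
      have e2 : y - (rs Λ (M Λ) (max N n) 0 : ℂ) * qc q = (rs Λ (M Λ) (max N n) 0 : ℂ) *
          (y / (rs Λ (M Λ) (max N n) 0 : ℂ) - qc q) := by field_simp
      rw [e2, norm_mul, Complex.norm_real, Real.norm_eq_abs, abs_of_pos hr]
      calc rs Λ (M Λ) (max N n) 0 * ‖y / (rs Λ (M Λ) (max N n) 0 : ℂ) - qc q‖
          ≤ rs Λ (M Λ) (max N n) 0 * 1 := mul_le_mul_of_nonneg_left hq hr.le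
        _ = _ := mul_one _
  refine (dimH_mono hsub).trans ?_
  rw [dimH_iUnion]
  refine iSup_le fun Λ => ?_
  rw [dimH_iUnion]
  refine iSup_le fun N => ?_
  rw [dimH_iUnion]
  refine iSup_le fun n => ?_
  rw [dimH_iUnion]
  refine iSup_le fun q => ?_
  have hΛ : 1 ≤ Λ + 1 := by omega
  have hM2 := (hpar (Λ + 1) hΛ).two
  have hM : 1 ≤ M (Λ + 1) := by omega
  have hM1 : (1:ℝ) ≤ M (Λ + 1) := by exact_mod_cast hM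
  have hr := rs_pos hΛ hM (max N n) 0
  set N' := max N n with hN'
  have hNN : (N:ℝ) ≤ N' := by exact_mod_cast le_max_left N n
  obtain ⟨Z, hZ⟩ := exists_nat_ge ((R.A + R.B + R.H + N) / rs (Λ + 1) (M (Λ + 1)) N' 0)
  refine det hγ hε hΛ (hpar (Λ + 1) hΛ) (N := N') (Z := Z) (hfew (Λ + 1) N' Z hΛ) (κ := κ)
    (fun y hy => hy.1.1.1.1) (fun y hy => hy.1.2) (X0 := R.A + R.B + R.H + N) (fun y hy => ?_) hZ
    (fun y hy y' hy' => ?_) ?_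
  · have h1 := norm_D hy.1.1.1.2
    have h2 : ‖κ y‖ ≤ N := hy.1.1.2.2.1
    have hA := R.hA
    have hB := R.hB
    have hH := R.hH
    have hN0 : (0:ℝ) ≤ N := Nat.cast_nonneg N
    constructor <;> linarith
  · have h1 : ‖y - (rs (Λ + 1) (M (Λ + 1)) N' 0 : ℂ) * qc q‖ ≤ rs (Λ + 1) (M (Λ + 1)) N' 0 := hy.2
    have h2 : ‖y' - (rs (Λ + 1) (M (Λ + 1)) N' 0 : ℂ) * qc q‖ ≤ rs (Λ + 1) (M (Λ + 1)) N' 0 := hy'.2
    have h3 : dist y y' ≤ dist y ((rs (Λ + 1) (M (Λ + 1)) N' 0 : ℂ) * qc q) +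
        dist y' ((rs (Λ + 1) (M (Λ + 1)) N' 0 : ℂ) * qc q) := by
      have := dist_triangle y ((rs (Λ + 1) (M (Λ + 1)) N' 0 : ℂ) * qc q) y'
      rwa [dist_comm ((rs (Λ + 1) (M (Λ + 1)) N' 0 : ℂ) * qc q) y'] at this
    rw [dist_eq_norm y ((rs (Λ + 1) (M (Λ + 1)) N' 0 : ℂ) * qc q),
      dist_eq_norm y' ((rs (Λ + 1) (M (Λ + 1)) N' 0 : ℂ) * qc q)] at h3
    have h4 : rs (Λ + 1) (M (Λ + 1)) N' 0 ≤ M (Λ + 1) * rs (Λ + 1) (M (Λ + 1)) N' 0 :=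
      le_mul_of_one_le_left hr.le hM1
    linarith
  · intro y hy ρ hρ hρ'
    obtain ⟨L, h1, h2, h3⟩ := hy.1.1.2.2.2 ρ hρ (hρ'.trans (by
      apply one_div_le_one_div_of_le (by positivity)
      linarith))
    exact ⟨L, h1, h2, fun y' hy' h => h3 y' hy'.1.1.2.1 h⟩

/-- A modelled set is a union of good sets. -/
theorem modelled_good {K A : Set ℂ} (h : Modelled K A) (M : ℕ → ℕ) (hM : ∀ Λ, 1 ≤ Λ → 1 ≤ M Λ) :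
    ∃ κ : ℂ → ℂ, ∀ x ∈ A, ∃ Λ N : ℕ, 1 ≤ Λ ∧ x ∈ Good K A Λ (M Λ) N κ := by
  classical
  have hch : ∀ x : ℂ, ∃ κ : ℂ, x ∈ A → ∃ Λ : ℝ, ∀ ε : ℝ, 0 < ε → ∃ ρ : ℝ, 0 < ρ ∧ ∀ r : ℝ,
      0 < r → r < ρ → ∃ L : ℂ →L[ℝ] ℂ, (∀ z, ‖L z‖ ≤ Λ * ‖z‖) ∧ (∀ z, ‖z‖ ≤ Λ * ‖L z‖) ∧
      ∀ y ∈ A, ‖y - x‖ ≤ r → ∃ κ' ∈ K, ‖y - x - L (κ' - κ)‖ ≤ ε * r := by
    intro x
    by_cases hx : x ∈ A
    · obtain ⟨κ, h1⟩ := h x hx
      exact ⟨κ, fun _ => h1⟩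
    · exact ⟨0, fun h => absurd h hx⟩
  choose κ hκ using hch
  refine ⟨κ, fun x hx => ?_⟩
  obtain ⟨Λ0, h0⟩ := hκ x hx
  obtain ⟨Λ, hΛ⟩ := exists_nat_ge (max Λ0 1)
  have hΛ1 : 1 ≤ Λ := by
    have : (1:ℝ) ≤ Λ := (le_max_right _ _).trans hΛ
    exact_mod_cast this
  have hΛ0 : Λ0 ≤ Λ := (le_max_left _ _).trans hΛ
  have hM0 : (0:ℝ) < M Λ := by exact_mod_cast hM Λ hΛ1
  obtain ⟨ρ, hρ, h1⟩ := h0 (1 / (64 * M Λ)) (by positivity)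
  obtain ⟨n, hn⟩ := exists_nat_one_div_lt hρ
  obtain ⟨N, hN⟩ := exists_nat_ge (max (n:ℝ) ‖κ x‖)
  refine ⟨Λ, N, hΛ1, hx, (le_max_right _ _).trans hN, fun r hr hr' => ?_⟩
  have hnN : (n:ℝ) ≤ N := (le_max_left _ _).trans hN
  obtain ⟨L, h2, h3, h4⟩ := h1 r hr (by
    refine lt_of_le_of_lt (hr'.trans ?_) hn
    apply one_div_le_one_div_of_le (by positivity)
    linarith)
  refine ⟨L, fun z => (h2 z).trans (mul_le_mul_of_nonneg_right hΛ0 (norm_nonneg _)),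
    fun z => (h3 z).trans (mul_le_mul_of_nonneg_right hΛ0 (norm_nonneg _)), fun y hy h => ?_⟩
  obtain ⟨κ', h5, h6⟩ := h4 y hy h
  refine ⟨κ', h5, h6.trans (le_of_eq ?_)⟩
  field_simp

/-- The uniform bound for all the modelled sets. -/
theorem modelled_ae {C : ℝ} (hC : 0 < C) (hA : AnnUp C) (R : Rect) {δ : ℕ → ℝ}
    (hδ : ∀ i, 0 < δ i) (hlim : Tendsto δ atTop (𝓝 0)) {μ : ProbabilityMeasure X}
    (hμ : Tendsto (fun i => R.law (δ i)) atTop (𝓝 μ)) {K : Set ℂ} {s : ℝ}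
    (hK : ∀ s', s < s' → Hom K s') :
    ∀ᵐ ω ∂(μ : Measure X), ∀ A : Set ℂ, Modelled K A →
      dimH (Set.range ω.1 ∩ R.D ∩ A) ≤ ENNReal.ofReal (s - 1 / 4) := by
  set s0 : ℝ := max s (1 / 4) with hs0
  have key : ∀ e : ℕ, ∃ (C2 : ℕ → ℝ) (k M : ℕ → ℕ), ∀ Λ, 1 ≤ Λ →
      Par C (C2 Λ) (s0 + 1 / ((e:ℝ) + 1) - 1 / 4) (1 / ((e:ℝ) + 1)) Λ (k Λ) (M Λ) ∧ 0 < C2 Λ ∧
      ∀ (r : ℝ) (k : ℂ), 0 < r → 420 * Λ * r * M Λ ≤ 1 →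
        OkF (fam K Λ (M Λ) r k) 20 (10 * M Λ)
          (C2 Λ * (M Λ : ℝ) ^ (s0 + 1 / ((e:ℝ) + 1) - 1 / 4)) := by
    intro e
    have he : (0:ℝ) < 1 / ((e:ℝ) + 1) := by positivity
    have h1 : s < s0 + 1 / ((e:ℝ) + 1) := by
      have := le_max_left s (1 / 4)
      linarith
    have h2 : 1 / 4 < s0 + 1 / ((e:ℝ) + 1) := by
      have := le_max_right s (1 / 4)
      linarith
    have hch : ∀ Λ : ℕ, ∃ (C2 : ℝ) (k M : ℕ), 1 ≤ Λ →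
        Par C C2 (s0 + 1 / ((e:ℝ) + 1) - 1 / 4) (1 / ((e:ℝ) + 1)) Λ k M ∧ 0 < C2 ∧
        ∀ (r : ℝ) (k : ℂ), 0 < r → 420 * Λ * r * M ≤ 1 →
          OkF (fam K Λ M r k) 20 (10 * M)
            (C2 * (M : ℝ) ^ (s0 + 1 / ((e:ℝ) + 1) - 1 / 4)) := by
      intro Λ
      by_cases hΛ : 1 ≤ Λ
      · obtain ⟨C2, hC2, h3⟩ := fam_ok h2 (hK _ h1) hΛ
        obtain ⟨k, M, hp⟩ := exists_par hC hC2 (γ := s0 + 1 / ((e:ℝ) + 1) - 1 / 4) (by linarith)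
          he Λ
        exact ⟨C2, k, M, fun _ => ⟨hp, hC2, fun r k hr h4 => h3 M r k
          (by have := hp.two; omega) hr h4⟩⟩
      · exact ⟨0, 0, 0, fun h => absurd h hΛ⟩
    choose C2 k M h using hch
    exact ⟨C2, k, M, h⟩
  choose C2 k M hkey using key
  have hae : ∀ᵐ ω ∂(μ : Measure X), ∀ e Λ N Z : ℕ, 1 ≤ Λ → Few R K Λ (M e Λ)
      ⌈(M e Λ:ℝ) ^ (s0 + 1 / ((e:ℝ) + 1) - 1 / 4 + 1 / ((e:ℝ) + 1))⌉₊ (1 / ((e:ℝ) + 1)) N Z ω.1 := by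
    rw [ae_all_iff]; intro e
    rw [ae_all_iff]; intro Λ
    rw [ae_all_iff]; intro N
    rw [ae_all_iff]; intro Z
    by_cases hΛ : 1 ≤ Λ
    · obtain ⟨h1, h2, h3⟩ := hkey e Λ hΛ
      filter_upwards [few_ae hC hA R hδ hlim hμ h2 (by positivity) hΛ h3 h1 N Z] with ω hω _
      exact hω
    · exact Filter.Eventually.of_forall fun ω h => absurd h hΛ
  filter_upwards [hae] with ω hω A hAm
  have hb : ∀ e : ℕ, dimH (Set.range ω.1 ∩ R.D ∩ A) ≤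
      ENNReal.ofReal ((s0 - 1 / 4) + 7 * (1 / ((e:ℝ) + 1))) := by
    intro e
    have he : (0:ℝ) < 1 / ((e:ℝ) + 1) := by positivity
    have hγ : 0 < s0 + 1 / ((e:ℝ) + 1) - 1 / 4 := by
      have := le_max_right s (1 / 4)
      linarith
    have h1 := det_all (R := R) (f := ω.1) (K := K) (A := A) hγ he (C2 e) (k e) (M e)
      (fun Λ hΛ => (hkey e Λ hΛ).1) (fun Λ N Z hΛ => hω e Λ N Z hΛ)
      (modelled_good hAm (M e) (fun Λ hΛ => by have := (hkey e Λ hΛ).1.two; omega))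
    refine h1.trans (ENNReal.ofReal_le_ofReal (le_of_eq ?_))
    ring
  have hlim2 : Tendsto (fun e : ℕ => ENNReal.ofReal ((s0 - 1 / 4) + 7 * (1 / ((e:ℝ) + 1)))) atTop
      (𝓝 (ENNReal.ofReal (s0 - 1 / 4))) := by
    refine ENNReal.tendsto_ofReal ?_
    have h1 := (tendsto_one_div_add_atTop_nhds_zero_nat (𝕜 := ℝ)).const_mul (7:ℝ)
    have h2 := h1.const_add (s0 - 1 / 4)
    simpa using h2
  refine (ge_of_tendsto' hlim2 hb).trans (le_of_eq ?_)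
  rcases le_or_gt s (1 / 4) with h | h
  · rw [hs0, max_eq_right h, sub_self, ENNReal.ofReal_zero, ENNReal.ofReal_of_nonpos (by linarith)]
  · rw [hs0, max_eq_left h.le]

end K93U
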