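import Pool.Agent.K3h93.UR.Fam

/-!
The choice of the scale ratio.
-/

namespace K93U

open H974 Finset H342P H984P H984N H443P H443U Filter Topology

theorem ev_rpow {a : ℝ} (ha : 0 < a) (c : ℝ) : ∀ᶠ M : ℕ in atTop, c ≤ (M:ℝ) ^ a :=
  ((tendsto_rpow_atTop ha).comp tendsto_natCast_atTop_atTop).eventually_ge_atTop c

/-- The conditions for the scale ratio `M`. -/
structure Par (C C2 γ ε : ℝ) (Λ k M : ℕ) : Prop where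
  two : 2 ≤ M
  pr : (qM Λ M : ℝ) * (22 * cc C k * ((k + 1) * (C2 * (M:ℝ) ^ γ)) / ⌈(M:ℝ) ^ (γ + ε)⌉₊) ^ k ≤
    (M:ℝ) ^ (-(6 / ε))
  gd : ((⌈(M:ℝ) ^ (γ + ε)⌉₊ + 6241 : ℕ) : ℝ) ≤ (M:ℝ) ^ (γ + 2 * ε)
  bd : (((20 * M + 1) ^ 2 : ℕ) : ℝ) ≤ (M:ℝ) ^ (3 : ℝ)

theorem exists_par {C : ℝ} (hC : 0 < C) {C2 : ℝ} (hC2 : 0 < C2) {γ ε : ℝ} (hγ : 0 < γ)
    (hε : 0 < ε) (Λ : ℕ) : ∃ k M : ℕ, Par C C2 γ ε Λ k M := by
  obtain ⟨k, hk⟩ := exists_nat_ge ((4 + 12 / ε) / ε)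
  have hkε : 4 + 12 / ε ≤ ε * k := by
    rw [div_le_iff₀ hε] at hk
    linarith
  have hcc := cc_one hC k
  set c5 : ℝ := 22 * cc C k * ((k + 1) * C2) with hc5
  have hc5' : 0 < c5 := by positivity
  set c6 : ℝ := ((241 * (Λ:ℝ) ^ 2) ^ 4 * (9 * Λ) ^ 2) * c5 ^ k with hc6
  have hc6' : 0 ≤ c6 := by positivity
  have e1 : ∀ᶠ M : ℕ in atTop, c6 ≤ (M:ℝ) ^ (6 / ε) := ev_rpow (by positivity) _
  have e2 : ∀ᶠ M : ℕ in atTop, (6243:ℝ) ≤ (M:ℝ) ^ ε := ev_rpow hε _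
  have e3 : ∀ᶠ M : ℕ in atTop, (441:ℝ) ≤ (M:ℝ) ^ (1:ℝ) := ev_rpow one_pos _
  obtain ⟨M, h1, h2, h3, h4⟩ := (e1.and (e2.and (e3.and (eventually_ge_atTop 2)))).exists
  refine ⟨k, M, ?_⟩
  have hM0 : (0:ℝ) < M := by exact_mod_cast (by omega : 0 < M)
  have hM1 : (1:ℝ) ≤ M := by exact_mod_cast (by omega : 1 ≤ M)
  have hG : (M:ℝ) ^ (γ + ε) ≤ ⌈(M:ℝ) ^ (γ + ε)⌉₊ := Nat.le_ceil _
  have hp0 : 0 < (M:ℝ) ^ (γ + ε) := by positivity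
  refine ⟨h4, ?_, ?_, ?_⟩
  · have a1 : 22 * cc C k * ((k + 1) * (C2 * (M:ℝ) ^ γ)) / ⌈(M:ℝ) ^ (γ + ε)⌉₊ ≤
        c5 * (M:ℝ) ^ (-ε) := by
      have a2 : 22 * cc C k * ((k + 1) * (C2 * (M:ℝ) ^ γ)) = c5 * (M:ℝ) ^ γ := by
        rw [hc5]; ring
      rw [a2]
      calc c5 * (M:ℝ) ^ γ / ⌈(M:ℝ) ^ (γ + ε)⌉₊ ≤ c5 * (M:ℝ) ^ γ / (M:ℝ) ^ (γ + ε) :=
            div_le_div_of_nonneg_left (by positivity) hp0 hG
        _ = c5 * (M:ℝ) ^ (-ε) := by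
            rw [mul_div_assoc, ← Real.rpow_sub hM0]
            ring_nf
    have a3 : (qM Λ M : ℝ) = ((241 * (Λ:ℝ) ^ 2) ^ 4 * (9 * Λ) ^ 2) * (M:ℝ) ^ (4:ℕ) := by
      unfold qM
      push_cast
      ring
    calc (qM Λ M : ℝ) * (22 * cc C k * ((k + 1) * (C2 * (M:ℝ) ^ γ)) / ⌈(M:ℝ) ^ (γ + ε)⌉₊) ^ k
        ≤ (qM Λ M : ℝ) * (c5 * (M:ℝ) ^ (-ε)) ^ k := by
          apply mul_le_mul_of_nonneg_left _ (Nat.cast_nonneg _)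
          exact pow_le_pow_left₀ (by positivity) a1 k
      _ = c6 * ((M:ℝ) ^ (4:ℝ) * (M:ℝ) ^ (-(ε * k))) := by
          have a4 : (c5 * (M:ℝ) ^ (-ε)) ^ k = c5 ^ k * (M:ℝ) ^ (-(ε * k)) := by
            rw [mul_pow]
            congr 1
            rw [← Real.rpow_natCast ((M:ℝ) ^ (-ε)), ← Real.rpow_mul hM0.le]
            congr 1
            ring
          have a5 : (M:ℝ) ^ (4:ℕ) = (M:ℝ) ^ (4:ℝ) := by
            rw [← Real.rpow_natCast (M:ℝ) 4]; norm_num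
          rw [a3, a4, a5, hc6]
          ring
      _ ≤ (M:ℝ) ^ (6 / ε) * (M:ℝ) ^ (-(12 / ε)) := by
          apply mul_le_mul h1 _ (by positivity) (by positivity)
          rw [← Real.rpow_add hM0]
          exact Real.rpow_le_rpow_of_exponent_le hM1 (by linarith)
      _ = (M:ℝ) ^ (-(6 / ε)) := by
          rw [← Real.rpow_add hM0]
          congr 1
          ring
  · have b1 : (⌈(M:ℝ) ^ (γ + ε)⌉₊ : ℝ) < (M:ℝ) ^ (γ + ε) + 1 := Nat.ceil_lt_add_one hp0.le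
    have b2 : 1 ≤ (M:ℝ) ^ (γ + ε) := Real.one_le_rpow hM1 (by linarith)
    have b3 : (M:ℝ) ^ (γ + 2 * ε) = (M:ℝ) ^ (γ + ε) * (M:ℝ) ^ ε := by
      rw [← Real.rpow_add hM0]; congr 1; ring
    rw [b3]
    push_cast
    nlinarith
  · rw [Real.rpow_one] at h3
    have : (M:ℝ) ^ (3:ℝ) = (M:ℝ) ^ 3 := by
      rw [← Real.rpow_natCast]; norm_num
    rw [this]
    push_cast
    have c1 : (20 * (M:ℝ) + 1) ^ 2 ≤ (21 * M) ^ 2 := by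
      apply pow_le_pow_left₀ (by positivity)
      linarith
    have c2 : (21 * (M:ℝ)) ^ 2 = 441 * (M:ℝ) ^ 2 := by ring
    have c3 : 441 * (M:ℝ) ^ 2 ≤ M * (M:ℝ) ^ 2 := mul_le_mul_of_nonneg_right h3 (by positivity)
    calc (20 * (M:ℝ) + 1) ^ 2 ≤ M * (M:ℝ) ^ 2 := by linarith
      _ = (M:ℝ) ^ 3 := by ring

end K93U
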