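import Pool.Agent.K3h93.UR.Multi
import Pool.Agent.H984R4.NP.EnergyC
import Pool.Agent.H984R4.NP.Limit

/-!
From the curve to the lattice.
-/

namespace K93U

open H974 Finset H342P H984P H984N H443P H443U MeasureTheory Filter Topology

/-- The configuration point `q` around `x` with spacing `r`. -/
noncomputable def gp (x : ℂ) (r : ℝ) (q : ℤ × ℤ) : ℂ := ⟨x.re + r * q.1, x.im + r * q.2⟩

/-- The curve comes within `s` of `z`. -/
def Nr (f : C(unitInterval, ℂ)) (z : ℂ) (s : ℝ) : Prop := ∃ t, dist (f t) z < s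

open Classical in
/-- The number of balls of the configuration met by the curve. -/
noncomputable def cnt (f : C(unitInterval, ℂ)) (x : ℂ) (r : ℝ) (Q : Finset (ℤ × ℤ)) : ℕ :=
  (Q.filter (fun q => Nr f (gp x r q) (4 * r))).card

/-- Some configuration of the family has at least `G` balls met by the curve. -/
def Bad (f : C(unitInterval, ℂ)) (x : ℂ) (r : ℝ) (𝒬 : Finset (Finset (ℤ × ℤ))) (G : ℕ) : Prop :=
  ∃ Q ∈ 𝒬, G ≤ cnt f x r Q

/-- The number of bad scales. -/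
noncomputable def nbad (f : C(unitInterval, ℂ)) (x : ℂ) (r : ℕ → ℝ)
    (𝒬 : ℕ → Finset (Finset (ℤ × ℤ))) (G n : ℕ) : ℕ :=
  nP n (fun j => Bad f x (r j) (𝒬 j) G)

theorem pos_re (δ : ℝ) (hδ : 0 ≤ δ) (σ : St) : |(pos δ σ).re - δ * σ.1.1| ≤ δ / 4 := by
  obtain ⟨⟨x, y⟩, q⟩ := σ
  cases q <;> simp only [pos] <;> rw [abs_le] <;> constructor <;> linarith

theorem pos_im (δ : ℝ) (hδ : 0 ≤ δ) (σ : St) : |(pos δ σ).im - δ * (σ.1.2 + 1)| ≤ δ / 4 := by
  obtain ⟨⟨x, y⟩, q⟩ := σ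
  cases q <;> simp only [pos] <;> rw [abs_le] <;> constructor <;> linarith

/-- The discrete curve near `z` gives a visited state near `z`. -/
theorem near_walk (R : Rect) {δ : ℝ} (hδ : 0 < δ) (F : Finset Edg) {z : ℂ} {s : ℝ}
    (h : Nr (R.curve δ F) z s) :
    ∃ σ : St, (R.dm δ).Vis F σ ∧ dist (pos δ σ) z < s + δ / 2 := by
  obtain ⟨t, ht⟩ := h
  set D := R.dm δ with hD
  set p : ℕ → ℂ := fun k => pos δ (D.walk F k) with hp
  have hstep : ∀ k < D.len F, dist (p k) (p (k + 1)) ≤ δ / 2 := by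
    intro k _
    have := pos_nxt hδ.le (D.cfg F) (D.walk F k)
    rwa [← walk_succ] at this
  have ht' : dist (pl (D.len F) p t) z < s := ht
  rcases Nat.eq_zero_or_pos (D.len F) with h0 | h0
  · refine ⟨D.walk F 0, ⟨0, Nat.zero_le _, rfl⟩, ?_⟩
    have e : pl (D.len F) p t = p 0 := by
      rw [h0]
      simp [pl]
    rw [e] at ht'
    have : dist (pos δ (D.walk F 0)) z < s := ht'
    linarith
  · obtain ⟨k, hk, hks⟩ := EnergyC_cover h0 t
    have h1 := EnergyC_near hstep hk hks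
    refine ⟨D.walk F k, ⟨k, hk.le, rfl⟩, ?_⟩
    have h2 := dist_triangle (p k) (pl (D.len F) p t) z
    rw [dist_comm (p k) (pl (D.len F) p t)] at h2
    show dist (p k) z < s + δ / 2
    linarith

/-- The lattice vertex of the point `x`. -/
noncomputable def vx (δ : ℝ) (x : ℂ) : Vtx := (⌊x.re / δ⌋, ⌊x.im / δ⌋ - 1)

theorem hit_of_near (R : Rect) {δ : ℝ} (hδ : 0 < δ) (F : Finset Edg) {x : ℂ} {r : ℝ} {W : ℕ}
    (hr : δ * (4 * W + 30) ≤ r) {q : ℤ × ℤ} (hq : b0 q ≤ W)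
    (h : Nr (R.curve δ F) (gp x r q) (4 * r)) :
    Hit (R.dm δ) F (vq (vx δ x) (⌊r / δ⌋₊ / 4) q) (20 * (⌊r / δ⌋₊ / 4)) := by
  obtain ⟨σ, hv, hd⟩ := near_walk R hδ F h
  refine ⟨σ, hv, ?_⟩
  have hW : (0:ℝ) ≤ W := Nat.cast_nonneg W
  have hr0 : 0 < r := lt_of_lt_of_le (by positivity) hr
  have hrd : 4 * (W : ℝ) + 30 ≤ r / δ := by rw [le_div_iff₀ hδ]; linarith
  set N := ⌊r / δ⌋₊ with hN
  have hN1 : (N : ℝ) ≤ r / δ := Nat.floor_le (by positivity)
  have hN2 : r / δ < N + 1 := Nat.lt_floor_add_one _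
  obtain ⟨L, hLd⟩ : ∃ L, L = N / 4 := ⟨_, rfl⟩
  rw [← hLd]
  have hL : (N : ℝ) ≤ 4 * (L : ℝ) + 3 := by
    have : N ≤ 4 * L + 3 := by omega
    exact_mod_cast this
  have hL2 : 4 * (L : ℝ) ≤ N := by
    have : 4 * L ≤ N := by omega
    exact_mod_cast this
  have hq1 : |(q.1 : ℝ)| ≤ W := by
    have h1 : |q.1 - 0| ≤ b0 q := le_max_left _ _
    rw [sub_zero] at h1
    have : |q.1| ≤ (W : ℤ) := h1.trans hq
    exact_mod_cast this
  have hq2 : |(q.2 : ℝ)| ≤ W := by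
    have h1 : |q.2 - 0| ≤ b0 q := le_max_right _ _
    rw [sub_zero] at h1
    have : |q.2| ≤ (W : ℤ) := h1.trans hq
    exact_mod_cast this
  have hre : |(pos δ σ).re - (gp x r q).re| < 4 * r + δ / 2 := by
    refine lt_of_le_of_lt ?_ hd
    rw [dist_eq_norm, ← Complex.sub_re]
    exact Complex.abs_re_le_norm _
  have him : |(pos δ σ).im - (gp x r q).im| < 4 * r + δ / 2 := by
    refine lt_of_le_of_lt ?_ hd
    rw [dist_eq_norm, ← Complex.sub_im]
    exact Complex.abs_im_le_norm _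
  -- a general estimate
  have gen : ∀ (s v t : ℤ) (y c : ℝ), |(t:ℝ)| ≤ W → |c - δ * s| ≤ δ / 4 →
      |c - (y + r * t)| < 4 * r + δ / 2 → v = ⌊y / δ⌋ →
      v + 4 * L * t - 20 * (L : ℤ) ≤ s ∧ s ≤ v + 4 * L * t + 20 * (L : ℤ) := by
    intro s v t y c ht hc1 hc2 hv
    have hv1 : (v : ℝ) ≤ y / δ := by rw [hv]; exact Int.floor_le _
    have hv2 : y / δ < v + 1 := by rw [hv]; exact Int.lt_floor_add_one _
    rw [abs_le] at hc1 ht
    rw [abs_lt] at hc2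
    -- divide by δ
    have e1 : |r / δ * t - 4 * L * t| ≤ 4 * W := by
      rw [← sub_mul, abs_mul]
      have a1 : |r / δ - 4 * L| ≤ 4 := by rw [abs_le]; constructor <;> linarith
      have a2 : |(t:ℝ)| ≤ W := abs_le.mpr ht
      exact mul_le_mul a1 a2 (abs_nonneg _) (by norm_num)
    rw [abs_le] at e1
    have hs1 : (s:ℝ) ≤ y / δ + r / δ * t + 4 * (r / δ) + 1 := by
      have : δ * (s:ℝ) ≤ y + r * t + 4 * r + δ := by linarith
      have h2 : (s:ℝ) ≤ (y + r * t + 4 * r + δ) / δ := by rw [le_div_iff₀ hδ]; linarith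
      refine h2.trans (le_of_eq ?_)
      field_simp
    have hs2 : y / δ + r / δ * t - 4 * (r / δ) - 1 ≤ (s:ℝ) := by
      have : y + r * t - 4 * r - δ ≤ δ * (s:ℝ) := by linarith
      have h2 : (y + r * t - 4 * r - δ) / δ ≤ (s:ℝ) := by rw [div_le_iff₀ hδ]; linarith
      refine le_trans (le_of_eq ?_) h2
      field_simp
    constructor
    · have : ((v + 4 * L * t - 20 * (L : ℤ) : ℤ) : ℝ) ≤ s := by
        push_cast
        linarith
      exact_mod_cast this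
    · have : (s:ℝ) ≤ ((v + 4 * L * t + 20 * (L : ℤ) : ℤ) : ℝ) := by
        push_cast
        linarith
      exact_mod_cast this
  have g1 := gen σ.1.1 ⌊x.re / δ⌋ q.1 x.re (pos δ σ).re hq1 (pos_re δ hδ.le σ) hre rfl
  have g2 := gen (σ.1.2 + 1) ⌊x.im / δ⌋ q.2 x.im (pos δ σ).im hq2
    (by have := pos_im δ hδ.le σ; push_cast; exact this) him rfl
  unfold inR vq vx
  simp only
  push_cast
  omega

/-- Depth of a point of the rectangle. -/
noncomputable def dp (R : Rect) (x : ℂ) : ℝ :=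
  min (min (x.re + R.A) (R.B - x.re)) (min x.im (R.H - x.im))

theorem bd_vx (R : Rect) {δ : ℝ} (hδ : 0 < δ) (x : ℂ) :
    dp R x / δ - 2 ≤ (((R.dm δ).bd (vx δ x) : ℤ) : ℝ) := by
  have h1 : dp R x ≤ x.re + R.A := (min_le_left _ _).trans (min_le_left _ _)
  have h2 : dp R x ≤ R.B - x.re := (min_le_left _ _).trans (min_le_right _ _)
  have h3 : dp R x ≤ x.im := (min_le_right _ _).trans (min_le_left _ _)
  have h4 : dp R x ≤ R.H - x.im := (min_le_right _ _).trans (min_le_right _ _)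
  have k1 : dp R x / δ ≤ x.re / δ + R.A / δ := by
    rw [← add_div]; exact div_le_div_of_nonneg_right h1 hδ.le
  have k2 : dp R x / δ ≤ R.B / δ - x.re / δ := by
    rw [← sub_div]; exact div_le_div_of_nonneg_right h2 hδ.le
  have k3 : dp R x / δ ≤ x.im / δ := div_le_div_of_nonneg_right h3 hδ.le
  have k4 : dp R x / δ ≤ R.H / δ - x.im / δ := by
    rw [← sub_div]; exact div_le_div_of_nonneg_right h4 hδ.le
  have a1 := Int.lt_floor_add_one (x.re / δ)
  have a2 := Int.floor_le (x.re / δ)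
  have a3 := Int.lt_floor_add_one (x.im / δ)
  have a4 := Int.floor_le (x.im / δ)
  have a5 := Int.floor_le (-(R.A / δ))
  have a6 := Int.le_ceil (R.B / δ)
  have a7 := Int.le_ceil (R.H / δ)
  unfold Dm.bd Rect.dm vx
  simp only
  rw [Int.cast_min, Int.cast_min, Int.cast_min]
  push_cast
  apply le_min <;> apply le_min <;> linarith

/-- The mesh estimate for the number of bad scales around a point. -/
theorem mesh {C : ℝ} (hC : 0 < C) (hA : AnnUp C) (R : Rect) {x : ℂ} {n M h0 W k G : ℕ}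
    (r : ℕ → ℝ) (hr : ∀ j < n, 0 < r j) (hch : ∀ i j : ℕ, i < j → j < n → r j * M ≤ r i)
    (hh0 : 1 ≤ h0) (hW : 1 ≤ W) (hM : 2 * W ≤ h0 * M) (hdp : ∀ j < n, 3 * r j * W ≤ dp R x)
    (𝒬 : ℕ → Finset (Finset (ℤ × ℤ))) {q : ℕ} (hq : ∀ j < n, (𝒬 j).card ≤ q)
    (hG : 1 ≤ G) {H : ℝ} (hH : 0 ≤ H) (hQ : ∀ j < n, OkF (𝒬 j) h0 W H)
    {p : ℝ} (hp : (q : ℝ) * (22 * cc C k * ((k + 1) * H) / G) ^ k ≤ p) :
    ∃ δ0 : ℝ, 0 < δ0 ∧ ∀ δ : ℝ, 0 < δ → δ ≤ δ0 → ∀ m : ℕ,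
      R.prob δ (fun F => m ≤ nbad (R.curve δ F) x r 𝒬 G n) ≤ 2 ^ n * p ^ m := by
  classical
  obtain ⟨κ, S, δ3, -, hS0, hδ3, hδ31, H3⟩ := R.shape
  obtain ⟨δ1, hδ1, h1⟩ : ∃ δ1 : ℝ, 0 < δ1 ∧ ∀ j < n, δ1 * (4 * W + 30) ≤ r j := by
    clear hch hdp hq hQ
    induction n with
    | zero => exact ⟨1, one_pos, fun j hj => absurd hj (Nat.not_lt_zero j)⟩
    | succ n ih =>
      obtain ⟨δ1, hδ1, h1⟩ := ih (fun j hj => hr j (by omega))
      have hrn := hr n (by omega)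
      refine ⟨min δ1 (r n / (4 * W + 30)), by positivity, fun j hj => ?_⟩
      have hW0 : (0:ℝ) < 4 * W + 30 := by positivity
      rcases Nat.lt_succ_iff_lt_or_eq.mp hj with h | h
      · exact le_trans (mul_le_mul_of_nonneg_right (min_le_left _ _) hW0.le) (h1 j h)
      · subst h
        calc min δ1 (r j / (4 * W + 30)) * (4 * W + 30) ≤ r j / (4 * W + 30) * (4 * W + 30) :=
              mul_le_mul_of_nonneg_right (min_le_right _ _) hW0.le
          _ = r j := by field_simp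
  refine ⟨min δ3 δ1, by positivity, fun δ hδ hδm m => ?_⟩
  have d3 : δ ≤ δ3 := hδm.trans (min_le_left _ _)
  have d1 : δ ≤ δ1 := hδm.trans (min_le_right _ _)
  have hok := (H3 δ hδ d3).ok
  have hWR : (1:ℝ) ≤ W := by exact_mod_cast hW
  have hrδ : ∀ j < n, δ * (4 * W + 30) ≤ r j := fun j hj =>
    (mul_le_mul_of_nonneg_right d1 (by positivity)).trans (h1 j hj)
  have hfl : ∀ j < n, 4 * W + 30 ≤ ⌊r j / δ⌋₊ := fun j hj => by
    apply Nat.le_floor
    push_cast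
    rw [le_div_iff₀ hδ]
    linarith [hrδ j hj]
  have hflu : ∀ j < n, (⌊r j / δ⌋₊ : ℝ) ≤ r j / δ := fun j hj =>
    Nat.floor_le (div_nonneg (hr j hj).le hδ.le)
  have key := multi hC hA hok (V := vx δ x) (n := n) (m := m) (h0 := h0) (W := W) (k := k)
    (G := G) (fun j => ⌊r j / δ⌋₊ / 4)
    (fun j hj => by
      have := hfl j hj
      show 1 ≤ ⌊r j / δ⌋₊ / 4
      omega)
    hh0
    (fun j hj => by
      have h2 := bd_vx R hδ x
      have h3 := hdp j hj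
      have h4 := hrδ j hj
      have h5 := hflu j hj
      have h6 : 3 * (r j / δ) * W ≤ dp R x / δ := by
        rw [le_div_iff₀ hδ]
        calc 3 * (r j / δ) * W * δ = 3 * r j * W := by field_simp
          _ ≤ _ := h3
      have h7 : (2:ℝ) ≤ r j / δ * W := by
        have : (30:ℝ) ≤ r j / δ := by rw [le_div_iff₀ hδ]; nlinarith
        nlinarith
      have h8 : 8 * (⌊r j / δ⌋₊ / 4) * W ≤ 2 * ⌊r j / δ⌋₊ * W := by
        apply Nat.mul_le_mul_right
        omega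
      have h8' : ((8 * (⌊r j / δ⌋₊ / 4) * W : ℕ) : ℝ) ≤ 2 * (r j / δ) * W := by
        have : ((8 * (⌊r j / δ⌋₊ / 4) * W : ℕ) : ℝ) ≤ ((2 * ⌊r j / δ⌋₊ * W : ℕ) : ℝ) := by
          exact_mod_cast h8
        refine this.trans ?_
        rw [Nat.cast_mul, Nat.cast_mul]
        apply mul_le_mul_of_nonneg_right _ (by positivity)
        push_cast
        linarith
      have h9 : (((8 * (⌊r j / δ⌋₊ / 4) * W : ℕ) : ℤ) : ℝ) ≤ (((R.dm δ).bd (vx δ x) : ℤ) : ℝ) := by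
        rw [Int.cast_natCast]
        linarith
      exact_mod_cast h9)
    (fun i j hij hj => by
      show 8 * (⌊r j / δ⌋₊ / 4) * W ≤ 4 * (⌊r i / δ⌋₊ / 4) * h0
      have h2 : ⌊r j / δ⌋₊ * M ≤ ⌊r i / δ⌋₊ := by
        apply Nat.le_floor
        push_cast
        calc (⌊r j / δ⌋₊ : ℝ) * M ≤ r j / δ * M :=
              mul_le_mul_of_nonneg_right (hflu j hj) (Nat.cast_nonneg M)
          _ = r j * M / δ := by ring
          _ ≤ r i / δ := div_le_div_of_nonneg_right (hch i j hij hj) hδ.le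
      have h3 : (⌊r j / δ⌋₊ / 4) * M ≤ ⌊r i / δ⌋₊ / 4 := by
        rw [Nat.le_div_iff_mul_le (by norm_num)]
        calc ⌊r j / δ⌋₊ / 4 * M * 4 = (⌊r j / δ⌋₊ / 4 * 4) * M := by ring
          _ ≤ ⌊r j / δ⌋₊ * M := Nat.mul_le_mul_right _ (Nat.div_mul_le_self _ _)
          _ ≤ _ := h2
      calc 8 * (⌊r j / δ⌋₊ / 4) * W = 4 * ((⌊r j / δ⌋₊ / 4) * (2 * W)) := by ring
        _ ≤ 4 * ((⌊r j / δ⌋₊ / 4) * (h0 * M)) :=
            Nat.mul_le_mul_left _ (Nat.mul_le_mul_left _ hM)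
        _ = 4 * (((⌊r j / δ⌋₊ / 4) * M) * h0) := by ring
        _ ≤ 4 * ((⌊r i / δ⌋₊ / 4) * h0) :=
            Nat.mul_le_mul_left _ (Nat.mul_le_mul_right _ h3)
        _ = 4 * (⌊r i / δ⌋₊ / 4) * h0 := by ring)
    𝒬 hq hG hH hQ hp
  refine le_trans (Pr_mono okh fun F _ hF => ?_) key
  refine le_trans hF (nP_mono fun j hj hB => ?_)
  obtain ⟨Q, hQ1, hQ2⟩ := hB
  unfold cnt at hQ2
  refine ⟨Q, hQ1, hQ2.trans ?_⟩
  unfold nh
  refine Finset.card_le_card ?_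
  intro v hv
  rw [Finset.mem_filter] at hv ⊢
  exact ⟨hv.1, hit_of_near R hδ F (hrδ j hj) ((hQ j hj Q hQ1).1 v hv.1).2 hv.2⟩

end K93U
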