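import Pool.Agent.K3h93.UR.Growth
import Pool.Agent.K3h93.UR.Mesh

/-!
Configurations coming from linear images of a set.
-/

namespace K93U

open H974 Finset H342P H984P H984N H443P H443U

/-- The number of balls of radius `ρ` needed to cover the part of `K` in a ball of radius `R ≤ 1`
is at most a constant times `(R / ρ) ^ s`. -/
def Hom (K : Set ℂ) (s : ℝ) : Prop :=
  ∃ C : ℝ, ∀ (z : ℂ) (ρ R : ℝ), 0 < ρ → ρ ≤ R → R ≤ 1 →
    ∃ t : Finset ℂ, (t.card : ℝ) ≤ C * (R / ρ) ^ s ∧ K ∩ Metric.ball z R ⊆ ⋃ y ∈ t, Metric.ball y ρ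

/-- The real linear map with `1 ↦ α` and `i ↦ β`. -/
noncomputable def lin (α β z : ℂ) : ℂ := (z.re : ℂ) * α + (z.im : ℂ) * β

theorem lin_sub (α β z z' : ℂ) : lin α β (z - z') = lin α β z - lin α β z' := by
  unfold lin
  rw [Complex.sub_re, Complex.sub_im]
  push_cast
  ring

theorem lin_of (L : ℂ →L[ℝ] ℂ) (z : ℂ) : L z = lin (L 1) (L Complex.I) z := by
  have h : z = z.re • (1 : ℂ) + z.im • Complex.I := by
    apply Complex.ext <;> simp
  conv_lhs => rw [h]
  rw [map_add, map_smul, map_smul]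
  rfl

theorem norm_le_abs (z : ℂ) : ‖z‖ ≤ |z.re| + |z.im| := Complex.norm_le_abs_re_add_abs_im z

theorem lin_diff (α β α' β' z : ℂ) {η : ℝ} (h1 : ‖α - α'‖ ≤ η) (h2 : ‖β - β'‖ ≤ η) :
    ‖lin α β z - lin α' β' z‖ ≤ 2 * η * ‖z‖ := by
  have e : lin α β z - lin α' β' z = (z.re : ℂ) * (α - α') + (z.im : ℂ) * (β - β') := by
    unfold lin; ring
  have hη : 0 ≤ η := (norm_nonneg _).trans h1
  rw [e]
  calc ‖(z.re : ℂ) * (α - α') + (z.im : ℂ) * (β - β')‖
      ≤ ‖(z.re : ℂ) * (α - α')‖ + ‖(z.im : ℂ) * (β - β')‖ := norm_add_le _ _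
    _ = |z.re| * ‖α - α'‖ + |z.im| * ‖β - β'‖ := by
        rw [norm_mul, norm_mul, Complex.norm_real, Complex.norm_real, Real.norm_eq_abs,
          Real.norm_eq_abs]
    _ ≤ ‖z‖ * η + ‖z‖ * η := by
        apply add_le_add
        · exact mul_le_mul (Complex.abs_re_le_norm z) h1 (norm_nonneg _) (norm_nonneg _)
        · exact mul_le_mul (Complex.abs_im_le_norm z) h2 (norm_nonneg _) (norm_nonneg _)
    _ = 2 * η * ‖z‖ := by ring

/-- The complex number of a lattice point. -/
noncomputable def qc (q : ℤ × ℤ) : ℂ := ⟨q.1, q.2⟩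

theorem gp_eq (x : ℂ) (r : ℝ) (q : ℤ × ℤ) : gp x r q = x + r * qc q := by
  apply Complex.ext <;> simp [gp, qc]

/-- Rounding. -/
theorem exists_round (z : ℂ) : ∃ q : ℤ × ℤ, ‖z - qc q‖ ≤ 1 ∧
    |(q.1 : ℝ)| ≤ ‖z‖ + 1 / 2 ∧ |(q.2 : ℝ)| ≤ ‖z‖ + 1 / 2 := by
  refine ⟨(round z.re, round z.im), ?_, ?_, ?_⟩
  · refine (norm_le_abs _).trans ?_
    have h1 := abs_sub_round z.re
    have h2 := abs_sub_round z.im
    simp only [qc, Complex.sub_re, Complex.sub_im]
    linarith
  · have h1 := abs_sub_round z.re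
    have h3 : |(round z.re : ℝ)| ≤ |z.re| + |z.re - round z.re| := by
      have := abs_sub_abs_le_abs_sub (round z.re : ℝ) z.re
      rw [abs_sub_comm] at this
      linarith
    have h2 := Complex.abs_re_le_norm z
    simp only
    linarith
  · have h1 := abs_sub_round z.im
    have h3 : |(round z.im : ℝ)| ≤ |z.im| + |z.im - round z.im| := by
      have := abs_sub_abs_le_abs_sub (round z.im : ℝ) z.im
      rw [abs_sub_comm] at this
      linarith
    have h2 := Complex.abs_im_le_norm z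
    simp only
    linarith

theorem sd_le_norm (q q' : ℤ × ℤ) : (H443U.sd q q' : ℝ) ≤ ‖qc q - qc q'‖ := by
  unfold H443U.sd
  rw [Int.cast_max, Int.cast_abs, Int.cast_abs]
  push_cast
  apply max_le
  · have := Complex.abs_re_le_norm (qc q - qc q')
    simpa [qc] using this
  · have := Complex.abs_im_le_norm (qc q - qc q')
    simpa [qc] using this

theorem norm_le_sd (q q' : ℤ × ℤ) : ‖qc q - qc q'‖ ≤ 2 * (H443U.sd q q' : ℝ) := by
  refine (norm_le_abs _).trans ?_
  have h1 : |((q.1 - q'.1 : ℤ) : ℝ)| ≤ (H443U.sd q q' : ℝ) := by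
    rw [← Int.cast_abs]
    exact_mod_cast le_max_left _ _
  have h2 : |((q.2 - q'.2 : ℤ) : ℝ)| ≤ (H443U.sd q q' : ℝ) := by
    rw [← Int.cast_abs]
    exact_mod_cast le_max_right _ _
  have e1 : (qc q - qc q').re = ((q.1 - q'.1 : ℤ) : ℝ) := by simp [qc]
  have e2 : (qc q - qc q').im = ((q.2 - q'.2 : ℤ) : ℝ) := by simp [qc]
  rw [e1, e2]
  linarith

open Classical in
/-- The configuration of the linear image of `K` seen from `k`. -/
noncomputable def cf (K : Set ℂ) (a r : ℝ) (W : ℕ) (k α β v : ℂ) : Finset (ℤ × ℤ) :=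
  ((Finset.Icc (-(W:ℤ)) W) ×ˢ (Finset.Icc (-(W:ℤ)) W)).filter
    (fun q => 40 ≤ b0 q ∧ ∃ κ ∈ K, ‖κ - k‖ ≤ a ∧ ‖qc q - v - lin α β (κ - k) / r‖ ≤ 3)

theorem mem_cf {K : Set ℂ} {a r : ℝ} {W : ℕ} {k α β v : ℂ} {q : ℤ × ℤ} :
    q ∈ cf K a r W k α β v ↔ (b0 q ≤ W ∧ 40 ≤ b0 q) ∧
      ∃ κ ∈ K, ‖κ - k‖ ≤ a ∧ ‖qc q - v - lin α β (κ - k) / r‖ ≤ 3 := by
  classical
  unfold cf
  rw [Finset.mem_filter, Finset.mem_product, Finset.mem_Icc, Finset.mem_Icc]
  have h : b0 q ≤ W ↔ (-(W:ℤ) ≤ q.1 ∧ q.1 ≤ W) ∧ (-(W:ℤ) ≤ q.2 ∧ q.2 ≤ W) := by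
    unfold b0 H443U.sd
    rw [max_le_iff, abs_le, abs_le]
    simp only [sub_zero]
  rw [h]
  tauto

/-- The two-sided bound for the linear map. -/
def Bil (Λ : ℝ) (α β : ℂ) : Prop :=
  ∀ z : ℂ, ‖z‖ ≤ 2 * Λ * ‖lin α β z‖ ∧ ‖lin α β z‖ ≤ 2 * Λ * ‖z‖

theorem small_card {T : Finset (ℤ × ℤ)} {n : ℕ}
    (h : ∀ q ∈ T, ∀ q' ∈ T, H443U.sd q q' ≤ n) : T.card ≤ (2 * n + 1) ^ 2 := by
  rcases T.eq_empty_or_nonempty with h0 | ⟨q0, hq0⟩
  · rw [h0]; simp
  · have hsub : T ⊆ (Finset.Icc (q0.1 - n) (q0.1 + n)) ×ˢ (Finset.Icc (q0.2 - n) (q0.2 + n)) := by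
      intro q hq
      have h1 := h q hq q0 hq0
      unfold H443U.sd at h1
      rw [max_le_iff, abs_le, abs_le] at h1
      rw [Finset.mem_product, Finset.mem_Icc, Finset.mem_Icc]
      omega
    refine (Finset.card_le_card hsub).trans (le_of_eq ?_)
    rw [Finset.card_product, Int.card_Icc, Int.card_Icc, sq]
    congr 1 <;> omega

/-- Growth of the configurations. -/
theorem cf_gr {K : Set ℂ} {s CK : ℝ} (hs : 0 ≤ s) (hCK : 0 ≤ CK)
    (hK : ∀ (z : ℂ) (ρ R : ℝ), 0 < ρ → ρ ≤ R → R ≤ 1 →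
      ∃ t : Finset ℂ, (t.card : ℝ) ≤ CK * (R / ρ) ^ s ∧
        K ∩ Metric.ball z R ⊆ ⋃ y ∈ t, Metric.ball y ρ)
    {Λ : ℝ} (hΛ : 1 ≤ Λ) {a r : ℝ} (hr : 0 < r) {W : ℕ} (hW : 1 ≤ W) (hWr : 42 * Λ * r * W ≤ 1)
    {k α β v : ℂ} (hL : Bil Λ α β) :
    Gr (cf K a r W k α β v) (289 * CK * (42 * Λ ^ 2) ^ s) s := by
  classical
  have main : ∀ (u : ℤ × ℤ) (t : ℕ), 1 ≤ t → t ≤ 2 * W →
      (((cf K a r W k α β v).filter (fun v => H443U.sd v u ≤ t)).card : ℝ) ≤
        289 * CK * (42 * Λ ^ 2) ^ s * (t : ℝ) ^ s := by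
    intro u t ht htW
    set T := (cf K a r W k α β v).filter (fun v => H443U.sd v u ≤ t) with hT
    have ht0 : (1:ℝ) ≤ t := by exact_mod_cast ht
    rcases T.eq_empty_or_nonempty with h0 | ⟨q0, hq0⟩
    · rw [h0]
      simp only [Finset.card_empty, Nat.cast_zero]
      positivity
    · have hch : ∀ q : ℤ × ℤ, ∃ κ : ℂ, q ∈ T →
          (κ ∈ K ∧ ‖κ - k‖ ≤ a ∧ ‖qc q - v - lin α β (κ - k) / r‖ ≤ 3) := by
        intro q
        by_cases hq : q ∈ T
        · obtain ⟨κ, h1, h2⟩ := (mem_cf.mp (Finset.mem_filter.mp hq).1).2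
          exact ⟨κ, fun _ => ⟨h1, h2⟩⟩
        · exact ⟨0, fun h => absurd h hq⟩
      choose κ hκ using hch
      have hTu : ∀ q ∈ T, H443U.sd q u ≤ t := fun q hq => (Finset.mem_filter.mp hq).2
      -- comparison of differences
      have hdiff : ∀ q ∈ T, ∀ q' ∈ T, lin α β (κ q - κ q') =
          r * ((qc q - qc q') - ((qc q - v - lin α β (κ q - k) / r) -
            (qc q' - v - lin α β (κ q' - k) / r))) := by
        intro q _ q' _
        have e : κ q - κ q' = (κ q - k) - (κ q' - k) := by ring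
        have hr' : (r : ℂ) ≠ 0 := by exact_mod_cast hr.ne'
        rw [e, lin_sub]
        field_simp
        ring
      have hup : ∀ q ∈ T, ∀ q' ∈ T, ‖lin α β (κ q - κ q')‖ ≤ r * (‖qc q - qc q'‖ + 6) := by
        intro q hq q' hq'
        rw [hdiff q hq q' hq', norm_mul, Complex.norm_real, Real.norm_eq_abs, abs_of_pos hr]
        apply mul_le_mul_of_nonneg_left _ hr.le
        refine (norm_sub_le _ _).trans ?_
        have h1 := norm_sub_le (qc q - v - lin α β (κ q - k) / r)
          (qc q' - v - lin α β (κ q' - k) / r)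
        have h2 := (hκ q hq).2.2
        have h3 := (hκ q' hq').2.2
        linarith
      have hlo : ∀ q ∈ T, ∀ q' ∈ T, ‖qc q - qc q'‖ ≤ ‖lin α β (κ q - κ q')‖ / r + 6 := by
        intro q hq q' hq'
        have e : qc q - qc q' = lin α β (κ q - κ q') / r +
            ((qc q - v - lin α β (κ q - k) / r) - (qc q' - v - lin α β (κ q' - k) / r)) := by
          rw [hdiff q hq q' hq']
          have hr' : (r : ℂ) ≠ 0 := by exact_mod_cast hr.ne'
          field_simp
          ring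
        have h1 := norm_sub_le (qc q - v - lin α β (κ q - k) / r)
          (qc q' - v - lin α β (κ q' - k) / r)
        have h2 := (hκ q hq).2.2
        have h3 := (hκ q' hq').2.2
        have h4 := norm_add_le (lin α β (κ q - κ q') / (r:ℂ))
          ((qc q - v - lin α β (κ q - k) / r) - (qc q' - v - lin α β (κ q' - k) / r))
        rw [← e] at h4
        have h5 : ‖lin α β (κ q - κ q') / (r:ℂ)‖ = ‖lin α β (κ q - κ q')‖ / r := by
          rw [norm_div, Complex.norm_real, Real.norm_eq_abs, abs_of_pos hr]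
        rw [h5] at h4
        linarith
      have hsd : ∀ q ∈ T, ∀ q' ∈ T, ‖qc q - qc q'‖ ≤ 4 * t := by
        intro q hq q' hq'
        have h1 : ‖qc q - qc q'‖ ≤ ‖qc q - qc u‖ + ‖qc u - qc q'‖ := by
          have := norm_add_le (qc q - qc u) (qc u - qc q')
          rwa [sub_add_sub_cancel] at this
        have h2 := norm_le_sd q u
        have h3 := norm_le_sd u q'
        rw [Sum.sd_comm] at h3
        have h4 : (H443U.sd q u : ℝ) ≤ t := by exact_mod_cast hTu q hq
        have h5 : (H443U.sd q' u : ℝ) ≤ t := by exact_mod_cast hTu q' hq'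
        linarith
      obtain ⟨c, hc1, hc2⟩ := hK (κ q0) (r / (2 * Λ)) (21 * Λ * r * t) (by positivity) (by
          rw [div_le_iff₀ (by positivity)]
          have : 1 ≤ 21 * Λ * t * (2 * Λ) := by nlinarith [mul_nonneg (by linarith : 0 ≤ Λ) (by linarith : (0:ℝ) ≤ t)]
          nlinarith) (by
          have h1 : (t:ℝ) ≤ 2 * W := by exact_mod_cast htW
          have h2 : 21 * Λ * r * t ≤ 21 * Λ * r * (2 * W) :=
            mul_le_mul_of_nonneg_left h1 (by positivity)
          linarith)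
      have hcov : ∀ q ∈ T, ∃ y ∈ c, κ q ∈ Metric.ball y (r / (2 * Λ)) := by
        intro q hq
        have h1 : κ q ∈ K ∩ Metric.ball (κ q0) (21 * Λ * r * t) := by
          refine ⟨(hκ q hq).1, ?_⟩
          rw [Metric.mem_ball, dist_eq_norm]
          have h2 := (hL (κ q - κ q0)).1
          have h3 := hup q hq q0 hq0
          have h4 := hsd q hq q0 hq0
          have h5 : ‖κ q - κ q0‖ ≤ 2 * Λ * (r * (4 * t + 6)) := by
            refine h2.trans ?_
            apply mul_le_mul_of_nonneg_left _ (by positivity)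
            refine h3.trans ?_
            apply mul_le_mul_of_nonneg_left _ hr.le
            linarith
          have h6 : 0 < Λ * r * t := by positivity
          have h7 : Λ * r ≤ Λ * r * t := le_mul_of_one_le_right (by positivity) ht0
          nlinarith
        have h8 := hc2 h1
        simp only [Set.mem_iUnion] at h8
        obtain ⟨y, hy, hy2⟩ := h8
        exact ⟨y, hy, hy2⟩
      have hTsub : T ⊆ c.biUnion (fun y => T.filter (fun q => κ q ∈ Metric.ball y (r / (2 * Λ)))) := by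
        intro q hq
        obtain ⟨y, hy, hy2⟩ := hcov q hq
        exact Finset.mem_biUnion.mpr ⟨y, hy, Finset.mem_filter.mpr ⟨hq, hy2⟩⟩
      have hsmall : ∀ y ∈ c, (T.filter (fun q => κ q ∈ Metric.ball y (r / (2 * Λ)))).card ≤ 289 := by
        intro y _
        have := small_card (T := T.filter (fun q => κ q ∈ Metric.ball y (r / (2 * Λ)))) (n := 8) (by
          intro q hq q' hq'
          rw [Finset.mem_filter] at hq hq'
          have h1 : ‖κ q - κ q'‖ ≤ r / Λ := by
            have h2 : dist (κ q) (κ q') ≤ dist (κ q) y + dist (κ q') y := by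
              have := dist_triangle (κ q) y (κ q')
              rwa [dist_comm y] at this
            have h3 : dist (κ q) y < r / (2 * Λ) := hq.2
            have h4 : dist (κ q') y < r / (2 * Λ) := hq'.2
            rw [← dist_eq_norm]
            have h5 : r / (2 * Λ) + r / (2 * Λ) = r / Λ := by field_simp; ring
            linarith
          have h6 := (hL (κ q - κ q')).2
          have h7 := hlo q hq.1 q' hq'.1
          have h8 : ‖lin α β (κ q - κ q')‖ / r ≤ 2 := by
            rw [div_le_iff₀ hr]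
            refine h6.trans ?_
            calc 2 * Λ * ‖κ q - κ q'‖ ≤ 2 * Λ * (r / Λ) :=
                  mul_le_mul_of_nonneg_left h1 (by positivity)
              _ = 2 * r := by field_simp
          have h9 := sd_le_norm q q'
          have h10 : (H443U.sd q q' : ℝ) ≤ ((8:ℕ) : ℝ) := by push_cast; linarith
          exact_mod_cast h10)
        exact this
      have hcard : T.card ≤ c.card * 289 := by
        refine (Finset.card_le_card hTsub).trans (Finset.card_biUnion_le.trans ?_)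
        refine (Finset.sum_le_sum hsmall).trans (le_of_eq ?_)
        rw [Finset.sum_const, smul_eq_mul]
      have e1 : (21 * Λ * r * t) / (r / (2 * Λ)) = (42 * Λ ^ 2) * t := by field_simp; ring
      rw [e1, Real.mul_rpow (by positivity) (by positivity)] at hc1
      calc (T.card : ℝ) ≤ c.card * 289 := by exact_mod_cast hcard
        _ ≤ (CK * ((42 * Λ ^ 2) ^ s * (t:ℝ) ^ s)) * 289 := by
            apply mul_le_mul_of_nonneg_right hc1 (by norm_num)
        _ = 289 * CK * (42 * Λ ^ 2) ^ s * (t : ℝ) ^ s := by ring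
  intro u t ht
  rcases le_or_gt t (2 * W) with h | h
  · exact main u t ht h
  · have h1 := main (0, 0) (2 * W) (by omega) le_rfl
    have h2 : (((cf K a r W k α β v).filter (fun v => H443U.sd v u ≤ t)).card : ℝ) ≤
        (((cf K a r W k α β v).filter (fun v => H443U.sd v (0, 0) ≤ ((2 * W : ℕ) : ℤ))).card : ℝ) := by
      have : (cf K a r W k α β v).filter (fun v => H443U.sd v u ≤ t) ⊆
          (cf K a r W k α β v).filter (fun v => H443U.sd v (0, 0) ≤ ((2 * W : ℕ) : ℤ)) := by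
        intro q hq
        rw [Finset.mem_filter] at hq ⊢
        refine ⟨hq.1, ?_⟩
        have h3 := (mem_cf.mp hq.1).1.1
        have h4 : H443U.sd q (0, 0) = b0 q := rfl
        rw [h4]
        push_cast
        omega
      exact_mod_cast Finset.card_le_card this
    refine h2.trans (h1.trans ?_)
    apply mul_le_mul_of_nonneg_left _ (by positivity)
    apply Real.rpow_le_rpow (by positivity) _ hs
    exact_mod_cast h.le

/-- The sums over the configurations. -/
theorem cf_sums {s : ℝ} (hs : 1 / 4 < s) : ∃ C1 : ℝ, 1 ≤ C1 ∧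
    ∀ (Q : Finset (ℤ × ℤ)) (B : ℝ), 0 ≤ B → Gr Q B s → ∀ W : ℕ, 1 ≤ W → (∀ q ∈ Q, b0 q ≤ W) →
      (∑ v ∈ Q, w (b0 v) ≤ C1 * B * (4 * (W:ℝ)) ^ (s - 1 / 4)) ∧
      ∀ u ∈ Q, ∑ v ∈ Q, w (H443U.sd v u) ≤ C1 * B * (4 * (W:ℝ)) ^ (s - 1 / 4) := by
  classical
  obtain ⟨C1, hC1, h⟩ := gr_sum (a := s) (p := 1) (by push_cast; linarith)
  refine ⟨C1, hC1, fun Q B hB hQ W hW hb => ?_⟩
  have gen : ∀ u : ℤ × ℤ, (∀ v ∈ Q, H443U.sd v u ≤ 2 * W) →
      ∑ v ∈ Q, w (H443U.sd v u) ≤ C1 * B * (4 * (W:ℝ)) ^ (s - 1 / 4) := by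
    intro u hu
    set n := Nat.clog 2 (2 * W) with hn
    have h1 : 2 * W ≤ 2 ^ n := Nat.le_pow_clog (by norm_num) _
    have h2 : (2:ℝ) ^ n ≤ 4 * W := by
      have h3 : n - 1 < n := by
        have : 0 < n := Nat.clog_pos (by norm_num) (by omega)
        omega
      have h4 : 2 ^ (n - 1) < 2 * W := by
        have := (Nat.lt_clog_iff_pow_lt (b := 2) (by norm_num) (y := n - 1) (x := 2 * W)).mp (by rw [← hn]; exact h3)
        exact this
      have h5 : 2 ^ n = 2 * 2 ^ (n - 1) := by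
        conv_lhs => rw [show n = (n - 1) + 1 by omega]
        rw [pow_succ]; ring
      have h6 : 2 ^ n ≤ 4 * W := by omega
      exact_mod_cast h6
    have e : Q.filter (fun v => H443U.sd v u ≤ 2 ^ n) = Q := by
      rw [Finset.filter_eq_self]
      intro v hv
      refine (hu v hv).trans ?_
      exact_mod_cast h1
    have h7 := h Q B hB hQ u n
    rw [e] at h7
    simp only [pow_one, Nat.cast_one] at h7
    refine h7.trans ?_
    apply mul_le_mul_of_nonneg_left _ (by positivity)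
    exact Real.rpow_le_rpow (by positivity) h2 (by linarith)
  constructor
  · exact gen (0, 0) (fun v hv => by
      have := hb v hv
      have h4 : H443U.sd v (0, 0) = b0 v := rfl
      rw [h4]
      omega)
  · intro u hu
    refine gen u fun v hv => ?_
    have h1 := Sum.sd_tri v (0, 0) u
    have h2 := hb v hv
    have h3 := hb u hu
    rw [Sum.sd_comm (0, 0) u] at h1
    unfold b0 at h2 h3
    omega

end K93U
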