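import Mathlib

/-!
Coverings from trees with few bad scales, and Hausdorff dimension.
-/

namespace K93U

open Filter Topology MeasureTheory

open Classical in
/-- The number of bad scales `i` with `j ≤ i < J`. -/
noncomputable def nbd {Y : Type*} (bad : Y → ℕ → Prop) (y : Y) (j J : ℕ) : ℕ :=
  ((Finset.Ico j J).filter (bad y)).card

theorem nbd_succ {Y : Type*} {bad : Y → ℕ → Prop} {y : Y} {j J : ℕ} (h : j < J) :
    nbd bad y (j + 1) J ≤ nbd bad y j J ∧ (bad y j → nbd bad y (j + 1) J + 1 = nbd bad y j J) := by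
  classical
  have e : Finset.Ico j J = insert j (Finset.Ico (j + 1) J) := by
    ext x
    simp only [Finset.mem_Ico, Finset.mem_insert]
    omega
  unfold nbd
  rw [e, Finset.filter_insert]
  constructor
  · split_ifs
    · exact Finset.card_le_card (Finset.subset_insert _ _)
    · exact le_rfl
  · intro hb
    rw [if_pos hb, Finset.card_insert_of_notMem]
    simp

/-- The number of pieces of a tree of cells. -/
theorem tree {Y : Type*} (J : ℕ) (cell : ℕ → Set Y → Prop) (bad : Y → ℕ → Prop) {G M : ℕ}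
    (hG : 1 ≤ G) (hM : 1 ≤ M)
    (h1 : ∀ j < J, ∀ E, cell j E → (∃ y ∈ E, ¬ bad y j) → ∃ s : Finset (Set Y), s.card ≤ G ∧
      E ⊆ ⋃₀ (s : Set (Set Y)) ∧ ∀ c ∈ s, cell (j + 1) c ∧ c ⊆ E)
    (h2 : ∀ j < J, ∀ E, cell j E → E.Nonempty → ∃ s : Finset (Set Y), s.card ≤ M ∧
      E ⊆ ⋃₀ (s : Set (Set Y)) ∧ ∀ c ∈ s, cell (j + 1) c ∧ c ⊆ E) (d : ℕ) :
    ∀ j, j + d = J → ∀ E, cell j E → ∀ b, (∀ y ∈ E, nbd bad y j J ≤ b) →
      ∃ s : Finset (Set Y), s.card ≤ M ^ b * G ^ d ∧ E ⊆ ⋃₀ (s : Set (Set Y)) ∧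
        ∀ c ∈ s, cell J c := by
  classical
  induction d with
  | zero =>
    intro j hj E hE b _
    refine ⟨{E}, ?_, ?_, ?_⟩
    · simp only [Finset.card_singleton, pow_zero, mul_one]
      exact Nat.one_le_pow _ _ hM
    · simp
    · intro c hc
      rw [Finset.mem_singleton] at hc
      rw [hc]
      have : j = J := by omega
      rw [← this]
      exact hE
  | succ d ih =>
    intro j hj E hE b hb
    have hjJ : j < J := by omega
    have glue : ∀ (s0 : Finset (Set Y)) (b' N : ℕ), s0.card ≤ N → E ⊆ ⋃₀ (s0 : Set (Set Y)) →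
        (∀ c ∈ s0, cell (j + 1) c ∧ c ⊆ E) → (∀ y ∈ E, nbd bad y (j + 1) J ≤ b') →
        ∃ s : Finset (Set Y), s.card ≤ N * (M ^ b' * G ^ d) ∧ E ⊆ ⋃₀ (s : Set (Set Y)) ∧
          ∀ c ∈ s, cell J c := by
      intro s0 b' N hs0 hE0 hc0 hb'
      have key : ∀ c : Set Y, ∃ t : Finset (Set Y), c ∈ s0 → (t.card ≤ M ^ b' * G ^ d ∧
          c ⊆ ⋃₀ (t : Set (Set Y)) ∧ ∀ c' ∈ t, cell J c') := by
        intro c
        by_cases hc : c ∈ s0
        · obtain ⟨t, ht⟩ := ih (j + 1) (by omega) c (hc0 c hc).1 b'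
            (fun y hy => hb' y ((hc0 c hc).2 hy))
          exact ⟨t, fun _ => ht⟩
        · exact ⟨∅, fun h => absurd h hc⟩
      choose t ht using key
      refine ⟨s0.biUnion t, ?_, ?_, ?_⟩
      · calc (s0.biUnion t).card ≤ ∑ c ∈ s0, (t c).card := Finset.card_biUnion_le
          _ ≤ ∑ c ∈ s0, M ^ b' * G ^ d := Finset.sum_le_sum fun c hc => (ht c hc).1
          _ = s0.card * (M ^ b' * G ^ d) := by rw [Finset.sum_const, smul_eq_mul]
          _ ≤ N * (M ^ b' * G ^ d) := Nat.mul_le_mul_right _ hs0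
      · intro y hy
        obtain ⟨c, hc, hyc⟩ := hE0 hy
        obtain ⟨c', hc', hyc'⟩ := (ht c hc).2.1 hyc
        exact ⟨c', Finset.mem_biUnion.mpr ⟨c, hc, hc'⟩, hyc'⟩
      · intro c' hc'
        obtain ⟨c, hc, hcc⟩ := Finset.mem_biUnion.mp hc'
        exact (ht c hc).2.2 c' hcc
    rcases E.eq_empty_or_nonempty with h0 | h0
    · exact ⟨∅, by simp, by rw [h0]; exact Set.empty_subset _, by simp⟩
    by_cases hgood : ∃ y ∈ E, ¬ bad y j
    · obtain ⟨s0, a1, a2, a3⟩ := h1 j hjJ E hE hgood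
      obtain ⟨s, b1, b2, b3⟩ := glue s0 b G a1 a2 a3 (fun y hy => (nbd_succ hjJ).1.trans (hb y hy))
      refine ⟨s, b1.trans (le_of_eq ?_), b2, b3⟩
      ring
    · push Not at hgood
      obtain ⟨s0, a1, a2, a3⟩ := h2 j hjJ E hE h0
      obtain ⟨y0, hy0⟩ := h0
      have hb1 : 1 ≤ b := by
        have e1 := (nbd_succ (y := y0) hjJ).2 (hgood y0 hy0)
        have e2 := hb y0 hy0
        omega
      obtain ⟨s, b1, b2, b3⟩ := glue s0 (b - 1) M a1 a2 a3 (fun y hy => by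
        have e1 := (nbd_succ (y := y) hjJ).2 (hgood y hy)
        have e2 := hb y hy
        omega)
      refine ⟨s, b1.trans ?_, b2, b3⟩
      have e3 : M * (M ^ (b - 1) * G ^ d) = M ^ b * G ^ d := by
        have : M ^ b = M * M ^ (b - 1) := by
          conv_lhs => rw [show b = (b - 1) + 1 by omega]
          rw [pow_succ]
          ring
        rw [this]
        ring
      rw [e3]
      exact Nat.mul_le_mul_left _ (Nat.pow_le_pow_right hG (by omega))

/-- Hausdorff dimension from coverings. -/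
theorem dim_of_cover {S : Set ℂ} {ρ : ℝ} (hρ0 : 0 < ρ) (hρ1 : ρ < 1) {a : ℝ} (ha : 0 < a) {d : ℝ}
    (hd : 0 ≤ d) (N : ℕ → ℕ) (hN : Tendsto (fun J => (N J : ℝ) * (ρ ^ J) ^ d) atTop (𝓝 0))
    (h : ∀ᶠ J in atTop, ∃ s : Finset (Set ℂ), s.card ≤ N J ∧ S ⊆ ⋃₀ (s : Set (Set ℂ)) ∧
      ∀ c ∈ s, ∀ x ∈ c, ∀ y ∈ c, dist x y ≤ a * ρ ^ J) :
    dimH S ≤ ENNReal.ofReal d := by
  classical
  have hch : ∀ J : ℕ, ∃ s : Finset (Set ℂ), (∃ s : Finset (Set ℂ), s.card ≤ N J ∧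
      S ⊆ ⋃₀ (s : Set (Set ℂ)) ∧ ∀ c ∈ s, ∀ x ∈ c, ∀ y ∈ c, dist x y ≤ a * ρ ^ J) →
      (s.card ≤ N J ∧ S ⊆ ⋃₀ (s : Set (Set ℂ)) ∧
        ∀ c ∈ s, ∀ x ∈ c, ∀ y ∈ c, dist x y ≤ a * ρ ^ J) := by
    intro J
    by_cases hJ : ∃ s : Finset (Set ℂ), s.card ≤ N J ∧
      S ⊆ ⋃₀ (s : Set (Set ℂ)) ∧ ∀ c ∈ s, ∀ x ∈ c, ∀ y ∈ c, dist x y ≤ a * ρ ^ J
    · obtain ⟨s, hs⟩ := hJ
      exact ⟨s, fun _ => hs⟩
    · exact ⟨∅, fun h => absurd h hJ⟩
  choose s hs using hch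
  have hs' : ∀ᶠ J in atTop, (s J).card ≤ N J ∧ S ⊆ ⋃₀ (s J : Set (Set ℂ)) ∧
        ∀ c ∈ s J, ∀ x ∈ c, ∀ y ∈ c, dist x y ≤ a * ρ ^ J := h.mono fun J hJ => hs J hJ
  have hdiam : ∀ᶠ J in atTop, ∀ i : s J, Metric.ediam (i : Set ℂ) ≤ ENNReal.ofReal (a * ρ ^ J) := by
    filter_upwards [hs'] with J hJ i
    refine Metric.ediam_le fun x hx y hy => ?_
    rw [edist_dist]
    exact ENNReal.ofReal_le_ofReal (hJ.2.2 i i.2 x hx y hy)
  have hzero : Measure.hausdorffMeasure d S = 0 := by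
    rw [← nonpos_iff_eq_zero]
    have hr : Tendsto (fun J : ℕ => ENNReal.ofReal (a * ρ ^ J)) atTop (𝓝 0) := by
      rw [← ENNReal.ofReal_zero]
      refine ENNReal.tendsto_ofReal ?_
      have := (tendsto_pow_atTop_nhds_zero_of_lt_one hρ0.le hρ1).const_mul a
      rwa [mul_zero] at this
    refine (Measure.hausdorffMeasure_le_liminf_sum d S (fun J => ENNReal.ofReal (a * ρ ^ J)) hr
      (fun J (i : s J) => (i : Set ℂ)) hdiam ?_).trans ?_
    · filter_upwards [hs'] with J hJ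
      intro x hx
      obtain ⟨c, hc, hxc⟩ := hJ.2.1 hx
      exact Set.mem_iUnion.mpr ⟨⟨c, hc⟩, hxc⟩
    · have hb : ∀ᶠ J in atTop, ∑ i : s J, Metric.ediam (i : Set ℂ) ^ d ≤
          ENNReal.ofReal (a ^ d * ((N J : ℝ) * (ρ ^ J) ^ d)) := by
        filter_upwards [hs', hdiam] with J hJ hJ2
        calc ∑ i : s J, Metric.ediam (i : Set ℂ) ^ d
            ≤ ∑ i : s J, ENNReal.ofReal (a * ρ ^ J) ^ d :=
              Finset.sum_le_sum fun i _ => ENNReal.rpow_le_rpow (hJ2 i) hd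
          _ = ((s J).card : ENNReal) * ENNReal.ofReal (a * ρ ^ J) ^ d := by simp
          _ ≤ (N J : ENNReal) * ENNReal.ofReal (a * ρ ^ J) ^ d := by
              apply mul_le_mul_left
              exact_mod_cast hJ.1
          _ = ENNReal.ofReal (a ^ d * ((N J : ℝ) * (ρ ^ J) ^ d)) := by
              rw [ENNReal.ofReal_rpow_of_nonneg (by positivity) hd,
                Real.mul_rpow ha.le (by positivity), ← ENNReal.ofReal_natCast,
                ← ENNReal.ofReal_mul (Nat.cast_nonneg _)]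
              congr 1
              ring
      have ht : Tendsto (fun J => ENNReal.ofReal (a ^ d * ((N J : ℝ) * (ρ ^ J) ^ d))) atTop
          (𝓝 0) := by
        rw [← ENNReal.ofReal_zero]
        refine ENNReal.tendsto_ofReal ?_
        have := hN.const_mul (a ^ d)
        rwa [mul_zero] at this
      calc liminf (fun J => ∑ i : s J, Metric.ediam (i : Set ℂ) ^ d) atTop
          ≤ liminf (fun J => ENNReal.ofReal (a ^ d * ((N J : ℝ) * (ρ ^ J) ^ d))) atTop :=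
            liminf_le_liminf hb
        _ = 0 := ht.liminf_eq
        _ ≤ 0 := le_rfl
  have h0 : dimH S ≤ ((d.toNNReal : NNReal) : ENNReal) := by
    apply dimH_le_of_hausdorffMeasure_ne_top
    rw [Real.coe_toNNReal d hd, hzero]
    exact ENNReal.zero_ne_top
  exact h0

end K93U
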