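import Pool.Agent.K3h93.UR.Sys
import Pool.Agent.K3h93.UR.Cover

/-!
The dimension of a set which is uniformly modelled on `K`.
-/

namespace K93U

open H974 Finset H342P H984P H984N H443P H443U MeasureTheory Filter Topology

/-- `Y` is uniformly modelled on `K` at all scales below `1 / (N + 1)`. -/
def UMod (K : Set ℂ) (Λ M N : ℕ) (Y : Set ℂ) (κ : ℂ → ℂ) : Prop :=
  ∀ y ∈ Y, ∀ ρ : ℝ, 0 < ρ → ρ ≤ 1 / ((N:ℝ) + 1) → ∃ L : ℂ →L[ℝ] ℂ,
    (∀ z, ‖L z‖ ≤ Λ * ‖z‖) ∧ (∀ z, ‖z‖ ≤ Λ * ‖L z‖) ∧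
    ∀ y' ∈ Y, ‖y' - y‖ ≤ ρ → ∃ κ' ∈ K, ‖y' - y - L (κ' - κ y)‖ ≤ ρ / (64 * M)

theorem dp_lip (R : Rect) (x y : ℂ) : dp R y ≤ dp R x + ‖y - x‖ := by
  have h1 := Complex.abs_re_le_norm (y - x)
  have h2 := Complex.abs_im_le_norm (y - x)
  rw [Complex.sub_re, abs_le] at h1
  rw [Complex.sub_im, abs_le] at h2
  unfold dp
  have a1 := min_le_left (min (y.re + R.A) (R.B - y.re)) (min y.im (R.H - y.im))
  have a2 := min_le_right (min (y.re + R.A) (R.B - y.re)) (min y.im (R.H - y.im))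
  have a3 := min_le_left (y.re + R.A) (R.B - y.re)
  have a4 := min_le_right (y.re + R.A) (R.B - y.re)
  have a5 := min_le_left y.im (R.H - y.im)
  have a6 := min_le_right y.im (R.H - y.im)
  rw [← sub_le_iff_le_add]
  apply le_min <;> apply le_min <;> linarith

set_option maxRecDepth 8000 in
theorem det {R : Rect} {f : C(unitInterval, ℂ)} {K : Set ℂ} {C C2 γ ε : ℝ} {Λ k M N Z : ℕ}
    (hγ : 0 < γ) (hε : 0 < ε) (hΛ : 1 ≤ Λ) (hpar : Par C C2 γ ε Λ k M)
    (hfew : Few R K Λ M ⌈(M:ℝ) ^ (γ + ε)⌉₊ ε N Z f) {Y : Set ℂ} {κ : ℂ → ℂ}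
    (hY : Y ⊆ Set.range f) (hdp : ∀ y ∈ Y, 1 / ((N:ℝ) + 1) ≤ dp R y) {X0 : ℝ}
    (hX : ∀ y ∈ Y, ‖y‖ ≤ X0 ∧ ‖κ y‖ ≤ X0) (hZ : X0 / rs Λ M N 0 ≤ Z)
    (hsmall : ∀ y ∈ Y, ∀ y' ∈ Y, dist y y' ≤ 8 * M * rs Λ M N 0)
    (hmod : UMod K Λ M N Y κ) : dimH Y ≤ ENNReal.ofReal (γ + 6 * ε) := by
  classical
  have hM2 := hpar.two
  have hM : 1 ≤ M := by omega
  have hM0 : (0:ℝ) < M := by exact_mod_cast (by omega : 0 < M)
  have hM2' : (2:ℝ) ≤ M := by exact_mod_cast hM2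
  have hM1 : (1:ℝ) ≤ M := by linarith
  have hΛ' : (1:ℝ) ≤ Λ := by exact_mod_cast hΛ
  have hN0 : (0:ℝ) ≤ N := Nat.cast_nonneg N
  set G : ℕ := ⌈(M:ℝ) ^ (γ + ε)⌉₊ with hG
  choose rd hrd1 hrd2 hrd3 using exists_round
  have hr0 := fun j => rs_pos hΛ hM N j
  have hrsJ : ∀ J, rs Λ M N J = rs Λ M N 0 * (1 / (M:ℝ)) ^ J := by
    intro J
    unfold rs
    simp
  have h420 : ∀ j, 420 * (rs Λ M N j * M) ≤ 1 / ((N:ℝ) + 1) := by
    intro j
    have h2 := rs_bd hΛ hM N j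
    have h3 := hr0 j
    have : rs Λ M N j * M ≤ Λ * (rs Λ M N j * M) := le_mul_of_one_le_left (by positivity) hΛ'
    linarith
  -- labels
  have hlab : ∀ (J : ℕ) (z : ℂ), ‖z - xi Λ M N J (rd (z / (rs Λ M N J : ℂ)))‖ ≤ rs Λ M N J := by
    intro J z
    have hJ := hr0 J
    have hJ' : (rs Λ M N J : ℂ) ≠ 0 := by exact_mod_cast hJ.ne'
    have h1 := hrd1 (z / (rs Λ M N J : ℂ))
    have e : z - xi Λ M N J (rd (z / (rs Λ M N J : ℂ))) =
        (rs Λ M N J : ℂ) * (z / (rs Λ M N J : ℂ) - qc (rd (z / (rs Λ M N J : ℂ)))) := by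
      unfold xi
      field_simp
    rw [e, norm_mul, Complex.norm_real, Real.norm_eq_abs, abs_of_pos hJ]
    calc rs Λ M N J * ‖z / (rs Λ M N J : ℂ) - qc (rd (z / (rs Λ M N J : ℂ)))‖
        ≤ rs Λ M N J * 1 := mul_le_mul_of_nonneg_left h1 hJ.le
      _ = rs Λ M N J := mul_one _
  have hlabb : ∀ (J : ℕ) (z : ℂ), ‖z‖ ≤ X0 →
      b0 (rd (z / (rs Λ M N J : ℂ))) ≤ (Z * M ^ J : ℕ) := by
    intro J z hz
    have hJ := hr0 J
    have h1 : ‖z / (rs Λ M N J : ℂ)‖ ≤ Z * (M:ℝ) ^ J := by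
      rw [norm_div, Complex.norm_real, Real.norm_eq_abs, abs_of_pos hJ, div_le_iff₀ hJ, hrsJ J]
      rw [div_le_iff₀ (hr0 0)] at hZ
      have e : (Z:ℝ) * (M:ℝ) ^ J * (rs Λ M N 0 * (1 / (M:ℝ)) ^ J) = Z * rs Λ M N 0 := by
        rw [one_div, inv_pow]
        field_simp
      rw [e]
      linarith
    refine b0_le_of (a := Z * (M:ℝ) ^ J + 1 / 2) ((hrd2 _).trans (by linarith))
      ((hrd3 _).trans (by linarith)) ?_
    push_cast
    linarith
  set bad : ℕ → ℂ → ℕ → Prop := fun J y j =>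
    Bad f (xi Λ M N J (rd (y / (rs Λ M N J : ℂ)))) (rs Λ M N j)
      (qi K Λ M N J (rd (κ y / (rs Λ M N J : ℂ))) j) G with hbad
  set cell : ℕ → Set ℂ → Prop := fun j E => E ⊆ Y ∧ ∀ y ∈ E, ∀ y' ∈ E,
    dist y y' ≤ 8 * M * rs Λ M N j with hcell
  have hpiece : ∀ (j : ℕ) (E : Set ℂ) (z : ℂ), E ⊆ Y →
      cell (j + 1) (E ∩ Metric.closedBall z (rs Λ M N j)) ∧
        E ∩ Metric.closedBall z (rs Λ M N j) ⊆ E := by
    intro j E z hE
    refine ⟨⟨Set.inter_subset_left.trans hE, fun y hy y' hy' => ?_⟩, Set.inter_subset_left⟩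
    have h1 : dist y z ≤ rs Λ M N j := hy.2
    have h2 : dist y' z ≤ rs Λ M N j := hy'.2
    have h3 := dist_triangle y z y'
    rw [dist_comm z y'] at h3
    have h4 := rs_succ (Λ := Λ) hM N j
    have h5 := hr0 j
    have h6 : 8 * M * rs Λ M N (j + 1) = 8 * rs Λ M N j := by rw [← h4]; ring
    rw [h6]
    linarith
  have hcov : ∀ᶠ J : ℕ in atTop, ∃ s : Finset (Set ℂ),
      s.card ≤ ((20 * M + 1) ^ 2) ^ ⌈ε * J⌉₊ * (G + 6241) ^ J ∧ Y ⊆ ⋃₀ (s : Set (Set ℂ)) ∧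
      ∀ c ∈ s, cell J c := by
    filter_upwards [hfew] with J hJ
    refine tree J cell (bad J) (G := G + 6241) (M := (20 * M + 1) ^ 2) (by omega)
      (Nat.one_le_pow _ _ (by omega)) ?_ ?_ J 0 (by omega) Y ⟨le_rfl, hsmall⟩ ⌈ε * J⌉₊ ?_
    · rintro j hj E ⟨hE1, hE2⟩ ⟨y0, hy0, hb⟩
      have hJj : rs Λ M N J ≤ rs Λ M N j := rs_le hM N hj.le
      have hj0 := hr0 j
      obtain ⟨L, hL1, hL2, hL3⟩ := hmod y0 (hE1 hy0) (8 * M * rs Λ M N j) (by positivity)
        (by have := h420 j; have := mul_pos hj0 hM0; linarith)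
      obtain ⟨Q, hQ1, hQ2⟩ := cover_one (K := K) hΛ hM hj0
        (x := xi Λ M N J (rd (y0 / (rs Λ M N J : ℂ)))) (y0 := y0)
        (k := xi Λ M N J (rd (κ y0 / (rs Λ M N J : ℂ)))) (κ0 := κ y0)
        ((hlab J y0).trans hJj) (by rw [norm_sub_rev]; exact (hlab J (κ y0)).trans hJj) L hL1 hL2
      set x := xi Λ M N J (rd (y0 / (rs Λ M N J : ℂ))) with hx
      have hcnt : cnt f x (rs Λ M N j) Q < G := by
        by_contra hcon
        exact hb ⟨Q, hQ1, not_lt.mp hcon⟩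
      obtain ⟨S0, hS0⟩ : ∃ S0 : Finset (ℤ × ℤ), S0 = bx 39 ∪
        Q.filter (fun q => Nr f (gp x (rs Λ M N j) q) (4 * rs Λ M N j)) := ⟨_, rfl⟩
      refine ⟨S0.image (fun q => E ∩ Metric.closedBall (gp x (rs Λ M N j) q) (rs Λ M N j)),
        ?_, ?_, ?_⟩
      · rw [hS0]
        refine Finset.card_image_le.trans ((Finset.card_union_le _ _).trans ?_)
        rw [card_bx]
        have : (Q.filter (fun q => Nr f (gp x (rs Λ M N j) q) (4 * rs Λ M N j))).card =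
            cnt f x (rs Λ M N j) Q := by
          unfold cnt
          congr
        rw [this]
        omega
      · intro y hy
        obtain ⟨q, hq1, hq2, hq3⟩ := hQ2 y (by
            have := hE2 y hy y0 hy0
            rwa [dist_eq_norm] at this) (by
            obtain ⟨κ', h1, h2⟩ := hL3 y (hE1 hy) (by
              have := hE2 y hy y0 hy0
              rwa [dist_eq_norm] at this)
            refine ⟨κ', h1, h2.trans (le_of_eq ?_)⟩
            field_simp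
            norm_num)
        refine ⟨E ∩ Metric.closedBall (gp x (rs Λ M N j) q) (rs Λ M N j), ?_, hy, ?_⟩
        · refine Finset.mem_image.mpr ⟨q, ?_, rfl⟩
          rw [hS0]
          rcases le_or_gt (b0 q) 39 with h | h
          · have h' : q ∈ bx 39 := (mem_bx (A := 39) (q := q)).mpr (by push_cast; exact h)
            exact Finset.mem_union_left _ h'
          · refine Finset.mem_union_right _ (Finset.mem_filter.mpr ⟨hq3 (by omega), ?_⟩)
            obtain ⟨t, ht⟩ := hY (hE1 hy)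
            refine ⟨t, ?_⟩
            rw [ht, dist_eq_norm]
            linarith
        · rw [Metric.mem_closedBall, dist_eq_norm]
          exact hq2
      · intro c hc
        obtain ⟨q, -, rfl⟩ := Finset.mem_image.mp hc
        exact hpiece j E _ hE1
    · rintro j hj E ⟨hE1, hE2⟩ ⟨y0, hy0⟩
      have hj0 := hr0 j
      have hj0' : (rs Λ M N j : ℂ) ≠ 0 := by exact_mod_cast hj0.ne'
      refine ⟨((bx (10 * M)).image
        (fun q => E ∩ Metric.closedBall (gp y0 (rs Λ M N j) q) (rs Λ M N j))), ?_, ?_, ?_⟩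
      · refine Finset.card_image_le.trans ?_
        rw [card_bx]
        exact Nat.pow_le_pow_left (by omega) 2
      · intro y hy
        set q := rd ((y - y0) / (rs Λ M N j : ℂ)) with hq
        have hd : ‖y - y0‖ ≤ 8 * M * rs Λ M N j := by
          have := hE2 y hy y0 hy0
          rwa [dist_eq_norm] at this
        have hn : ‖(y - y0) / (rs Λ M N j : ℂ)‖ ≤ 8 * M := by
          rw [norm_div, Complex.norm_real, Real.norm_eq_abs, abs_of_pos hj0, div_le_iff₀ hj0]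
          exact hd
        refine ⟨E ∩ Metric.closedBall (gp y0 (rs Λ M N j) q) (rs Λ M N j), ?_, hy, ?_⟩
        · refine Finset.mem_image.mpr ⟨q, mem_bx.mpr ?_, rfl⟩
          refine b0_le_of (a := 8 * M + 1 / 2) ((hrd2 _).trans (by linarith))
            ((hrd3 _).trans (by linarith)) ?_
          push_cast
          linarith
        · rw [Metric.mem_closedBall, dist_eq_norm, gp_eq]
          have e : y - (y0 + (rs Λ M N j : ℂ) * qc q) =
              (rs Λ M N j : ℂ) * ((y - y0) / (rs Λ M N j : ℂ) - qc q) := by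
            field_simp
            ring
          rw [e, norm_mul, Complex.norm_real, Real.norm_eq_abs, abs_of_pos hj0]
          calc rs Λ M N j * ‖(y - y0) / (rs Λ M N j : ℂ) - qc q‖ ≤ rs Λ M N j * 1 :=
                mul_le_mul_of_nonneg_left (hrd1 _) hj0.le
            _ = rs Λ M N j := mul_one _
      · intro c hc
        obtain ⟨q, -, rfl⟩ := Finset.mem_image.mp hc
        exact hpiece j E _ hE1
    · intro y hy
      have h1 := hJ (rd (y / (rs Λ M N J : ℂ))) (rd (κ y / (rs Λ M N J : ℂ)))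
        (hlabb J y (hX y hy).1) (hlabb J (κ y) (hX y hy).2) (by
          have h2 := dp_lip R (xi Λ M N J (rd (y / (rs Λ M N J : ℂ)))) y
          have h3 := hlab J y
          have h4 := hdp y hy
          have h5 := h420 J
          have h6 := hr0 J
          have h7 : (1:ℝ) / (2 * (N + 1)) = 1 / 2 * (1 / (N + 1)) := by field_simp
          have h8 : rs Λ M N J ≤ rs Λ M N J * M := le_mul_of_one_le_right h6.le hM1
          rw [h7]
          linarith)
      have h9 : nbd (bad J) y 0 J = nbad f (xi Λ M N J (rd (y / (rs Λ M N J : ℂ)))) (rs Λ M N)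
          (qi K Λ M N J (rd (κ y / (rs Λ M N J : ℂ)))) G J := by
        unfold nbd nbad nP
        rw [← Finset.range_eq_Ico]
      rw [h9]
      exact h1.le
  refine dim_of_cover (ρ := 1 / (M:ℝ)) (by positivity) (by
      rw [div_lt_one hM0]; linarith) (a := 8 * M * rs Λ M N 0) (by have := hr0 0; positivity)
    (by positivity) (fun J => ((20 * M + 1) ^ 2) ^ ⌈ε * J⌉₊ * (G + 6241) ^ J) ?_ ?_
  · have hup : ∀ J : ℕ, ((((20 * M + 1) ^ 2) ^ ⌈ε * J⌉₊ * (G + 6241) ^ J : ℕ) : ℝ) *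
        ((1 / (M:ℝ)) ^ J) ^ (γ + 6 * ε) ≤ (M:ℝ) ^ (3:ℝ) * ((M:ℝ) ^ (-ε)) ^ J := by
      intro J
      have b1 : ((((20 * M + 1) ^ 2) ^ ⌈ε * J⌉₊ : ℕ) : ℝ) ≤ (M:ℝ) ^ (3 * (ε * J + 1)) := by
        push_cast
        have h1 := hpar.bd
        push_cast at h1
        have h2 : ((20 * (M:ℝ) + 1) ^ 2) ^ ⌈ε * J⌉₊ ≤ ((M:ℝ) ^ (3:ℝ)) ^ ⌈ε * J⌉₊ :=
          pow_le_pow_left₀ (by positivity) h1 _
        refine h2.trans ?_
        rw [← Real.rpow_natCast, ← Real.rpow_mul hM0.le]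
        apply Real.rpow_le_rpow_of_exponent_le hM1
        have h3 : (⌈ε * J⌉₊ : ℝ) < ε * J + 1 := Nat.ceil_lt_add_one (by positivity)
        linarith
      have b2 : (((G + 6241) ^ J : ℕ) : ℝ) ≤ (M:ℝ) ^ ((γ + 2 * ε) * J) := by
        have h1 := hpar.gd
        rw [Nat.cast_pow]
        refine (pow_le_pow_left₀ (Nat.cast_nonneg _) h1 J).trans (le_of_eq ?_)
        rw [← Real.rpow_natCast, ← Real.rpow_mul hM0.le]
      have b3 : ((1 / (M:ℝ)) ^ J) ^ (γ + 6 * ε) = (M:ℝ) ^ (-(J * (γ + 6 * ε))) := by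
        rw [one_div, inv_pow, Real.inv_rpow (by positivity), ← Real.rpow_natCast,
          ← Real.rpow_mul hM0.le, Real.rpow_neg hM0.le]
      rw [Nat.cast_mul, b3]
      calc ((((20 * M + 1) ^ 2) ^ ⌈ε * J⌉₊ : ℕ) : ℝ) * (((G + 6241) ^ J : ℕ) : ℝ) *
            (M:ℝ) ^ (-(J * (γ + 6 * ε)))
          ≤ (M:ℝ) ^ (3 * (ε * J + 1)) * (M:ℝ) ^ ((γ + 2 * ε) * J) *
            (M:ℝ) ^ (-(J * (γ + 6 * ε))) := by
            apply mul_le_mul_of_nonneg_right _ (by positivity)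
            exact mul_le_mul b1 b2 (Nat.cast_nonneg _) (by positivity)
        _ = (M:ℝ) ^ (3:ℝ) * ((M:ℝ) ^ (-ε)) ^ J := by
            rw [← Real.rpow_add hM0, ← Real.rpow_add hM0, ← Real.rpow_natCast ((M:ℝ) ^ (-ε)),
              ← Real.rpow_mul hM0.le, ← Real.rpow_add hM0]
            congr 1
            ring
    have hlim : Tendsto (fun J : ℕ => (M:ℝ) ^ (3:ℝ) * ((M:ℝ) ^ (-ε)) ^ J) atTop (𝓝 0) := by
      have h1 : (M:ℝ) ^ (-ε) < 1 := Real.rpow_lt_one_of_one_lt_of_neg (by linarith) (by linarith)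
      have := (tendsto_pow_atTop_nhds_zero_of_lt_one (by positivity) h1).const_mul ((M:ℝ) ^ (3:ℝ))
      rwa [mul_zero] at this
    exact squeeze_zero (fun J => by positivity) hup hlim
  · filter_upwards [hcov] with J hJ
    obtain ⟨s, h1, h2, h3⟩ := hJ
    refine ⟨s, h1, h2, fun c hc x hx y hy => ?_⟩
    refine ((h3 c hc).2 x hx y hy).trans (le_of_eq ?_)
    rw [hrsJ J]
    ring

end K93U
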