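import Pool.Agent.K3h93.UR.Config

/-!
The families of configurations coming from all the linear images of a set.
-/

namespace K93U

open H974 Finset H342P H984P H984N H443P H443U

/-- A box of `ℤ × ℤ`. -/
noncomputable def bx (A : ℕ) : Finset (ℤ × ℤ) := (Finset.Icc (-(A:ℤ)) A) ×ˢ (Finset.Icc (-(A:ℤ)) A)

theorem mem_bx {A : ℕ} {q : ℤ × ℤ} : q ∈ bx A ↔ b0 q ≤ A := by
  unfold bx b0 H443U.sd
  rw [Finset.mem_product, Finset.mem_Icc, Finset.mem_Icc, max_le_iff, abs_le, abs_le]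
  simp only [sub_zero]

theorem card_bx (A : ℕ) : (bx A).card = (2 * A + 1) ^ 2 := by
  unfold bx
  rw [Finset.card_product, Int.card_Icc, sq]
  congr 1 <;> omega

theorem b0_le_of {q : ℤ × ℤ} {a : ℝ} {A : ℕ} (h1 : |(q.1 : ℝ)| ≤ a) (h2 : |(q.2 : ℝ)| ≤ a)
    (h : a < A + 1) : b0 q ≤ A := by
  unfold b0 H443U.sd
  simp only [sub_zero]
  have g : ∀ n : ℤ, |(n:ℝ)| ≤ a → |n| ≤ A := by
    intro n hn
    have h3 : ((|n| : ℤ) : ℝ) < ((A + 1 : ℤ) : ℝ) := by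
      push_cast
      linarith
    have h4 : |n| < (A:ℤ) + 1 := by exact_mod_cast h3
    omega
  exact max_le (g _ h1) (g _ h2)

open Classical in
/-- The family of configurations seen from `k`. -/
noncomputable def fam (K : Set ℂ) (Λ M : ℕ) (r : ℝ) (k : ℂ) : Finset (Finset (ℤ × ℤ)) :=
  (((bx ((Λ + 1) * (60 * Λ * M)) ×ˢ bx ((Λ + 1) * (60 * Λ * M))) ×ˢ bx (Λ + 3)).filter
    (fun p => Bil Λ (qc p.1.1 / (60 * Λ * M : ℕ)) (qc p.1.2 / (60 * Λ * M : ℕ)))).image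
    (fun p => cf K (10 * Λ * M * r) r (10 * M) k (qc p.1.1 / (60 * Λ * M : ℕ))
      (qc p.1.2 / (60 * Λ * M : ℕ)) (qc p.2))

/-- The bound for the number of configurations. -/
def qM (Λ M : ℕ) : ℕ := (241 * Λ ^ 2 * M) ^ 4 * (9 * Λ) ^ 2

theorem fam_card (K : Set ℂ) {Λ M : ℕ} (hΛ : 1 ≤ Λ) (hM : 1 ≤ M) (r : ℝ) (k : ℂ) :
    (fam K Λ M r k).card ≤ qM Λ M := by
  classical
  unfold fam
  refine Finset.card_image_le.trans ((Finset.card_filter_le _ _).trans ?_)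
  rw [Finset.card_product, Finset.card_product, card_bx, card_bx]
  unfold qM
  apply Nat.mul_le_mul
  · have h1 : 2 * ((Λ + 1) * (60 * Λ * M)) + 1 ≤ 241 * Λ ^ 2 * M := by
      have h2 : Λ * M ≤ Λ ^ 2 * M := by
        apply Nat.mul_le_mul_right
        nlinarith
      have h3 : 1 ≤ Λ * M := Nat.one_le_iff_ne_zero.mpr (by positivity)
      nlinarith
    calc (2 * ((Λ + 1) * (60 * Λ * M)) + 1) ^ 2 * (2 * ((Λ + 1) * (60 * Λ * M)) + 1) ^ 2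
        = (2 * ((Λ + 1) * (60 * Λ * M)) + 1) ^ 4 := by ring
      _ ≤ (241 * Λ ^ 2 * M) ^ 4 := Nat.pow_le_pow_left h1 4
  · exact Nat.pow_le_pow_left (by omega) 2

theorem mem_fam {K : Set ℂ} {Λ M : ℕ} {r : ℝ} {k : ℂ} {Q : Finset (ℤ × ℤ)} :
    Q ∈ fam K Λ M r k ↔ ∃ a b v : ℤ × ℤ, b0 a ≤ ((Λ + 1) * (60 * Λ * M) : ℕ) ∧
      b0 b ≤ ((Λ + 1) * (60 * Λ * M) : ℕ) ∧ b0 v ≤ (Λ + 3 : ℕ) ∧
      Bil Λ (qc a / (60 * Λ * M : ℕ)) (qc b / (60 * Λ * M : ℕ)) ∧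
      cf K (10 * Λ * M * r) r (10 * M) k (qc a / (60 * Λ * M : ℕ))
        (qc b / (60 * Λ * M : ℕ)) (qc v) = Q := by
  classical
  unfold fam
  rw [Finset.mem_image]
  constructor
  · rintro ⟨⟨⟨a, b⟩, v⟩, h1, h2⟩
    rw [Finset.mem_filter, Finset.mem_product, Finset.mem_product, mem_bx, mem_bx, mem_bx] at h1
    exact ⟨a, b, v, h1.1.1.1, h1.1.1.2, h1.1.2, h1.2, h2⟩
  · rintro ⟨a, b, v, h1, h2, h3, h4, h5⟩
    refine ⟨⟨⟨a, b⟩, v⟩, ?_, h5⟩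
    rw [Finset.mem_filter, Finset.mem_product, Finset.mem_product, mem_bx, mem_bx, mem_bx]
    exact ⟨⟨⟨h1, h2⟩, h3⟩, h4⟩

/-- The families have small sums. -/
theorem fam_ok {K : Set ℂ} {s : ℝ} (hs : 1 / 4 < s) (hK : Hom K s) {Λ : ℕ} (hΛ : 1 ≤ Λ) :
    ∃ C2 : ℝ, 0 < C2 ∧ ∀ (M : ℕ) (r : ℝ) (k : ℂ), 1 ≤ M → 0 < r → 420 * Λ * r * M ≤ 1 →
      OkF (fam K Λ M r k) 20 (10 * M) (C2 * (M : ℝ) ^ (s - 1 / 4)) := by
  obtain ⟨CK0, hK0⟩ := hK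
  obtain ⟨C1, hC1, hsum⟩ := cf_sums hs
  set CK : ℝ := |CK0| + 1 with hCK
  have hCK0 : 0 < CK := by positivity
  have hΛ' : (1:ℝ) ≤ Λ := by exact_mod_cast hΛ
  have hK1 : ∀ (z : ℂ) (ρ R : ℝ), 0 < ρ → ρ ≤ R → R ≤ 1 →
      ∃ t : Finset ℂ, (t.card : ℝ) ≤ CK * (R / ρ) ^ s ∧
        K ∩ Metric.ball z R ⊆ ⋃ y ∈ t, Metric.ball y ρ := by
    intro z ρ R h1 h2 h3
    obtain ⟨t, h4, h5⟩ := hK0 z ρ R h1 h2 h3
    refine ⟨t, h4.trans ?_, h5⟩
    apply mul_le_mul_of_nonneg_right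
    · have := le_abs_self CK0
      linarith
    · have : 0 ≤ R / ρ := div_nonneg (h1.le.trans h2) h1.le
      positivity
  set B : ℝ := 289 * CK * (42 * (Λ:ℝ) ^ 2) ^ s with hB
  have hB0 : 0 < B := by positivity
  refine ⟨C1 * B * 40 ^ (s - 1 / 4), by positivity, ?_⟩
  intro M r k hM hr hMr Q hQ
  have hM' : (1:ℝ) ≤ M := by exact_mod_cast hM
  obtain ⟨a, b, v, -, -, -, h4, rfl⟩ := mem_fam.mp hQ
  have hg := cf_gr (K := K) (s := s) (CK := CK) (by linarith) hCK0.le hK1 (Λ := Λ) hΛ'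
    (a := 10 * Λ * M * r) (r := r) hr (W := 10 * M) (by omega) (by push_cast; linarith)
    (k := k) (v := qc v) h4
  have hb : ∀ q ∈ cf K (10 * Λ * M * r) r (10 * M) k (qc a / (60 * Λ * M : ℕ))
        (qc b / (60 * Λ * M : ℕ)) (qc v), b0 q ≤ (10 * M : ℕ) := fun q hq => (mem_cf.mp hq).1.1
  have e : C1 * B * (4 * ((10 * M : ℕ) : ℝ)) ^ (s - 1 / 4) =
      C1 * B * 40 ^ (s - 1 / 4) * (M : ℝ) ^ (s - 1 / 4) := by
    push_cast
    rw [show (4:ℝ) * (10 * M) = 40 * M by ring, Real.mul_rpow (by norm_num) (by positivity)]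
    ring
  have h5 := hsum _ B hB0.le hg (10 * M) (by omega) hb
  rw [e] at h5
  refine ⟨fun q hq => ?_, h5.1, h5.2⟩
  have h6 := mem_cf.mp hq
  exact ⟨by push_cast; exact h6.1.2, h6.1.1⟩

/-- Covering by the balls of one configuration of the family. -/
theorem cover_one {K : Set ℂ} {Λ M : ℕ} (hΛ : 1 ≤ Λ) (hM : 1 ≤ M) {r : ℝ} (hr : 0 < r)
    {x y0 k κ0 : ℂ} (hx : ‖y0 - x‖ ≤ r) (hk : ‖k - κ0‖ ≤ r) (L : ℂ →L[ℝ] ℂ)
    (hL1 : ∀ z, ‖L z‖ ≤ Λ * ‖z‖) (hL2 : ∀ z, ‖z‖ ≤ Λ * ‖L z‖) :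
    ∃ Q ∈ fam K Λ M r k, ∀ y : ℂ, ‖y - y0‖ ≤ 8 * M * r →
      (∃ κ' ∈ K, ‖y - y0 - L (κ' - κ0)‖ ≤ r / 8) →
      ∃ q : ℤ × ℤ, b0 q ≤ (10 * M : ℕ) ∧ ‖y - gp x r q‖ ≤ r ∧ (40 ≤ b0 q → q ∈ Q) := by
  have hΛ' : (1:ℝ) ≤ Λ := by exact_mod_cast hΛ
  have hM' : (1:ℝ) ≤ M := by exact_mod_cast hM
  obtain ⟨m, hm⟩ : ∃ m : ℕ, m = 60 * Λ * M := ⟨_, rfl⟩
  have hmR : (m:ℝ) = 60 * Λ * M := by rw [hm]; push_cast; ring
  have hΛM : (1:ℝ) ≤ Λ * M := by nlinarith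
  have hm60 : (60:ℝ) ≤ m := by rw [hmR]; nlinarith
  have hm0 : (0:ℝ) < m := by linarith
  have hr' : (r : ℂ) ≠ 0 := by exact_mod_cast hr.ne'
  have hmC : (m : ℂ) ≠ 0 := by exact_mod_cast hm0.ne'
  -- approximation of a coefficient
  have coef : ∀ c : ℂ, ‖c‖ ≤ Λ → ∃ a : ℤ × ℤ, b0 a ≤ ((Λ + 1) * (60 * Λ * M) : ℕ) ∧
      ‖c - qc a / (m : ℕ)‖ ≤ 1 / m := by
    intro c hc
    obtain ⟨a, h1, h2, h3⟩ := exists_round ((m:ℂ) * c)
    have hn : ‖(m:ℂ) * c‖ ≤ m * Λ := by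
      rw [norm_mul, Complex.norm_natCast]
      exact mul_le_mul_of_nonneg_left hc hm0.le
    refine ⟨a, b0_le_of (h2.trans (add_le_add hn le_rfl)) (h3.trans (add_le_add hn le_rfl)) ?_, ?_⟩
    · rw [← hm]
      push_cast
      nlinarith
    · have e : c - qc a / (m : ℕ) = ((m:ℂ) * c - qc a) / m := by field_simp
      rw [e, norm_div, Complex.norm_natCast]
      exact div_le_div_of_nonneg_right h1 hm0.le
  have hα : ‖L 1‖ ≤ Λ := by
    have := hL1 1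
    rwa [norm_one, mul_one] at this
  have hβ : ‖L Complex.I‖ ≤ Λ := by
    have := hL1 Complex.I
    rwa [Complex.norm_I, mul_one] at this
  obtain ⟨a, ha1, ha2⟩ := coef _ hα
  obtain ⟨b, hb1, hb2⟩ := coef _ hβ
  have hdiff : ∀ z, ‖L z - lin (qc a / (m:ℕ)) (qc b / (m:ℕ)) z‖ ≤ 2 * (1 / m) * ‖z‖ := by
    intro z
    rw [lin_of L z]
    exact lin_diff _ _ _ _ z ha2 hb2
  have h2m : Λ * (2 * (1 / (m:ℝ))) ≤ 1 / 30 := by
    rw [hmR]
    have e : (Λ:ℝ) * (2 * (1 / (60 * Λ * M))) = 1 / (30 * M) := by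
      have : (Λ:ℝ) ≠ 0 := by positivity
      have : (M:ℝ) ≠ 0 := by positivity
      field_simp
      norm_num
    rw [e]
    apply one_div_le_one_div_of_le (by norm_num)
    linarith
  have h2m' : 2 * (1 / (m:ℝ)) ≤ 1 / 30 := by
    have : 0 ≤ 2 * (1 / (m:ℝ)) := by positivity
    nlinarith
  have hbil : Bil Λ (qc a / (m:ℕ)) (qc b / (m:ℕ)) := by
    intro z
    have h1 := hdiff z
    have hz := norm_nonneg z
    have hl := norm_nonneg (lin (qc a / (m:ℕ)) (qc b / (m:ℕ)) z)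
    constructor
    · have h2 : ‖L z‖ ≤ ‖lin (qc a / (m:ℕ)) (qc b / (m:ℕ)) z‖ + 2 * (1 / m) * ‖z‖ := by
        have := norm_sub_norm_le (L z) (lin (qc a / (m:ℕ)) (qc b / (m:ℕ)) z)
        linarith
      have h3 := hL2 z
      have h4 : (Λ:ℝ) * ‖L z‖ ≤ Λ * ‖lin (qc a / (m:ℕ)) (qc b / (m:ℕ)) z‖ +
          Λ * (2 * (1 / m)) * ‖z‖ := by
        have := mul_le_mul_of_nonneg_left h2 (by linarith : (0:ℝ) ≤ Λ)
        linarith
      have h5 : Λ * (2 * (1 / (m:ℝ))) * ‖z‖ ≤ 1 / 30 * ‖z‖ := mul_le_mul_of_nonneg_right h2m hz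
      nlinarith
    · have h2 : ‖lin (qc a / (m:ℕ)) (qc b / (m:ℕ)) z‖ ≤ ‖L z‖ + 2 * (1 / m) * ‖z‖ := by
        have := norm_sub_norm_le (lin (qc a / (m:ℕ)) (qc b / (m:ℕ)) z) (L z)
        rw [norm_sub_rev] at this
        linarith
      have h3 := hL1 z
      have h5 : 2 * (1 / (m:ℝ)) * ‖z‖ ≤ 1 / 30 * ‖z‖ := mul_le_mul_of_nonneg_right h2m' hz
      nlinarith
  set v0 : ℂ := (y0 - x) / r + L (k - κ0) / r with hv0
  have hv0n : ‖v0‖ ≤ Λ + 1 := by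
    have h1 : ‖(y0 - x) / (r:ℂ)‖ ≤ 1 := by
      rw [norm_div, Complex.norm_real, Real.norm_eq_abs, abs_of_pos hr, div_le_one hr]
      exact hx
    have h2 : ‖L (k - κ0) / (r:ℂ)‖ ≤ Λ := by
      rw [norm_div, Complex.norm_real, Real.norm_eq_abs, abs_of_pos hr, div_le_iff₀ hr]
      exact (hL1 _).trans (mul_le_mul_of_nonneg_left hk (by linarith))
    have := norm_add_le ((y0 - x) / (r:ℂ)) (L (k - κ0) / (r:ℂ))
    linarith
  obtain ⟨v, hv1, hv2, hv3⟩ := exists_round v0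
  have hvb : b0 v ≤ (Λ + 3 : ℕ) := by
    refine b0_le_of (a := Λ + 3 / 2) (by linarith) (by linarith) ?_
    push_cast
    linarith
  refine ⟨cf K (10 * Λ * M * r) r (10 * M) k (qc a / (60 * Λ * M : ℕ))
      (qc b / (60 * Λ * M : ℕ)) (qc v), mem_fam.mpr ⟨a, b, v, ha1, hb1, hvb, ?_, rfl⟩, ?_⟩
  · rw [← hm]; exact hbil
  intro y hy ⟨κ', hκ', hyκ⟩
  obtain ⟨q, hq1, hq2, hq3⟩ := exists_round ((y - x) / (r:ℂ))
  have hn : ‖(y - x) / (r:ℂ)‖ ≤ 8 * M + 1 := by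
    rw [norm_div, Complex.norm_real, Real.norm_eq_abs, abs_of_pos hr, div_le_iff₀ hr]
    have : ‖y - x‖ ≤ ‖y - y0‖ + ‖y0 - x‖ := by
      have := norm_add_le (y - y0) (y0 - x)
      rwa [sub_add_sub_cancel] at this
    linarith
  have hqb : b0 q ≤ (10 * M : ℕ) := by
    refine b0_le_of (a := 8 * M + 3 / 2) (by linarith) (by linarith) ?_
    push_cast
    linarith
  refine ⟨q, hqb, ?_, fun h40 => ?_⟩
  · rw [gp_eq]
    have e : y - (x + r * qc q) = r * ((y - x) / r - qc q) := by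
      field_simp
      ring
    rw [e, norm_mul, Complex.norm_real, Real.norm_eq_abs, abs_of_pos hr]
    calc r * ‖(y - x) / (r:ℂ) - qc q‖ ≤ r * 1 := mul_le_mul_of_nonneg_left hq1 hr.le
      _ = r := mul_one r
  · rw [← hm]
    refine mem_cf.mpr ⟨⟨hqb, h40⟩, κ', hκ', ?_, ?_⟩
    · have h1 : ‖L (κ' - κ0)‖ ≤ ‖y - y0‖ + ‖y - y0 - L (κ' - κ0)‖ := by
        have := norm_sub_le (y - y0) (y - y0 - L (κ' - κ0))
        rwa [sub_sub_cancel] at this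
      have h2 := hL2 (κ' - κ0)
      have h3 : ‖κ' - κ0‖ ≤ Λ * (8 * M * r + r / 8) :=
        h2.trans (mul_le_mul_of_nonneg_left (by linarith) (by linarith))
      have h4 : ‖κ' - k‖ ≤ ‖κ' - κ0‖ + ‖k - κ0‖ := by
        have := norm_sub_le (κ' - κ0) (k - κ0)
        rwa [sub_sub_sub_cancel_right] at this
      have h5 : 0 < Λ * r := by positivity
      have h6 : Λ * r ≤ Λ * r * M := le_mul_of_one_le_right h5.le hM'
      have h7 : r ≤ Λ * r := le_mul_of_one_le_left hr.le hΛ'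
      nlinarith
    · have hκk : ‖κ' - k‖ ≤ 10 * Λ * M * r := by
        have h1 : ‖L (κ' - κ0)‖ ≤ ‖y - y0‖ + ‖y - y0 - L (κ' - κ0)‖ := by
          have := norm_sub_le (y - y0) (y - y0 - L (κ' - κ0))
          rwa [sub_sub_cancel] at this
        have h2 := hL2 (κ' - κ0)
        have h3 : ‖κ' - κ0‖ ≤ Λ * (8 * M * r + r / 8) :=
          h2.trans (mul_le_mul_of_nonneg_left (by linarith) (by linarith))
        have h4 : ‖κ' - k‖ ≤ ‖κ' - κ0‖ + ‖k - κ0‖ := by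
          have := norm_sub_le (κ' - κ0) (k - κ0)
          rwa [sub_sub_sub_cancel_right] at this
        have h5 : 0 < Λ * r := by positivity
        have h6 : Λ * r ≤ Λ * r * M := le_mul_of_one_le_right h5.le hM'
        have h7 : r ≤ Λ * r := le_mul_of_one_le_left hr.le hΛ'
        nlinarith
      have t1 : ‖qc q - (y - x) / (r:ℂ)‖ ≤ 1 := by rw [norm_sub_rev]; exact hq1
      have t2 : ‖(y - y0 - L (κ' - κ0)) / (r:ℂ)‖ ≤ 1 / 8 := by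
        rw [norm_div, Complex.norm_real, Real.norm_eq_abs, abs_of_pos hr, div_le_iff₀ hr]
        linarith
      have t4 : ‖(L (κ' - k) - lin (qc a / (m:ℕ)) (qc b / (m:ℕ)) (κ' - k)) / (r:ℂ)‖ ≤ 1 / 3 := by
        rw [norm_div, Complex.norm_real, Real.norm_eq_abs, abs_of_pos hr, div_le_iff₀ hr]
        refine (hdiff _).trans ?_
        calc 2 * (1 / (m:ℝ)) * ‖κ' - k‖ ≤ 2 * (1 / (m:ℝ)) * (10 * Λ * M * r) :=
              mul_le_mul_of_nonneg_left hκk (by positivity)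
          _ = 1 / 3 * r := by
              rw [hmR]
              have h1 : (Λ:ℝ) ≠ 0 := by positivity
              have h2 : (M:ℝ) ≠ 0 := by positivity
              field_simp
              norm_num
      have e : qc q - qc v - lin (qc a / (m:ℕ)) (qc b / (m:ℕ)) (κ' - k) / (r:ℂ) =
          (qc q - (y - x) / (r:ℂ)) + (y - y0 - L (κ' - κ0)) / (r:ℂ) + (v0 - qc v) +
          (L (κ' - k) - lin (qc a / (m:ℕ)) (qc b / (m:ℕ)) (κ' - k)) / (r:ℂ) := by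
        have e1 : L (κ' - κ0) = L (κ' - k) + L (k - κ0) := by
          rw [← map_add, sub_add_sub_cancel]
        rw [hv0, e1]
        field_simp
        ring
      rw [e]
      have n1 := norm_add_le ((qc q - (y - x) / (r:ℂ)) + (y - y0 - L (κ' - κ0)) / (r:ℂ) +
        (v0 - qc v)) ((L (κ' - k) - lin (qc a / (m:ℕ)) (qc b / (m:ℕ)) (κ' - k)) / (r:ℂ))
      have n2 := norm_add_le ((qc q - (y - x) / (r:ℂ)) + (y - y0 - L (κ' - κ0)) / (r:ℂ))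
        (v0 - qc v)
      have n3 := norm_add_le (qc q - (y - x) / (r:ℂ)) ((y - y0 - L (κ' - κ0)) / (r:ℂ))
      linarith

end K93U
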