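import Pool.Agent.K3h93.UR.KPt2

/-!
Sums over configurations with polynomial growth.
-/

namespace K93U

open H974 Finset H342P H984P H984N H443P H443U

/-- Growth of order `a`. -/
def Gr (Q : Finset (ℤ × ℤ)) (B a : ℝ) : Prop :=
  ∀ (u : ℤ × ℤ) (t : ℕ), 1 ≤ t →
    ((Q.filter (fun v => H443U.sd v u ≤ t)).card : ℝ) ≤ B * (t : ℝ) ^ a

theorem w_pow_le {m : ℤ} {i : ℕ} (h : (2 ^ i : ℤ) ≤ m) : w m ≤ ((2 : ℝ) ^ (-(1/4) : ℝ)) ^ i := by
  have h1 := Sum.w_anti h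
  refine h1.trans (le_of_eq ?_)
  have h2 : (0 : ℤ) < 2 ^ i := by positivity
  unfold w
  rw [if_neg (by omega)]
  push_cast
  rw [← Real.rpow_natCast ((2:ℝ) ^ (-(1/4) : ℝ)), ← Real.rpow_natCast (2:ℝ),
    ← Real.rpow_mul (by norm_num), ← Real.rpow_mul (by norm_num)]
  ring_nf

theorem gr_sum {a : ℝ} {p : ℕ} (hγ : (p : ℝ) / 4 < a) : ∃ C1 : ℝ, 1 ≤ C1 ∧
    ∀ (Q : Finset (ℤ × ℤ)) (B : ℝ), 0 ≤ B → Gr Q B a → ∀ (u : ℤ × ℤ) (n : ℕ),
      ∑ v ∈ Q.filter (fun v => H443U.sd v u ≤ 2 ^ n), w (H443U.sd v u) ^ p ≤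
        C1 * B * ((2:ℝ) ^ n) ^ (a - p / 4) := by
  set lam : ℝ := (2:ℝ) ^ (a - p / 4) with hlam
  have hlam1 : 1 < lam := by
    rw [hlam]
    exact Real.one_lt_rpow (by norm_num) (by linarith)
  have h2a : (0:ℝ) < (2:ℝ) ^ a := Real.rpow_pos_of_pos (by norm_num) _
  have hq : 0 ≤ (2:ℝ) ^ a / (lam - 1) := by
    have : 0 < lam - 1 := by linarith
    positivity
  refine ⟨1 + (2:ℝ) ^ a / (lam - 1), by linarith, ?_⟩
  intro Q B hB hQ u n
  have e : ∀ n : ℕ, ((2:ℝ) ^ n) ^ (a - p / 4) = lam ^ n := by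
    intro n
    rw [hlam, ← Real.rpow_natCast, ← Real.rpow_mul (by norm_num), ← Real.rpow_natCast,
      ← Real.rpow_mul (by norm_num)]
    ring_nf
  rw [e]
  induction n with
  | zero =>
    have h1 := hQ u 1 le_rfl
    simp only [Nat.cast_one, Real.one_rpow, mul_one] at h1
    calc ∑ v ∈ Q.filter (fun v => H443U.sd v u ≤ 2 ^ 0), w (H443U.sd v u) ^ p
        ≤ ∑ v ∈ Q.filter (fun v => H443U.sd v u ≤ 2 ^ 0), (1:ℝ) := by
          refine Finset.sum_le_sum fun v _ => ?_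
          exact pow_le_one₀ (H443P.w_pos _).le (H443P.w_le_one _)
      _ = ((Q.filter (fun v => H443U.sd v u ≤ 1)).card : ℝ) := by simp
      _ ≤ B := h1
      _ ≤ (1 + (2:ℝ) ^ a / (lam - 1)) * B * lam ^ 0 := by
          rw [pow_zero, mul_one]
          nlinarith
  | succ n ih =>
    have hsplit : ∑ v ∈ Q.filter (fun v => H443U.sd v u ≤ 2 ^ (n + 1)), w (H443U.sd v u) ^ p ≤
        ∑ v ∈ Q.filter (fun v => H443U.sd v u ≤ 2 ^ n), w (H443U.sd v u) ^ p +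
        ∑ v ∈ Q.filter (fun v => H443U.sd v u ≤ ((2 ^ (n + 1) : ℕ) : ℤ)),
          (((2 : ℝ) ^ (-(1/4) : ℝ)) ^ n) ^ p := by
      have h1 : Q.filter (fun v => H443U.sd v u ≤ 2 ^ (n + 1)) =
          Q.filter (fun v => H443U.sd v u ≤ 2 ^ n) ∪
            (Q.filter (fun v => H443U.sd v u ≤ 2 ^ (n + 1))).filter
              (fun v => 2 ^ n < H443U.sd v u) := by
        ext v
        simp only [Finset.mem_union, Finset.mem_filter]
        have : (2:ℤ) ^ n ≤ 2 ^ (n + 1) := pow_le_pow_right₀ (by norm_num) (by omega)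
        constructor
        · rintro ⟨h2, h3⟩
          rcases le_or_gt (H443U.sd v u) (2 ^ n) with h4 | h4
          · exact Or.inl ⟨h2, h4⟩
          · exact Or.inr ⟨⟨h2, h3⟩, h4⟩
        · rintro (⟨h2, h3⟩ | ⟨⟨h2, h3⟩, -⟩)
          · exact ⟨h2, h3.trans this⟩
          · exact ⟨h2, h3⟩
      have hdis : Disjoint (Q.filter (fun v => H443U.sd v u ≤ 2 ^ n))
          ((Q.filter (fun v => H443U.sd v u ≤ 2 ^ (n + 1))).filter
              (fun v => 2 ^ n < H443U.sd v u)) := by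
        rw [Finset.disjoint_left]
        intro v hv hv'
        rw [Finset.mem_filter] at hv hv'
        exact absurd hv.2 (not_le.mpr hv'.2)
      rw [h1, Finset.sum_union hdis]
      apply add_le_add le_rfl
      refine (Finset.sum_le_sum (f := fun v => w (H443U.sd v u) ^ p)
        (g := fun _ => (((2 : ℝ) ^ (-(1/4) : ℝ)) ^ n) ^ p) fun v hv => ?_).trans ?_
      · rw [Finset.mem_filter] at hv
        exact pow_le_pow_left₀ (H443P.w_pos _).le (w_pow_le hv.2.le) p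
      · refine Finset.sum_le_sum_of_subset_of_nonneg ?_ fun _ _ _ => by positivity
        intro v hv
        rw [Finset.mem_filter, Finset.mem_filter] at hv
        rw [Finset.mem_filter]
        exact ⟨hv.1.1, by push_cast; exact hv.1.2⟩
    refine hsplit.trans ?_
    rw [Finset.sum_const, nsmul_eq_mul]
    have h2 := hQ u (2 ^ (n + 1)) Nat.one_le_two_pow
    have e1 : ((2 ^ (n + 1) : ℕ) : ℝ) ^ a = (2:ℝ) ^ a * ((2:ℝ) ^ a) ^ n := by
      push_cast
      rw [← Real.rpow_natCast 2 (n + 1), ← Real.rpow_mul (by norm_num), ← Real.rpow_natCast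
        ((2:ℝ) ^ a), ← Real.rpow_mul (by norm_num), ← Real.rpow_add (by norm_num)]
      push_cast
      ring_nf
    have e2 : ((2:ℝ) ^ a) ^ n * (((2 : ℝ) ^ (-(1/4) : ℝ)) ^ n) ^ p = lam ^ n := by
      rw [hlam, ← pow_mul, mul_comm n p, pow_mul, ← mul_pow]
      congr 1
      rw [← Real.rpow_natCast ((2:ℝ) ^ (-(1/4) : ℝ)), ← Real.rpow_mul (by norm_num),
        ← Real.rpow_add (by norm_num)]
      ring_nf
    rw [e1] at h2
    have h3 : (0:ℝ) ≤ (((2 : ℝ) ^ (-(1/4) : ℝ)) ^ n) ^ p := by positivity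
    have h4 : ((Q.filter (fun v => H443U.sd v u ≤ ((2 ^ (n + 1) : ℕ) : ℤ))).card : ℝ) *
        (((2 : ℝ) ^ (-(1/4) : ℝ)) ^ n) ^ p ≤ B * (2:ℝ) ^ a * lam ^ n := by
      calc _ ≤ (B * ((2:ℝ) ^ a * ((2:ℝ) ^ a) ^ n)) * (((2 : ℝ) ^ (-(1/4) : ℝ)) ^ n) ^ p :=
            mul_le_mul_of_nonneg_right h2 h3
        _ = B * (2:ℝ) ^ a * (((2:ℝ) ^ a) ^ n * (((2 : ℝ) ^ (-(1/4) : ℝ)) ^ n) ^ p) := by ring
        _ = _ := by rw [e2]
    have h5 : (1 + (2:ℝ) ^ a / (lam - 1)) * B * lam ^ n + B * (2:ℝ) ^ a * lam ^ n ≤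
        (1 + (2:ℝ) ^ a / (lam - 1)) * B * lam ^ (n + 1) := by
      have h6 : (1 + (2:ℝ) ^ a / (lam - 1)) * lam - (1 + (2:ℝ) ^ a / (lam - 1)) - (2:ℝ) ^ a =
          lam - 1 := by
        have : lam - 1 ≠ 0 := by linarith
        field_simp
        ring
      have h7 : 0 ≤ B * lam ^ n * (lam - 1) := by
        have : 0 ≤ lam ^ n := by positivity
        have h8 : 0 ≤ lam - 1 := by linarith
        positivity
      rw [pow_succ]
      nlinarith
    linarith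

end K93U
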