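import Pool.Agent.H443R3.UD.KP
import Pool.Agent.H342R2.Per.Upper

/-!
Visited boxes have two arms around them; independence over disjoint edge sets.
-/

namespace K93U

open H974 Finset H342P H984P H984N H443P

/-- The path visits a vertex of the box of radius `a` around `v`. -/
def Hit (D : Dm) (F : Finset Edg) (v : Vtx) (a : ℕ) : Prop :=
  ∃ σ : St, D.Vis F σ ∧ inR (v.1 - a) (v.1 + a) (v.2 - a) (v.2 + a) σ.1

theorem hit_ann {D : Dm} (hD : D.Ok) {F : Finset Edg} (hF : F ⊆ D.edges) {v : Vtx} {a R : ℕ}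
    (h : Hit D F v a) (hR : a + 2 ≤ R) (hb : (R : ℤ) ≤ D.bd v) :
    two_An (bxe v R) v (a + 1) R F := by
  obtain ⟨σ, hv, hc⟩ := h
  have hb' : (R : ℤ) ≤ v.1 - D.l ∧ (R : ℤ) ≤ D.r - v.1 ∧ (R : ℤ) ≤ v.2 ∧ (R : ℤ) ≤ D.h - v.2 := by
    unfold Dm.bd at hb
    omega
  obtain ⟨⟨x, y, hx, hy, hp⟩, ⟨x', y', hx', hy', hp'⟩⟩ :=
    vis_ann hD hF hv hc hR (by omega) (by omega) (by omega) (by omega)
  constructor
  · obtain ⟨z, hz, hq⟩ := arms_reach (X := (↑(bxe v R) : Set Edg)) (G := (↑(F ∩ bxe v R) : Set Edg))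
      (fun z => (v.1 - R < z.1 ∧ z.1 < v.1 + R) ∧ (v.2 - R < z.2 ∧ z.2 < v.2 + R))
      (fun e _ hB => by
        show e ∈ bxe v R
        unfold bxe
        obtain ⟨x, y, _ | _⟩ := e
        · simp only [src_mk, tgt_false] at hB
          rw [mem_RE_false]
          omega
        · simp only [src_mk, tgt_true] at hB
          rw [mem_RE_true]
          omega)
      (fun e he => by
        have h1 : e ∈ F \ RE (v.1 - a) (v.1 + a) (v.2 - a) (v.2 + a) := he.1
        have h2 : e ∈ bxe v R := he.2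
        show e ∈ F ∩ bxe v R
        exact Finset.mem_inter.mpr ⟨(Finset.mem_sdiff.mp h1).1, h2⟩) hp (by omega)
    refine ⟨x, z, hx, ?_, hq⟩
    omega
  · obtain ⟨z, hz, hq⟩ := arms_dreach (X := (↑(bxe v R) : Set Edg))
      (G := (↑(bxe v R \ F) : Set Edg))
      (fun z => (v.1 - R < z.1 ∧ z.1 < v.1 + R) ∧ (v.2 - R < z.2 ∧ z.2 < v.2 + R))
      (fun e _ hB => by
        show e ∈ bxe v R
        unfold bxe
        obtain ⟨x, y, _ | _⟩ := e
        · simp only [dsrc_false, dtgt_mk] at hB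
          rw [mem_RE_false]
          omega
        · simp only [dsrc_true, dtgt_mk] at hB
          rw [mem_RE_true]
          omega)
      (fun e he => by
        have h1 : e ∈ (D.edges \ RE (v.1 - a) (v.1 + a) (v.2 - a) (v.2 + a)) \ F := he.1
        have h2 : e ∈ bxe v R := he.2
        show e ∈ bxe v R \ F
        exact Finset.mem_sdiff.mpr ⟨h2, (Finset.mem_sdiff.mp h1).2⟩) hp' (by omega)
    refine ⟨x', z, hx', ?_, hq⟩
    omega

/-- Events local to pairwise disjoint edge sets. -/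
theorem indep_le {ι : Type*} [DecidableEq ι] {S : Finset Edg} (X : ι → Finset Edg)
    (A : ι → Finset Edg → Prop) (p : ι → ℝ) (T : Finset ι) (hX : ∀ i ∈ T, X i ⊆ S)
    (hd : ∀ i ∈ T, ∀ j ∈ T, i ≠ j → Disjoint (X i) (X j))
    (hloc : ∀ i ∈ T, ∀ F, A i F ↔ A i (F ∩ X i)) (hp : ∀ i ∈ T, P S (A i) ≤ p i) :
    P S (fun F => ∀ i ∈ T, A i F) ≤ ∏ i ∈ T, p i := by
  induction T using Finset.induction_on with
  | empty =>
    rw [Finset.prod_empty]
    exact Pr_le_one okh _ _
  | insert a T ha ih =>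
    have ih' := ih (fun v hv => hX v (Finset.mem_insert_of_mem hv))
      (fun u hu v hv => hd u (Finset.mem_insert_of_mem hu) v (Finset.mem_insert_of_mem hv))
      (fun v hv => hloc v (Finset.mem_insert_of_mem hv))
      (fun v hv => hp v (Finset.mem_insert_of_mem hv))
    rw [Finset.prod_insert ha]
    have hUs : T.biUnion X ⊆ S := by
      intro e he
      obtain ⟨v, hv, he⟩ := Finset.mem_biUnion.mp he
      exact hX v (Finset.mem_insert_of_mem hv) he
    have hdis : Disjoint (X a) (T.biUnion X) := by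
      rw [Finset.disjoint_biUnion_right]
      intro v hv
      exact hd a (Finset.mem_insert_self _ _) v (Finset.mem_insert_of_mem hv)
        (fun h' => ha (h' ▸ hv))
    have hi : P S (fun F => A a F ∧ ∀ v ∈ T, A v F) =
        P S (A a) * P S (fun F => ∀ v ∈ T, A v F) := by
      refine Pr_indep (S := X a) (T := T.biUnion X) (hX a (Finset.mem_insert_self _ _)) hUs hdis
        (fun F _ => hloc a (Finset.mem_insert_self _ _) F) (fun F _ => ?_)
      refine forall_congr' fun v => forall_congr' fun hv => ?_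
      have h1 := hloc v (Finset.mem_insert_of_mem hv)
      rw [h1 F, h1 (F ∩ T.biUnion X), Finset.inter_assoc,
        Finset.inter_eq_right.mpr (Finset.subset_biUnion_of_mem X hv)]
    have hmono : P S (fun F => ∀ v ∈ insert a T, A v F) ≤
        P S (fun F => A a F ∧ ∀ v ∈ T, A v F) :=
      Pr_mono okh fun F _ h => ⟨h a (Finset.mem_insert_self _ _),
        fun v hv => h v (Finset.mem_insert_of_mem hv)⟩
    refine hmono.trans ?_
    rw [hi]
    exact mul_le_mul (hp a (Finset.mem_insert_self _ _)) ih' (Pr_nonneg okh _ _)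
      ((Pr_nonneg okh _ _).trans (hp a (Finset.mem_insert_self _ _)))

theorem bxe_disj {u v : Vtx} {k l : ℤ} (h : k + l < H443U.sd u v) :
    Disjoint (bxe u k) (bxe v l) := by
  rw [Finset.disjoint_left]
  rintro ⟨x, y, t⟩ he1 he2
  unfold bxe at he1 he2
  unfold H443U.sd at h
  rcases max_cases |u.1 - v.1| |u.2 - v.2| with ⟨hm, _⟩ | ⟨hm, _⟩
  · rw [hm] at h
    rcases abs_cases (u.1 - v.1) with ⟨ha, _⟩ | ⟨ha, _⟩ <;> rw [ha] at h <;>
    cases t
    · rw [mem_RE_false] at he1 he2; omega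
    · rw [mem_RE_true] at he1 he2; omega
    · rw [mem_RE_false] at he1 he2; omega
    · rw [mem_RE_true] at he1 he2; omega
  · rw [hm] at h
    rcases abs_cases (u.2 - v.2) with ⟨ha, _⟩ | ⟨ha, _⟩ <;> rw [ha] at h <;>
    cases t
    · rw [mem_RE_false] at he1 he2; omega
    · rw [mem_RE_true] at he1 he2; omega
    · rw [mem_RE_false] at he1 he2; omega
    · rw [mem_RE_true] at he1 he2; omega

end K93U
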