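import Pool.Agent.K3h93.UR.Main

/-!
Images of `K` under differentiable maps.
-/

namespace K93U

open MeasureTheory Filter Topology
open scoped ENNReal

/-- Images under maps with invertible derivatives are countable unions of modelled sets. -/
theorem image_modelled {K : Set ℂ} {φ : ℂ → ℂ}
    (hφ : ∀ κ ∈ K, ∃ L : ℂ ≃L[ℝ] ℂ, HasFDerivWithinAt φ (L : ℂ →L[ℝ] ℂ) K κ) :
    ∃ A : (ℕ × ℕ) × (ℤ × ℤ) → Set ℂ, (∀ n, Modelled K (A n)) ∧ φ '' K ⊆ ⋃ n, A n := by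
  classical
  have hch : ∀ κ : ℂ, ∃ L : ℂ ≃L[ℝ] ℂ, κ ∈ K → HasFDerivWithinAt φ (L : ℂ →L[ℝ] ℂ) K κ := by
    intro κ
    by_cases h : κ ∈ K
    · obtain ⟨L, hL⟩ := hφ κ h
      exact ⟨L, fun _ => hL⟩
    · exact ⟨ContinuousLinearEquiv.refl ℝ ℂ, fun h' => absurd h' h⟩
  choose L hL using hch
  set Kn : ℕ → ℕ → Set ℂ := fun m n => {κ | κ ∈ K ∧ (∀ z, ‖L κ z‖ ≤ ((m:ℝ) + 1) * ‖z‖) ∧
    (∀ z, ‖z‖ ≤ ((m:ℝ) + 1) * ‖L κ z‖) ∧ ∀ κ' ∈ K, ‖κ' - κ‖ < 1 / ((n:ℝ) + 1) →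
      ‖φ κ' - φ κ - L κ (κ' - κ)‖ ≤ 1 / (2 * ((m:ℝ) + 1)) * ‖κ' - κ‖} with hKn
  set ctr : ℕ → (ℤ × ℤ) → ℂ := fun n q => ((1 / (4 * ((n:ℝ) + 1)) : ℝ) : ℂ) * qc q with hctr
  set B : (ℕ × ℕ) × (ℤ × ℤ) → Set ℂ := fun p => φ '' (Kn p.1.1 p.1.2 ∩
    Metric.ball (ctr p.1.2 p.2) (1 / (2 * ((p.1.2:ℝ) + 1)))) with hB
  refine ⟨B, ?_, ?_⟩
  · rintro ⟨⟨m, n⟩, q⟩ x ⟨κ, ⟨hκ, hκb⟩, rfl⟩
    obtain ⟨hκK, h1, h2, h3⟩ := hκ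
    have hm : (0:ℝ) < (m:ℝ) + 1 := by positivity
    refine ⟨κ, (m:ℝ) + 1, fun ε hε => ?_⟩
    have hd := (hasFDerivWithinAt_iff_isLittleO.mp (hL κ hκK)).def
      (c := ε / (2 * ((m:ℝ) + 1))) (by positivity)
    rw [Metric.nhdsWithin_basis_ball.eventually_iff] at hd
    obtain ⟨ρ, hρ, hd⟩ := hd
    refine ⟨ρ / (2 * ((m:ℝ) + 1)), by positivity, fun r hr hrρ => ?_⟩
    refine ⟨(L κ : ℂ →L[ℝ] ℂ), fun z => h1 z, fun z => h2 z, ?_⟩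
    rintro y ⟨κ', ⟨hκ', hκb'⟩, rfl⟩ hy
    have hlt : ‖κ' - κ‖ < 1 / ((n:ℝ) + 1) := by
      have e1 : dist κ (ctr n q) < 1 / (2 * ((n:ℝ) + 1)) := hκb
      have e2 : dist κ' (ctr n q) < 1 / (2 * ((n:ℝ) + 1)) := hκb'
      have e3 := dist_triangle κ' (ctr n q) κ
      rw [dist_comm (ctr n q) κ] at e3
      rw [← dist_eq_norm]
      have e4 : (1:ℝ) / ((n:ℝ) + 1) = 1 / (2 * ((n:ℝ) + 1)) + 1 / (2 * ((n:ℝ) + 1)) := by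
        field_simp
        norm_num
      rw [e4]
      exact lt_of_le_of_lt e3 (add_lt_add e2 e1)
    have h4 := h3 κ' hκ'.1 hlt
    have h5 := h2 (κ' - κ)
    have h6 : ‖L κ (κ' - κ)‖ ≤ ‖φ κ' - φ κ‖ + ‖φ κ' - φ κ - L κ (κ' - κ)‖ := by
      have := norm_sub_le (φ κ' - φ κ) (φ κ' - φ κ - L κ (κ' - κ))
      rwa [sub_sub_cancel] at this
    have h7 : ‖κ' - κ‖ ≤ 2 * ((m:ℝ) + 1) * r := by
      have h8 : ((m:ℝ) + 1) * ‖L κ (κ' - κ)‖ ≤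
          ((m:ℝ) + 1) * (r + 1 / (2 * ((m:ℝ) + 1)) * ‖κ' - κ‖) :=
        mul_le_mul_of_nonneg_left (by linarith) hm.le
      have h9 : ((m:ℝ) + 1) * (r + 1 / (2 * ((m:ℝ) + 1)) * ‖κ' - κ‖) =
          ((m:ℝ) + 1) * r + 1 / 2 * ‖κ' - κ‖ := by field_simp
      linarith
    refine ⟨κ', hκ'.1, ?_⟩
    have h10 : κ' ∈ Metric.ball κ ρ ∩ K := by
      refine ⟨?_, hκ'.1⟩
      rw [Metric.mem_ball, dist_eq_norm]
      refine lt_of_le_of_lt h7 ?_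
      calc 2 * ((m:ℝ) + 1) * r < 2 * ((m:ℝ) + 1) * (ρ / (2 * ((m:ℝ) + 1))) :=
            mul_lt_mul_of_pos_left hrρ (by positivity)
        _ = ρ := by field_simp
    have h11 := hd h10
    refine h11.trans ?_
    calc ε / (2 * ((m:ℝ) + 1)) * ‖κ' - κ‖ ≤ ε / (2 * ((m:ℝ) + 1)) * (2 * ((m:ℝ) + 1) * r) :=
          mul_le_mul_of_nonneg_left h7 (by positivity)
      _ = ε * r := by field_simp
  · rintro x ⟨κ, hκ, rfl⟩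
    obtain ⟨m, hm⟩ := exists_nat_ge (max ‖(L κ : ℂ →L[ℝ] ℂ)‖ ‖((L κ).symm : ℂ →L[ℝ] ℂ)‖)
    have hm1 : ‖(L κ : ℂ →L[ℝ] ℂ)‖ ≤ m := (le_max_left _ _).trans hm
    have hm2 : ‖((L κ).symm : ℂ →L[ℝ] ℂ)‖ ≤ m := (le_max_right _ _).trans hm
    have hd := (hasFDerivWithinAt_iff_isLittleO.mp (hL κ hκ)).def
      (c := 1 / (2 * ((m:ℝ) + 1))) (by positivity)
    rw [Metric.nhdsWithin_basis_ball.eventually_iff] at hd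
    obtain ⟨ρ, hρ, hd⟩ := hd
    obtain ⟨n, hn⟩ := exists_nat_one_div_lt hρ
    have hn0 : (0:ℝ) < 1 / (4 * ((n:ℝ) + 1)) := by positivity
    obtain ⟨q, hq, -, -⟩ := exists_round (κ / ((1 / (4 * ((n:ℝ) + 1)) : ℝ) : ℂ))
    refine Set.mem_iUnion.mpr ⟨((m, n), q), κ, ⟨⟨hκ, fun z => ?_, fun z => ?_,
      fun κ' hκ' hlt => ?_⟩, ?_⟩, rfl⟩
    · have h1 := (L κ : ℂ →L[ℝ] ℂ).le_opNorm z
      refine h1.trans (mul_le_mul_of_nonneg_right (by linarith) (norm_nonneg _))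
    · have h1 := ((L κ).symm : ℂ →L[ℝ] ℂ).le_opNorm (L κ z)
      have h2 : ((L κ).symm : ℂ →L[ℝ] ℂ) (L κ z) = z := (L κ).symm_apply_apply z
      rw [h2] at h1
      refine h1.trans (mul_le_mul_of_nonneg_right (by linarith) (norm_nonneg _))
    · exact hd ⟨by rw [Metric.mem_ball, dist_eq_norm]; exact hlt.trans hn, hκ'⟩
    · show dist κ (ctr n q) < 1 / (2 * ((n:ℝ) + 1))
      have hne : ((1 / (4 * ((n:ℝ) + 1)) : ℝ) : ℂ) ≠ 0 := by exact_mod_cast hn0.ne'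
      have e : κ - ctr n q = ((1 / (4 * ((n:ℝ) + 1)) : ℝ) : ℂ) *
          (κ / ((1 / (4 * ((n:ℝ) + 1)) : ℝ) : ℂ) - qc q) := by
        rw [hctr]
        rw [mul_sub, mul_div_cancel₀ _ hne]
      rw [dist_eq_norm, e, norm_mul, Complex.norm_real, Real.norm_eq_abs, abs_of_pos hn0]
      have h1 : 1 / (4 * ((n:ℝ) + 1)) * ‖κ / ((1 / (4 * ((n:ℝ) + 1)) : ℝ) : ℂ) - qc q‖ ≤
          1 / (4 * ((n:ℝ) + 1)) * 1 := mul_le_mul_of_nonneg_left hq hn0.le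
      have h2 : 1 / (4 * ((n:ℝ) + 1)) * 1 < 1 / (2 * ((n:ℝ) + 1)) := by
        rw [mul_one]
        apply one_div_lt_one_div_of_lt (by positivity)
        linarith
      exact lt_of_le_of_lt h1 h2

end K93U
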