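import Pool.Agent.K3h93.UR.Hit
import Pool.Agent.H443R3.UD.Sum

/-!
A sharp bound for the probability that several boxes are visited.
-/

namespace K93U

open H974 Finset H342P H984P H984N H443P H443U

/-- The edges between two boxes. -/
noncomputable def sh (v : Vtx) (a b : ℕ) : Finset Edg := bxe v b \ bxe v a

/-- Two arms across the annulus. -/
def Cx (v : Vtx) (a b : ℕ) (F : Finset Edg) : Prop := two_An (sh v a b) v (a + 1) b F

theorem bxe_mono {V : Vtx} {k l : ℤ} (h : k ≤ l) : bxe V k ⊆ bxe V l := by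
  unfold bxe
  exact RE_subset (by omega) (by omega) (by omega) (by omega)

theorem bxe_sub {u v : Vtx} {k l : ℤ} (h : k + H443U.sd u v ≤ l) : bxe u k ⊆ bxe v l := by
  unfold H443U.sd at h
  have h1 := le_max_left |u.1 - v.1| |u.2 - v.2|
  have h2 := le_max_right |u.1 - v.1| |u.2 - v.2|
  have h3 := le_abs_self (u.1 - v.1)
  have h4 := neg_abs_le (u.1 - v.1)
  have h5 := le_abs_self (u.2 - v.2)
  have h6 := neg_abs_le (u.2 - v.2)
  unfold bxe
  exact RE_subset (by omega) (by omega) (by omega) (by omega)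

theorem sh_mono {v : Vtx} {a b a' b' : ℕ} (h1 : a ≤ a') (h2 : b' ≤ b) : sh v a' b' ⊆ sh v a b := by
  unfold sh
  exact Finset.sdiff_subset_sdiff (bxe_mono (by exact_mod_cast h2)) (bxe_mono (by exact_mod_cast h1))

theorem hit_cx {D : Dm} (hD : D.Ok) {F : Finset Edg} (hF : F ⊆ D.edges) {v : Vtx} {a0 a R : ℕ}
    (h : Hit D F v a0) (ha : a0 ≤ a) (hR : a + 2 ≤ R) (hb : (R : ℤ) ≤ D.bd v) : Cx v a R F := by
  obtain ⟨σ, hv, hc0⟩ := h
  have hc : inR (v.1 - a) (v.1 + a) (v.2 - a) (v.2 + a) σ.1 := by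
    unfold inR at hc0 ⊢
    omega
  have hb' : (R : ℤ) ≤ v.1 - D.l ∧ (R : ℤ) ≤ D.r - v.1 ∧ (R : ℤ) ≤ v.2 ∧ (R : ℤ) ≤ D.h - v.2 := by
    unfold Dm.bd at hb
    omega
  obtain ⟨⟨x, y, hx, hy, hp⟩, ⟨x', y', hx', hy', hp'⟩⟩ :=
    vis_ann hD hF hv hc hR (by omega) (by omega) (by omega) (by omega)
  constructor
  · obtain ⟨z, hz, hq⟩ := arms_reach (X := (↑(bxe v R) : Set Edg)) (G := (↑(F ∩ sh v a R) : Set Edg))
      (fun z => (v.1 - R < z.1 ∧ z.1 < v.1 + R) ∧ (v.2 - R < z.2 ∧ z.2 < v.2 + R))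
      (fun e _ hB => by
        show e ∈ bxe v R
        unfold bxe
        obtain ⟨x, y, _ | _⟩ := e
        · simp only [src_mk, tgt_false] at hB
          rw [mem_RE_false]
          omega
        · simp only [src_mk, tgt_true] at hB
          rw [mem_RE_true]
          omega)
      (fun e he => by
        have h1 : e ∈ F \ RE (v.1 - a) (v.1 + a) (v.2 - a) (v.2 + a) := he.1
        have h2 : e ∈ bxe v R := he.2
        rw [Finset.mem_sdiff] at h1
        show e ∈ F ∩ sh v a R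
        unfold sh
        rw [Finset.mem_inter, Finset.mem_sdiff]
        exact ⟨h1.1, h2, h1.2⟩) hp (by omega)
    refine ⟨x, z, hx, ?_, hq⟩
    omega
  · obtain ⟨z, hz, hq⟩ := arms_dreach (X := (↑(bxe v R) : Set Edg))
      (G := (↑(sh v a R \ F) : Set Edg))
      (fun z => (v.1 - R < z.1 ∧ z.1 < v.1 + R) ∧ (v.2 - R < z.2 ∧ z.2 < v.2 + R))
      (fun e _ hB => by
        show e ∈ bxe v R
        unfold bxe
        obtain ⟨x, y, _ | _⟩ := e
        · simp only [dsrc_false, dtgt_mk] at hB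
          rw [mem_RE_false]
          omega
        · simp only [dsrc_true, dtgt_mk] at hB
          rw [mem_RE_true]
          omega)
      (fun e he => by
        have h1 : e ∈ (D.edges \ RE (v.1 - a) (v.1 + a) (v.2 - a) (v.2 + a)) \ F := he.1
        have h2 : e ∈ bxe v R := he.2
        rw [Finset.mem_sdiff, Finset.mem_sdiff] at h1
        show e ∈ sh v a R \ F
        unfold sh
        rw [Finset.mem_sdiff, Finset.mem_sdiff]
        exact ⟨⟨h2, h1.1.2⟩, h1.2⟩) hp' (by omega)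
    refine ⟨x', z, hx', ?_, hq⟩
    omega

/-- The radii from `s` to `t` avoid the intervals of the list. -/
def av (ℬ : List (ℕ × ℕ)) (s t : ℕ) : Prop := ∀ p ∈ ℬ, t ≤ p.1 ∨ p.2 ≤ s

/-- Arms across all the annuli with radii between `a` and `b` which avoid the intervals. -/
def EA (v : Vtx) (L a b : ℕ) (ℬ : List (ℕ × ℕ)) (F : Finset Edg) : Prop :=
  ∀ s t : ℕ, a ≤ s → s + 2 ≤ t → t ≤ b → av ℬ s t → Cx v (L * s) (L * t) F

theorem EA_local {v : Vtx} {L a b : ℕ} {ℬ : List (ℕ × ℕ)} {Y : Finset Edg}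
    (hY : ∀ s t : ℕ, a ≤ s → s + 2 ≤ t → t ≤ b → av ℬ s t → sh v (L * s) (L * t) ⊆ Y)
    (F : Finset Edg) : EA v L a b ℬ F ↔ EA v L a b ℬ (F ∩ Y) := by
  unfold EA
  refine forall_congr' fun s => forall_congr' fun t => forall_congr' fun h1 =>
    forall_congr' fun h2 => forall_congr' fun h3 => forall_congr' fun h4 => ?_
  exact two_loc' (hY s t h1 h2 h3 h4) _ _ _ F

/-- The constants. -/
noncomputable def cc (C : ℝ) : ℕ → ℝ
  | 0 => C + 1
  | n + 1 => 3 * cc C n ^ 2

theorem cc_one {C : ℝ} (hC : 0 < C) (n : ℕ) : 1 ≤ cc C n := by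
  induction n with
  | zero => simp only [cc]; linarith
  | succ n ih => simp only [cc]; nlinarith

theorem cc_mono1 {C : ℝ} (hC : 0 < C) (n : ℕ) : cc C n ≤ cc C (n + 1) := by
  have := cc_one hC n
  simp only [cc]
  nlinarith

theorem cc_mono {C : ℝ} (hC : 0 < C) {m n : ℕ} (h : m ≤ n) : cc C m ≤ cc C n :=
  monotone_nat_of_le_succ (cc_mono1 hC) h

/-- The one-point bound with excluded intervals. -/
theorem EA_pr {C : ℝ} (hC : 0 < C) (hA : AnnUp C) {S : Finset Edg} {v : Vtx} {L : ℕ}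
    (hL : 1 ≤ L) (ℬ : List (ℕ × ℕ)) (hℬ : ∀ p ∈ ℬ, p.2 ≤ 2 * p.1 ∧ p.1 ≤ p.2) (a b : ℕ)
    (hb : 1 ≤ b) (hS : sh v (L * a) (L * b) ⊆ S) :
    P S (EA v L a b ℬ) ≤ cc C ℬ.length * (((a : ℝ) + 1) / b) ^ (1/4 : ℝ) := by
  have hL0 : (0:ℝ) < L := by exact_mod_cast hL
  have hL1 : (1:ℝ) ≤ L := by exact_mod_cast hL
  have triv : ∀ (n a b : ℕ), 1 ≤ b → b ≤ a + 1 → ∀ A : Finset Edg → Prop,
      P S A ≤ cc C n * (((a : ℝ) + 1) / b) ^ (1/4 : ℝ) := by
    intro n a b hb hba A
    have h1 : P S A ≤ 1 := Pr_le_one okh _ _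
    have hb0 : (0:ℝ) < b := by exact_mod_cast hb
    have h2 : 1 ≤ ((a : ℝ) + 1) / b := by
      rw [le_div_iff₀ hb0, one_mul]
      exact_mod_cast hba
    have h3 : 1 ≤ (((a : ℝ) + 1) / b) ^ (1/4 : ℝ) := Real.one_le_rpow h2 (by norm_num)
    have h4 := cc_one hC n
    nlinarith
  induction ℬ generalizing a b with
  | nil =>
    rcases Nat.lt_or_ge b (a + 2) with h | h
    · exact triv _ a b hb (by omega) _
    · have h1 : P S (EA v L a b []) ≤ P S (Cx v (L * a) (L * b)) :=
        Pr_mono okh fun F _ hF => hF a b le_rfl h le_rfl (fun p hp => absurd hp (by simp))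
      have hlt : L * a + 1 ≤ L * b := by nlinarith
      have h2 := two_pr hA hS v (r := L * a + 1) (R := L * b) (by omega) hlt
      refine h1.trans (h2.trans ?_)
      have hb0 : (0:ℝ) < b := by exact_mod_cast hb
      have h3 : (((L * a + 1 : ℕ) : ℝ) / (L * b : ℕ)) ≤ ((a : ℝ) + 1) / b := by
        push_cast
        rw [div_le_div_iff₀ (by positivity) hb0]
        nlinarith [mul_nonneg (Nat.cast_nonneg (α := ℝ) a) hb0.le, mul_pos hL0 hb0]
      have h4 : (((L * a + 1 : ℕ) : ℝ) / (L * b : ℕ)) ^ (1/4 : ℝ) ≤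
          (((a : ℝ) + 1) / b) ^ (1/4 : ℝ) :=
        Real.rpow_le_rpow (by positivity) h3 (by norm_num)
      have h5 : 0 ≤ (((a : ℝ) + 1) / b) ^ (1/4 : ℝ) := by positivity
      simp only [List.length_nil, cc]
      nlinarith
  | cons p ℬ ih =>
    obtain ⟨l, u⟩ := p
    have hlu := hℬ (l, u) List.mem_cons_self
    simp only at hlu
    have ih' := ih (fun p hp => hℬ p (List.mem_cons_of_mem _ hp))
    have hpos : 0 ≤ (((a : ℝ) + 1) / b) ^ (1/4 : ℝ) := by positivity
    by_cases hc : b ≤ l ∨ u ≤ a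
    · have h1 : P S (EA v L a b ((l, u) :: ℬ)) ≤ P S (EA v L a b ℬ) := by
        refine Pr_mono okh fun F _ hF s t h1 h2 h3 h4 => hF s t h1 h2 h3 ?_
        intro p hp
        rcases List.mem_cons.mp hp with h5 | h5
        · rw [h5]
          simp only
          omega
        · exact h4 p h5
      refine h1.trans ((ih' a b hb hS).trans ?_)
      exact mul_le_mul_of_nonneg_right (cc_mono1 hC _) hpos
    · push Not at hc
      have hl1 : 1 ≤ l := by omega
      have e1 : P S (EA v L a b ((l, u) :: ℬ)) ≤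
          P S (fun F => EA v L a l ℬ F ∧ EA v L u b ℬ F) := by
        refine Pr_mono okh fun F _ hF => ⟨fun s t h1 h2 h3 h4 => ?_, fun s t h1 h2 h3 h4 => ?_⟩
        · refine hF s t h1 h2 (by omega) ?_
          intro p hp
          rcases List.mem_cons.mp hp with h5 | h5
          · rw [h5]; exact Or.inl h3
          · exact h4 p h5
        · refine hF s t (by omega) h2 h3 ?_
          intro p hp
          rcases List.mem_cons.mp hp with h5 | h5
          · rw [h5]; exact Or.inr h1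
          · exact h4 p h5
      have s1 : sh v (L * a) (L * l) ⊆ S :=
        (sh_mono le_rfl (Nat.mul_le_mul_left _ hc.1.le)).trans hS
      have s2 : sh v (L * u) (L * b) ⊆ S :=
        (sh_mono (Nat.mul_le_mul_left _ hc.2.le) le_rfl).trans hS
      have hd : Disjoint (sh v (L * a) (L * l)) (sh v (L * u) (L * b)) := by
        rw [Finset.disjoint_left]
        intro e he he'
        unfold sh at he he'
        rw [Finset.mem_sdiff] at he he'
        refine he'.2 (bxe_mono ?_ he.1)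
        have : L * l ≤ L * u := Nat.mul_le_mul_left _ hlu.2
        exact_mod_cast this
      have e2 : P S (fun F => EA v L a l ℬ F ∧ EA v L u b ℬ F) =
          P S (EA v L a l ℬ) * P S (EA v L u b ℬ) :=
        Pr_indep s1 s2 hd
          (fun F _ => EA_local (fun s t h1 _ h3 _ => sh_mono (Nat.mul_le_mul_left _ h1)
            (Nat.mul_le_mul_left _ h3)) F)
          (fun F _ => EA_local (fun s t h1 _ h3 _ => sh_mono (Nat.mul_le_mul_left _ h1)
            (Nat.mul_le_mul_left _ h3)) F)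
      have i1 := ih' a l hl1 s1
      have i2 := ih' u b hb s2
      refine e1.trans ?_
      rw [e2]
      refine (mul_le_mul i1 i2 (Pr_nonneg okh _ _) ?_).trans ?_
      · exact (Pr_nonneg okh _ _).trans i1
      · have hl0 : (0:ℝ) < l := by exact_mod_cast hl1
        have hb0 : (0:ℝ) < b := by exact_mod_cast hb
        have e3 : (((a : ℝ) + 1) / l) ^ (1/4 : ℝ) * (((u : ℝ) + 1) / b) ^ (1/4 : ℝ) =
            (((a : ℝ) + 1) / b) ^ (1/4 : ℝ) * (((u : ℝ) + 1) / l) ^ (1/4 : ℝ) := by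
          rw [← Real.mul_rpow (by positivity) (by positivity),
            ← Real.mul_rpow (by positivity) (by positivity)]
          congr 1
          field_simp
        have e4 : (((u : ℝ) + 1) / l) ^ (1/4 : ℝ) ≤ 3 := by
          have h1 : ((u : ℝ) + 1) / l ≤ 3 := by
            rw [div_le_iff₀ hl0]
            have : u + 1 ≤ 3 * l := by omega
            exact_mod_cast this
          calc (((u : ℝ) + 1) / l) ^ (1/4 : ℝ) ≤ (3:ℝ) ^ (1/4 : ℝ) :=
                Real.rpow_le_rpow (by positivity) h1 (by norm_num)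
            _ ≤ (3:ℝ) ^ (1 : ℝ) := Real.rpow_le_rpow_of_exponent_le (by norm_num) (by norm_num)
            _ = 3 := Real.rpow_one 3
        have hc1 := cc_one hC ℬ.length
        simp only [List.length_cons, cc]
        calc cc C ℬ.length * (((a : ℝ) + 1) / l) ^ (1/4 : ℝ) *
              (cc C ℬ.length * (((u : ℝ) + 1) / b) ^ (1/4 : ℝ))
            = cc C ℬ.length ^ 2 * ((((a : ℝ) + 1) / l) ^ (1/4 : ℝ) *
              (((u : ℝ) + 1) / b) ^ (1/4 : ℝ)) := by ring
          _ = cc C ℬ.length ^ 2 * (((((a : ℝ) + 1) / b) ^ (1/4 : ℝ)) *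
              (((u : ℝ) + 1) / l) ^ (1/4 : ℝ)) := by rw [e3]
          _ ≤ cc C ℬ.length ^ 2 * (((((a : ℝ) + 1) / b) ^ (1/4 : ℝ)) * 3) := by
              gcongr
          _ = 3 * cc C ℬ.length ^ 2 * (((a : ℝ) + 1) / b) ^ (1/4 : ℝ) := by ring

end K93U
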