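import Pool.Agent.K3h93.UR.KPt

/-!
The sharp bound for `k` points, and the number of visited boxes of a configuration.
-/

namespace K93U

open H974 Finset H342P H984P H984N H443P H443U

/-- The lattice vertex of the configuration point `q`. -/
def vq (V : Vtx) (L : ℕ) (q : ℤ × ℤ) : Vtx := (V.1 + 4 * L * q.1, V.2 + 4 * L * q.2)

/-- Distance to the centre of the configuration. -/
def b0 (q : ℤ × ℤ) : ℤ := H443U.sd q (0, 0)

theorem sd_nonneg (u v : ℤ × ℤ) : 0 ≤ H443U.sd u v := le_max_of_le_left (abs_nonneg _)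

theorem sd_vq (V : Vtx) (L : ℕ) (q q' : ℤ × ℤ) :
    H443U.sd (vq V L q) (vq V L q') = 4 * L * H443U.sd q q' := by
  have h1 : V.1 + 4 * L * q.1 - (V.1 + 4 * L * q'.1) = (4 * L) * (q.1 - q'.1) := by ring
  have h2 : V.2 + 4 * L * q.2 - (V.2 + 4 * L * q'.2) = (4 * L) * (q.2 - q'.2) := by ring
  have h3 : |(4 * L : ℤ)| = 4 * L := abs_of_nonneg (by positivity)
  unfold H443U.sd vq
  rw [h1, h2, abs_mul (4 * (L:ℤ)), abs_mul (4 * (L:ℤ)), h3, mul_max_of_nonneg _ _ (by positivity)]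

theorem sd_vq0 (V : Vtx) (L : ℕ) (q : ℤ × ℤ) : H443U.sd (vq V L q) V = 4 * L * b0 q := by
  have h := sd_vq V L q (0, 0)
  have h2 : vq V L (0, 0) = V := by unfold vq; simp
  rw [h2] at h
  exact h

variable {k : ℕ}

/-- The radius of the point `z i`: distance to the centre and to the points with larger index. -/
def rz (z : Fin k → ℤ × ℤ) (i : Fin k) : ℕ :=
  ((insert (b0 (z i)) ((univ.filter (fun j => i < j)).image
    (fun j => H443U.sd (z i) (z j)))).min' (insert_nonempty _ _)).toNat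

theorem rz_cast (z : Fin k → ℤ × ℤ) (i : Fin k) : ((rz z i : ℕ) : ℤ) =
    (insert (b0 (z i)) ((univ.filter (fun j => i < j)).image
    (fun j => H443U.sd (z i) (z j)))).min' (insert_nonempty _ _) := by
  unfold rz
  apply Int.toNat_of_nonneg
  apply Finset.le_min'
  intro y hy
  rcases Finset.mem_insert.mp hy with h | h
  · rw [h]; exact sd_nonneg _ _
  · obtain ⟨j, _, rfl⟩ := Finset.mem_image.mp h
    exact sd_nonneg _ _

theorem rz_le_b0 (z : Fin k → ℤ × ℤ) (i : Fin k) : (rz z i : ℤ) ≤ b0 (z i) := by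
  rw [rz_cast]
  exact Finset.min'_le _ _ (Finset.mem_insert_self _ _)

theorem rz_le_sd (z : Fin k → ℤ × ℤ) {i j : Fin k} (h : i < j) :
    (rz z i : ℤ) ≤ H443U.sd (z i) (z j) := by
  rw [rz_cast]
  exact Finset.min'_le _ _ (Finset.mem_insert_of_mem (Finset.mem_image.mpr
    ⟨j, Finset.mem_filter.mpr ⟨Finset.mem_univ _, h⟩, rfl⟩))

theorem rz_cases (z : Fin k → ℤ × ℤ) (i : Fin k) : (rz z i : ℤ) = b0 (z i) ∨
    ∃ j, i < j ∧ (rz z i : ℤ) = H443U.sd (z i) (z j) := by
  have h := Finset.min'_mem (insert (b0 (z i)) ((univ.filter (fun j => i < j)).image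
    (fun j => H443U.sd (z i) (z j)))) (insert_nonempty _ _)
  rw [← rz_cast] at h
  rcases Finset.mem_insert.mp h with h | h
  · exact Or.inl h
  · obtain ⟨j, hj, e⟩ := Finset.mem_image.mp h
    exact Or.inr ⟨j, (Finset.mem_filter.mp hj).2, e.symm⟩

/-- The upper bound for the weight of a radius. -/
noncomputable def gz (z : Fin k → ℤ × ℤ) (i : Fin k) : ℝ :=
  w (b0 (z i)) + ∑ j, if i < j then w (H443U.sd (z i) (z j)) else 0

theorem w_rz (z : Fin k → ℤ × ℤ) (i : Fin k) : w (rz z i) ≤ gz z i := by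
  have h0 : ∀ j : Fin k, 0 ≤ (if i < j then w (H443U.sd (z i) (z j)) else 0) := by
    intro j
    split_ifs
    · exact (H443P.w_pos _).le
    · exact le_rfl
  unfold gz
  rcases rz_cases z i with h | ⟨j, hj, h⟩
  · rw [h]
    have := Finset.sum_nonneg (fun j (_ : j ∈ (univ : Finset (Fin k))) => h0 j)
    linarith
  · rw [h]
    have h1 := Finset.single_le_sum (f := fun j => if i < j then w (H443U.sd (z i) (z j)) else 0)
      (fun j _ => h0 j) (Finset.mem_univ j)
    simp only [hj, if_true] at h1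
    have h2 := (H443P.w_pos (b0 (z i))).le
    linarith

/-- The points with a box and smaller index. -/
def lt (z : Fin k → ℤ × ℤ) (i : Fin k) : Finset (Fin k) :=
  univ.filter (fun j => j < i ∧ 22 ≤ rz z j)

/-- The excluded intervals. -/
noncomputable def bl (z : Fin k → ℤ × ℤ) (i : Fin k) : List (ℕ × ℕ) :=
  (lt z i).toList.map (fun j => (4 * (H443U.sd (z i) (z j)).toNat - rz z j - 1,
    4 * (H443U.sd (z i) (z j)).toNat + rz z j))

theorem lt_facts {z : Fin k → ℤ × ℤ} {i j : Fin k} (h : j ∈ lt z i) :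
    j < i ∧ 22 ≤ rz z j ∧ rz z j ≤ (H443U.sd (z i) (z j)).toNat ∧
      (((H443U.sd (z i) (z j)).toNat : ℕ) : ℤ) = H443U.sd (z i) (z j) := by
  unfold lt at h
  rw [Finset.mem_filter] at h
  have h1 := rz_le_sd z h.2.1
  rw [Sum.sd_comm] at h1
  have h2 := sd_nonneg (z i) (z j)
  refine ⟨h.2.1, h.2.2, by omega, Int.toNat_of_nonneg h2⟩

theorem bl_ok (z : Fin k → ℤ × ℤ) (i : Fin k) : ∀ p ∈ bl z i, p.2 ≤ 2 * p.1 ∧ p.1 ≤ p.2 := by
  intro p hp
  unfold bl at hp
  obtain ⟨j, hj, rfl⟩ := List.mem_map.mp hp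
  rw [Finset.mem_toList] at hj
  obtain ⟨h1, h2, h3, -⟩ := lt_facts hj
  simp only
  omega

theorem bl_length (z : Fin k → ℤ × ℤ) (i : Fin k) : (bl z i).length ≤ k := by
  unfold bl
  rw [List.length_map, Finset.length_toList]
  exact (Finset.card_le_univ _).trans (le_of_eq (Fintype.card_fin k))

/-- The edges of the point `z i`. -/
noncomputable def Uz (V : Vtx) (L : ℕ) (z : Fin k → ℤ × ℤ) (i : Fin k) : Finset Edg :=
  if 22 ≤ rz z i then bxe (vq V L (z i)) ((L * rz z i : ℕ) : ℤ) \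
    (lt z i).biUnion (fun j => bxe (vq V L (z j)) ((L * rz z j : ℕ) : ℤ)) else ∅

/-- Arms around all the points. -/
def AZ (V : Vtx) (L : ℕ) (z : Fin k → ℤ × ℤ) (F : Finset Edg) : Prop :=
  ∀ i, 22 ≤ rz z i → EA (vq V L (z i)) L 20 (rz z i) (bl z i) F

/-- The edges of the annulus. -/
noncomputable def An (V : Vtx) (I O : ℕ) : Finset Edg := bxe V O \ bxe V I

theorem sh_sub_Uz {V : Vtx} {L : ℕ} (hL : 1 ≤ L) {z : Fin k → ℤ × ℤ} {i : Fin k}
    (h22 : 22 ≤ rz z i) {s t : ℕ} (ht : t ≤ rz z i) (hav : av (bl z i) s t) :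
    sh (vq V L (z i)) (L * s) (L * t) ⊆ Uz V L z i := by
  intro e he
  unfold Uz
  rw [if_pos h22, Finset.mem_sdiff]
  have he0 := he
  unfold sh at he
  rw [Finset.mem_sdiff] at he
  have hL' : (0:ℤ) < L := by exact_mod_cast hL
  constructor
  · refine bxe_mono ?_ he.1
    exact_mod_cast Nat.mul_le_mul_left L ht
  · intro hcon
    obtain ⟨j, hj, hej⟩ := Finset.mem_biUnion.mp hcon
    obtain ⟨h1, h2, h3, h4⟩ := lt_facts hj
    have h5 := hav (4 * (H443U.sd (z i) (z j)).toNat - rz z j - 1,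
      4 * (H443U.sd (z i) (z j)).toNat + rz z j) (by
        unfold bl
        exact List.mem_map.mpr ⟨j, Finset.mem_toList.mpr hj, rfl⟩)
    simp only at h5
    set d := (H443U.sd (z i) (z j)).toNat with hd
    rcases h5 with h5 | h5
    · have h6 : t + rz z j + 1 ≤ 4 * d := by omega
      have hdis := bxe_disj (u := vq V L (z i)) (v := vq V L (z j)) (k := ((L * t : ℕ) : ℤ))
        (l := ((L * rz z j : ℕ) : ℤ)) (by
          rw [sd_vq, ← h4]
          have h7 : L * (t + rz z j + 1) ≤ L * (4 * d) := Nat.mul_le_mul_left L h6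
          have h8 : ((L * (t + rz z j + 1) : ℕ) : ℤ) ≤ ((L * (4 * d) : ℕ) : ℤ) := by
            exact_mod_cast h7
          push_cast at h8 ⊢
          linarith)
      exact Finset.disjoint_left.mp hdis he.1 hej
    · apply he.2
      refine bxe_sub ?_ hej
      rw [Sum.sd_comm, sd_vq, ← h4]
      have h7 : L * (4 * d + rz z j) ≤ L * s := Nat.mul_le_mul_left L h5
      have h8 : ((L * (4 * d + rz z j) : ℕ) : ℤ) ≤ ((L * s : ℕ) : ℤ) := by exact_mod_cast h7
      push_cast at h8 ⊢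
      linarith

theorem Uz_sub_An {V : Vtx} {L : ℕ} (hL : 1 ≤ L) {z : Fin k → ℤ × ℤ} {i : Fin k} {h0 W : ℕ}
    (hh0 : 1 ≤ h0) (hz : 2 * (h0 : ℤ) ≤ b0 (z i) ∧ b0 (z i) ≤ W) :
    Uz V L z i ⊆ An V (4 * L * h0) (8 * L * W) := by
  intro e he
  unfold Uz at he
  split_ifs at he with h22
  · rw [Finset.mem_sdiff] at he
    have h1 := rz_le_b0 z i
    have hL' : (0:ℤ) < L := by exact_mod_cast hL
    have h2 : (L:ℤ) * rz z i ≤ L * b0 (z i) := mul_le_mul_of_nonneg_left h1 hL'.le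
    have h3 : (L:ℤ) * b0 (z i) ≤ L * W := mul_le_mul_of_nonneg_left hz.2 hL'.le
    have h4 : (L:ℤ) * (2 * h0) ≤ L * b0 (z i) := mul_le_mul_of_nonneg_left hz.1 hL'.le
    have h5 : 0 < (L:ℤ) * h0 := mul_pos hL' (by exact_mod_cast hh0)
    unfold An
    rw [Finset.mem_sdiff]
    constructor
    · refine bxe_sub ?_ he.1
      rw [sd_vq0]
      push_cast
      linarith
    · have hd := bxe_disj (u := vq V L (z i)) (v := V) (k := ((L * rz z i : ℕ) : ℤ))
        (l := ((4 * L * h0 : ℕ) : ℤ)) (by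
          rw [sd_vq0]
          push_cast
          linarith)
      exact Finset.disjoint_left.mp hd he.1
  · exact absurd he (Finset.notMem_empty e)

theorem AZ_local {V : Vtx} {L : ℕ} (hL : 1 ≤ L) {z : Fin k → ℤ × ℤ} {h0 W : ℕ}
    (hh0 : 1 ≤ h0) (hz : ∀ i, 2 * (h0 : ℤ) ≤ b0 (z i) ∧ b0 (z i) ≤ W) (F : Finset Edg) :
    AZ V L z F ↔ AZ V L z (F ∩ An V (4 * L * h0) (8 * L * W)) := by
  unfold AZ
  refine forall_congr' fun i => forall_congr' fun h22 => ?_
  exact EA_local (fun s t _ _ ht hav => (sh_sub_Uz hL h22 ht hav).trans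
    (Uz_sub_An hL hh0 (hz i))) F

theorem An_sub {D : Dm} {V : Vtx} {I O : ℕ} (h : (O : ℤ) ≤ D.bd V) : An V I O ⊆ D.edges :=
  Finset.sdiff_subset.trans (one_box h)

/-- The sharp bound for `k` points. -/
theorem AZ_pr {C : ℝ} (hC : 0 < C) (hA : AnnUp C) {D : Dm} {V : Vtx} {L : ℕ} (hL : 1 ≤ L)
    {h0 W : ℕ} (hh0 : 1 ≤ h0) (hbd : ((8 * L * W : ℕ) : ℤ) ≤ D.bd V) {z : Fin k → ℤ × ℤ}
    (hz : ∀ i, 2 * (h0 : ℤ) ≤ b0 (z i) ∧ b0 (z i) ≤ W) :
    P D.edges (AZ V L z) ≤ ∏ i, (22 * cc C k * w (rz z i)) := by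
  classical
  have hUS : ∀ i, Uz V L z i ⊆ D.edges := fun i =>
    (Uz_sub_An hL hh0 (hz i)).trans (An_sub hbd)
  have key := indep_le (S := D.edges) (Uz V L z)
    (fun i F => 22 ≤ rz z i → EA (vq V L (z i)) L 20 (rz z i) (bl z i) F)
    (fun i => 22 * cc C k * w (rz z i)) univ (fun i _ => hUS i) ?_ ?_ ?_
  · refine le_trans (Pr_mono okh fun F _ hF => ?_) key
    exact fun i _ => hF i
  · have main : ∀ i j : Fin k, j < i → Disjoint (Uz V L z i) (Uz V L z j) := by
      intro i j hij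
      unfold Uz
      split_ifs with h1 h2
      · rw [Finset.disjoint_left]
        intro e he he'
        rw [Finset.mem_sdiff] at he he'
        apply he.2
        refine Finset.mem_biUnion.mpr ⟨j, ?_, he'.1⟩
        unfold lt
        exact Finset.mem_filter.mpr ⟨Finset.mem_univ _, hij, h2⟩
      · exact Finset.disjoint_empty_right _
      · exact Finset.disjoint_empty_left _
      · exact Finset.disjoint_empty_left _
    intro i _ j _ hne
    rcases lt_or_gt_of_ne hne with h | h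
    · exact (main j i h).symm
    · exact main i j h
  · intro i _ F
    refine forall_congr' fun h22 => ?_
    exact EA_local (fun s t _ _ ht hav => sh_sub_Uz hL h22 ht hav) F
  · intro i _
    have hcc := cc_one hC k
    have hw := H443P.w_pos (rz z i)
    by_cases h22 : 22 ≤ rz z i
    · have h1 : P D.edges (fun F => 22 ≤ rz z i → EA (vq V L (z i)) L 20 (rz z i) (bl z i) F) ≤
          P D.edges (EA (vq V L (z i)) L 20 (rz z i) (bl z i)) :=
        Pr_mono okh fun F _ hF => hF h22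
      have hsub : sh (vq V L (z i)) (L * 20) (L * rz z i) ⊆ D.edges := by
        have h2 := rz_le_b0 z i
        have hL' : (0:ℤ) < L := by exact_mod_cast hL
        have h3 : (L:ℤ) * rz z i ≤ L * b0 (z i) := mul_le_mul_of_nonneg_left h2 hL'.le
        have h4 : (L:ℤ) * b0 (z i) ≤ L * W := mul_le_mul_of_nonneg_left (hz i).2 hL'.le
        have h5 : bxe (vq V L (z i)) ((L * rz z i : ℕ) : ℤ) ⊆ bxe V ((8 * L * W : ℕ) : ℤ) := by
          apply bxe_sub
          rw [sd_vq0]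
          push_cast
          have : (0:ℤ) ≤ L * W := by positivity
          linarith
        exact (Finset.sdiff_subset.trans h5).trans (one_box hbd)
      have h2 := EA_pr hC hA hL (bl z i) (bl_ok z i) 20 (rz z i) (by omega) hsub
      refine h1.trans (h2.trans ?_)
      have hr0 : (0:ℝ) < rz z i := by exact_mod_cast (by omega : 0 < rz z i)
      have e1 : ((((20:ℕ) : ℝ) + 1) / (rz z i : ℝ)) ^ (1/4 : ℝ) ≤
          21 * ((rz z i : ℝ)⁻¹) ^ (1/4 : ℝ) :=
        two_pow (by positivity) (by positivity) (by norm_num) (by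
          push_cast
          rw [div_eq_mul_inv]
          norm_num)
      have e2 : ((rz z i : ℝ)⁻¹) ^ (1/4:ℝ) = w (rz z i) := by
        rw [Sum.w_cast (rz z i) (by omega), Real.rpow_neg hr0.le, Real.inv_rpow hr0.le]
      rw [e2] at e1
      have e3 : cc C (bl z i).length ≤ cc C k := cc_mono hC (bl_length z i)
      have e4 := cc_one hC (bl z i).length
      calc cc C (bl z i).length * ((((20:ℕ) : ℝ) + 1) / (rz z i : ℝ)) ^ (1/4 : ℝ)
          ≤ cc C k * (21 * w (rz z i)) := mul_le_mul e3 e1 (by positivity) (by positivity)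
        _ ≤ 22 * cc C k * w (rz z i) := by nlinarith [mul_pos (lt_of_lt_of_le one_pos hcc) hw]
    · refine (Pr_le_one okh _ _).trans ?_
      have h2 : (1:ℝ) ≤ 22 * w (rz z i) := by
        rcases Nat.eq_zero_or_pos (rz z i) with h | h
        · rw [h]
          have : w ((0:ℕ) : ℤ) = 1 := by unfold w; simp
          rw [this]; norm_num
        · rw [Sum.w_cast (rz z i) h]
          have h3 : (0:ℝ) < rz z i := by exact_mod_cast h
          have h4 : (rz z i : ℝ) ≤ 22 := by exact_mod_cast (by omega : rz z i ≤ 22)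
          have h5 : (22:ℝ) ^ (-(1/4) : ℝ) ≤ (rz z i : ℝ) ^ (-(1/4) : ℝ) :=
            Real.rpow_le_rpow_of_nonpos h3 h4 (by norm_num)
          have h6 : (22:ℝ) ^ (-1 : ℝ) ≤ (22:ℝ) ^ (-(1/4) : ℝ) :=
            Real.rpow_le_rpow_of_exponent_le (by norm_num) (by norm_num)
          rw [Real.rpow_neg_one] at h6
          linarith
      nlinarith

/-- The arms exist if all the boxes are visited. -/
theorem AZ_of_hit {D : Dm} (hD : D.Ok) {F : Finset Edg} (hF : F ⊆ D.edges) {V : Vtx} {L : ℕ}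
    (hL : 1 ≤ L) {W : ℕ} (hbd : ((8 * L * W : ℕ) : ℤ) ≤ D.bd V) {z : Fin k → ℤ × ℤ}
    (hz : ∀ i, b0 (z i) ≤ W) (hit : ∀ i, Hit D F (vq V L (z i)) (20 * L)) : AZ V L z F := by
  intro i _ s t hs hst ht _
  refine hit_cx hD hF (hit i) (by nlinarith) (by nlinarith) ?_
  have h1 := rz_le_b0 z i
  have hL' : (0:ℤ) < L := by exact_mod_cast hL
  have h2 : (t:ℤ) ≤ rz z i := by exact_mod_cast ht
  have h3 : (L:ℤ) * t ≤ L * W := mul_le_mul_of_nonneg_left (by linarith [hz i]) hL'.le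
  have h4 : (L:ℤ) * b0 (z i) ≤ L * W := mul_le_mul_of_nonneg_left (hz i) hL'.le
  have h5 : D.bd V ≤ D.bd (vq V L (z i)) + H443U.sd V (vq V L (z i)) := by
    unfold H443U.sd Dm.bd
    have h1 := le_max_left |V.1 - (vq V L (z i)).1| |V.2 - (vq V L (z i)).2|
    have h2 := le_max_right |V.1 - (vq V L (z i)).1| |V.2 - (vq V L (z i)).2|
    have h3 := le_abs_self (V.1 - (vq V L (z i)).1)
    have h4 := neg_abs_le (V.1 - (vq V L (z i)).1)
    have h5 := le_abs_self (V.2 - (vq V L (z i)).2)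
    have h6 := neg_abs_le (V.2 - (vq V L (z i)).2)
    omega
  rw [Sum.sd_comm, sd_vq0] at h5
  have h6 : (0:ℤ) ≤ L * W := by positivity
  push_cast at hbd ⊢
  linarith

/-- The sum over tuples. -/
theorem tuple_sum {Q : Finset (ℤ × ℤ)} {H : ℝ} (hH : 0 ≤ H)
    (h1 : ∑ v ∈ Q, w (b0 v) ≤ H) (h2 : ∀ u ∈ Q, ∑ v ∈ Q, w (H443U.sd v u) ≤ H) (n k : ℕ)
    (hk : k ≤ n) :
    ∑ z : Fin k → Q, ∏ i, gz (fun j => (z j : ℤ × ℤ)) i ≤ ((n + 1) * H) ^ k := by
  induction k with
  | zero => simp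
  | succ k ih =>
    have ih' := ih (by omega)
    rw [← (Fin.consEquiv (fun _ : Fin (k + 1) => Q)).sum_comp, Fintype.sum_prod_type]
    have e : ∀ (v : Q) (z : Fin k → Q),
        ∏ i, gz (fun j => (((Fin.consEquiv (fun _ : Fin (k + 1) => Q)) (v, z) j : Q) : ℤ × ℤ)) i =
          (w (b0 v) + ∑ j, w (H443U.sd (v : ℤ × ℤ) (z j : ℤ × ℤ))) *
            ∏ i, gz (fun j => (z j : ℤ × ℤ)) i := by
      intro v z
      rw [Fin.prod_univ_succ]
      congr 1
      · unfold gz
        rw [Fin.sum_univ_succ]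
        simp [Fin.consEquiv]
      · refine Finset.prod_congr rfl fun i _ => ?_
        unfold gz
        rw [Fin.sum_univ_succ]
        simp [Fin.consEquiv]
    simp_rw [e]
    rw [Finset.sum_comm]
    have hg0 : ∀ z : Fin k → Q, 0 ≤ ∏ i, gz (fun j => (z j : ℤ × ℤ)) i := by
      intro z
      refine Finset.prod_nonneg fun i _ => ?_
      exact (H443P.w_pos _).le.trans (w_rz (fun j => (z j : ℤ × ℤ)) i)
    calc ∑ z : Fin k → Q, ∑ v : Q, (w (b0 v) + ∑ j, w (H443U.sd (v : ℤ × ℤ) (z j : ℤ × ℤ))) *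
            ∏ i, gz (fun j => (z j : ℤ × ℤ)) i
        = ∑ z : Fin k → Q, (∑ v : Q, (w (b0 v) +
            ∑ j, w (H443U.sd (v : ℤ × ℤ) (z j : ℤ × ℤ)))) *
            ∏ i, gz (fun j => (z j : ℤ × ℤ)) i := by
          refine Finset.sum_congr rfl fun z _ => ?_
          rw [Finset.sum_mul]
      _ ≤ ∑ z : Fin k → Q, ((n + 1) * H) * ∏ i, gz (fun j => (z j : ℤ × ℤ)) i := by
          refine Finset.sum_le_sum fun z _ => mul_le_mul_of_nonneg_right ?_ (hg0 z)
          rw [Finset.sum_add_distrib, Finset.sum_comm]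
          have a1 : ∑ v : Q, w (b0 v) ≤ H := by
            rw [Finset.sum_coe_sort Q (fun v => w (b0 v))]
            exact h1
          have a2 : ∑ j : Fin k, ∑ v : Q, w (H443U.sd (v : ℤ × ℤ) (z j : ℤ × ℤ)) ≤ k * H := by
            calc ∑ j : Fin k, ∑ v : Q, w (H443U.sd (v : ℤ × ℤ) (z j : ℤ × ℤ))
                ≤ ∑ j : Fin k, H := by
                  refine Finset.sum_le_sum fun j _ => ?_
                  rw [Finset.sum_coe_sort Q (fun v => w (H443U.sd v (z j : ℤ × ℤ)))]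
                  exact h2 _ (z j).2
              _ = k * H := by simp
          have a3 : (k:ℝ) ≤ n := by exact_mod_cast (by omega : k ≤ n)
          nlinarith
      _ = ((n + 1) * H) * ∑ z : Fin k → Q, ∏ i, gz (fun j => (z j : ℤ × ℤ)) i := by
          rw [Finset.mul_sum]
      _ ≤ ((n + 1) * H) * ((n + 1) * H) ^ k := by
          apply mul_le_mul_of_nonneg_left ih' (by positivity)
      _ = ((n + 1) * H) ^ (k + 1) := by ring

/-- Many `k`-tuples with arms. -/
def Ev (V : Vtx) (L : ℕ) (Q : Finset (ℤ × ℤ)) (k G : ℕ) (F : Finset Edg) : Prop :=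
  (G : ℝ) ^ k ≤ ∑ z : Fin k → Q, ind (AZ V L (fun j => (z j : ℤ × ℤ)) F)

theorem Ev_local {V : Vtx} {L : ℕ} (hL : 1 ≤ L) {h0 W : ℕ} (hh0 : 1 ≤ h0)
    {Q : Finset (ℤ × ℤ)} (hQ : ∀ q ∈ Q, 2 * (h0 : ℤ) ≤ b0 q ∧ b0 q ≤ W)
    (k G : ℕ) (F : Finset Edg) :
    Ev V L Q k G F ↔ Ev V L Q k G (F ∩ An V (4 * L * h0) (8 * L * W)) := by
  unfold Ev
  have : ∑ z : Fin k → Q, ind (AZ V L (fun j => (z j : ℤ × ℤ)) F) =
      ∑ z : Fin k → Q, ind (AZ V L (fun j => (z j : ℤ × ℤ))
        (F ∩ An V (4 * L * h0) (8 * L * W))) := by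
    refine Finset.sum_congr rfl fun z _ => ind_congr ?_
    exact AZ_local hL hh0 (fun i => hQ _ (z i).2) F
  rw [this]

theorem Ev_pr {C : ℝ} (hC : 0 < C) (hA : AnnUp C) {D : Dm} {V : Vtx} {L : ℕ} (hL : 1 ≤ L)
    {h0 W : ℕ} (hh0 : 1 ≤ h0) (hbd : ((8 * L * W : ℕ) : ℤ) ≤ D.bd V)
    {Q : Finset (ℤ × ℤ)} (hQ : ∀ q ∈ Q, 2 * (h0 : ℤ) ≤ b0 q ∧ b0 q ≤ W)
    {k G : ℕ} (hG : 1 ≤ G) {H : ℝ} (hH : 0 ≤ H)
    (h1 : ∑ v ∈ Q, w (b0 v) ≤ H) (h2 : ∀ u ∈ Q, ∑ v ∈ Q, w (H443U.sd v u) ≤ H) :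
    P D.edges (Ev V L Q k G) ≤ (22 * cc C k * ((k + 1) * H) / G) ^ k := by
  have hG0 : (0:ℝ) < G := by exact_mod_cast hG
  have hm := markov (S := D.edges) (X := fun F => ∑ z : Fin k → Q,
      ind (AZ V L (fun j => (z j : ℤ × ℤ)) F))
    (fun F => Finset.sum_nonneg fun _ _ => ind_nonneg _) (t := (G:ℝ) ^ k) (by positivity)
  refine hm.trans ?_
  rw [div_pow]
  apply div_le_div_of_nonneg_right _ (by positivity)
  rw [Ex_sum]
  have hcc := cc_one hC k
  calc ∑ z : Fin k → Q, Ex (fun _ => (1/2:ℝ)) D.edges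
        (fun F => ind (AZ V L (fun j => (z j : ℤ × ℤ)) F))
      ≤ ∑ z : Fin k → Q, (22 * cc C k) ^ k * ∏ i, gz (fun j => (z j : ℤ × ℤ)) i := by
        refine Finset.sum_le_sum fun z _ => ?_
        have h3 := AZ_pr hC hA (D := D) hL hh0 hbd (z := fun j => (z j : ℤ × ℤ))
          (fun i => hQ _ (z i).2)
        refine le_trans h3 ?_
        rw [Finset.prod_mul_distrib, Finset.prod_const, Finset.card_univ, Fintype.card_fin]
        apply mul_le_mul_of_nonneg_left _ (by positivity)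
        exact Finset.prod_le_prod (fun i _ => (H443P.w_pos _).le) fun i _ => w_rz _ i
    _ = (22 * cc C k) ^ k * ∑ z : Fin k → Q, ∏ i, gz (fun j => (z j : ℤ × ℤ)) i := by
        rw [Finset.mul_sum]
    _ ≤ (22 * cc C k) ^ k * ((k + 1) * H) ^ k := by
        apply mul_le_mul_of_nonneg_left _ (by positivity)
        exact tuple_sum hH h1 h2 k k le_rfl
    _ = (22 * cc C k * ((k + 1) * H)) ^ k := by rw [← mul_pow]

open Classical in
/-- The number of visited boxes of the configuration `Q`. -/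
noncomputable def nh (D : Dm) (V : Vtx) (L : ℕ) (Q : Finset (ℤ × ℤ)) (F : Finset Edg) : ℕ :=
  (Q.filter (fun q => Hit D F (vq V L q) (20 * L))).card

theorem Ev_of_nh {D : Dm} (hD : D.Ok) {F : Finset Edg} (hF : F ⊆ D.edges) {V : Vtx} {L : ℕ}
    (hL : 1 ≤ L) {W : ℕ} (hbd : ((8 * L * W : ℕ) : ℤ) ≤ D.bd V)
    {Q : Finset (ℤ × ℤ)} (hQ : ∀ q ∈ Q, b0 q ≤ W) {k G : ℕ} (h : G ≤ nh D V L Q F) :
    Ev V L Q k G F := by
  classical
  unfold Ev
  set T := Q.filter (fun q => Hit D F (vq V L q) (20 * L)) with hT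
  have hTc : G ≤ T.card := by
    have : nh D V L Q F = T.card := by
      unfold nh
      rw [hT]
    rw [← this]
    exact h
  set A : Finset (Fin k → Q) := univ.filter (fun z => ∀ i, (z i : ℤ × ℤ) ∈ T) with hA
  have hcard : T.card ^ k ≤ A.card := by
    have h1 : (univ : Finset (Fin k → T)).card = T.card ^ k := by
      rw [Finset.card_univ]
      simp
    rw [← h1]
    have hTQ : ∀ q ∈ T, q ∈ Q := fun q hq => (Finset.mem_filter.mp hq).1
    refine Finset.card_le_card_of_injOn (fun z i => (⟨z i, hTQ _ (z i).2⟩ : Q)) ?_ ?_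
    · intro z _
      rw [hA]
      simp only [Finset.coe_filter, Finset.mem_univ, true_and, Set.mem_setOf_eq]
      exact fun i => (z i).2
    · intro z _ z' _ hzz
      funext i
      have := congrFun hzz i
      simp only [Subtype.mk.injEq] at this
      exact Subtype.ext this
  have h2 : (A.card : ℝ) ≤ ∑ z : Fin k → Q, ind (AZ V L (fun j => (z j : ℤ × ℤ)) F) := by
    have h3 : (A.card : ℝ) = ∑ z ∈ A, ind (AZ V L (fun j => (z j : ℤ × ℤ)) F) := by
      rw [Finset.card_eq_sum_ones]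
      push_cast
      refine Finset.sum_congr rfl fun z hz => ?_
      rw [ind_of]
      rw [hA, Finset.mem_filter] at hz
      exact AZ_of_hit hD hF hL hbd (fun i => hQ _ (z i).2)
        (fun i => (Finset.mem_filter.mp (hz.2 i)).2)
    rw [h3]
    exact Finset.sum_le_sum_of_subset_of_nonneg (Finset.subset_univ _) fun _ _ _ => ind_nonneg _
  have h4 : (G:ℝ) ^ k ≤ A.card := by
    have : G ^ k ≤ A.card := (Nat.pow_le_pow_left hTc k).trans hcard
    exact_mod_cast this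
  exact h4.trans h2

end K93U
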