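import Pool.Agent.K3h93.UR.Mesh

/-!
The number of bad scales for the scaling limits.
-/

namespace K93U

open H974 Finset H342P H984P H984N H443P H443U MeasureTheory Filter Topology

theorem nr_ev {f : C(unitInterval, ℂ)} {z : ℂ} {s : ℝ} (h : Nr f z s) :
    ∀ᶠ g in 𝓝 f, Nr g z s := by
  obtain ⟨t, ht⟩ := h
  have hc : Continuous (fun g : C(unitInterval, ℂ) => dist (g t) z) :=
    (continuous_eval_const t).dist continuous_const
  have ho : IsOpen {g : C(unitInterval, ℂ) | dist (g t) z < s} := isOpen_lt hc continuous_const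
  filter_upwards [ho.mem_nhds ht] with g hg
  exact ⟨t, hg⟩

theorem cnt_ev (f : C(unitInterval, ℂ)) (x : ℂ) (r : ℝ) (Q : Finset (ℤ × ℤ)) :
    ∀ᶠ g in 𝓝 f, cnt f x r Q ≤ cnt g x r Q := by
  classical
  have h : ∀ᶠ g in 𝓝 f, ∀ q ∈ Q, Nr f (gp x r q) (4 * r) → Nr g (gp x r q) (4 * r) := by
    rw [Filter.eventually_all_finset]
    intro q _
    by_cases hq : Nr f (gp x r q) (4 * r)
    · filter_upwards [nr_ev hq] with g hg _
      exact hg
    · exact Filter.Eventually.of_forall fun g h => absurd h hq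
  filter_upwards [h] with g hg
  unfold cnt
  refine Finset.card_le_card fun q hq => ?_
  rw [Finset.mem_filter] at hq ⊢
  exact ⟨hq.1, hg q hq.1 hq.2⟩

theorem bad_ev {f : C(unitInterval, ℂ)} {x : ℂ} {r : ℝ} {𝒬 : Finset (Finset (ℤ × ℤ))} {G : ℕ}
    (h : Bad f x r 𝒬 G) : ∀ᶠ g in 𝓝 f, Bad g x r 𝒬 G := by
  obtain ⟨Q, hQ, h⟩ := h
  filter_upwards [cnt_ev f x r Q] with g hg
  exact ⟨Q, hQ, h.trans hg⟩

theorem nbad_ev (f : C(unitInterval, ℂ)) (x : ℂ) (r : ℕ → ℝ)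
    (𝒬 : ℕ → Finset (Finset (ℤ × ℤ))) (G n : ℕ) :
    ∀ᶠ g in 𝓝 f, nbad f x r 𝒬 G n ≤ nbad g x r 𝒬 G n := by
  have h : ∀ᶠ g in 𝓝 f, ∀ j ∈ Finset.range n, Bad f x (r j) (𝒬 j) G → Bad g x (r j) (𝒬 j) G := by
    rw [Filter.eventually_all_finset]
    intro j _
    by_cases hj : Bad f x (r j) (𝒬 j) G
    · filter_upwards [bad_ev hj] with g hg _
      exact hg
    · exact Filter.Eventually.of_forall fun g h => absurd h hj
  filter_upwards [h] with g hg
  exact nP_mono fun j hj hB => hg j (Finset.mem_range.mpr hj) hB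

theorem open_nbad {ι : Type*} (I : Finset ι) (x : ι → ℂ) (r : ℕ → ℝ)
    (𝒬 : ι → ℕ → Finset (Finset (ℤ × ℤ))) (G n m : ℕ) :
    IsOpen {p : X | ∃ i ∈ I, m ≤ nbad p.1 (x i) r (𝒬 i) G n} := by
  rw [isOpen_iff_mem_nhds]
  rintro p ⟨i, hi, hp⟩
  have h := (continuous_fst.tendsto p).eventually (nbad_ev p.1 (x i) r (𝒬 i) G n)
  filter_upwards [h] with p' hp'
  exact ⟨i, hi, hp.trans hp'⟩

theorem min_delta {ι : Type*} (I : Finset ι) (A : ι → ℝ → Prop)
    (h : ∀ i ∈ I, ∃ d : ℝ, 0 < d ∧ ∀ δ : ℝ, 0 < δ → δ ≤ d → A i δ) :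
    ∃ d : ℝ, 0 < d ∧ ∀ δ : ℝ, 0 < δ → δ ≤ d → ∀ i ∈ I, A i δ := by
  classical
  induction I using Finset.induction_on with
  | empty => exact ⟨1, one_pos, fun δ _ _ i hi => absurd hi (Finset.notMem_empty i)⟩
  | insert a I _ ih =>
    obtain ⟨d, hd, hd'⟩ := ih (fun i hi => h i (Finset.mem_insert_of_mem hi))
    obtain ⟨e, he, he'⟩ := h a (Finset.mem_insert_self _ _)
    refine ⟨min d e, lt_min hd he, fun δ h0 h1 i hi => ?_⟩
    rcases Finset.mem_insert.mp hi with h2 | h2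
    · rw [h2]; exact he' δ h0 (h1.trans (min_le_right _ _))
    · exact hd' δ h0 (h1.trans (min_le_left _ _)) i h2

theorem ex_le {ι : Type*} (S : Finset Edg) (I : Finset ι) (A : ι → Finset Edg → Prop) :
    P S (fun F => ∃ j ∈ I, A j F) ≤ ∑ j ∈ I, P S (A j) := by
  classical
  induction I using Finset.induction_on with
  | empty =>
    have : P S (fun F => ∃ j ∈ (∅ : Finset ι), A j F) = 0 := by
      unfold P Pr
      rw [Ex_congr (g := fun _ => 0) (fun F _ => ind_not_of (by simp)), Ex_const]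
    rw [this]; simp
  | insert a J ha ih =>
    rw [Finset.sum_insert ha]
    refine le_trans ?_ (add_le_add_right ih _)
    refine le_trans (Pr_mono okh ?_) (Pr_or_le okh S _ _)
    rintro F _ ⟨j, hj, hA⟩
    rcases Finset.mem_insert.mp hj with h | h
    · left; rw [← h]; exact hA
    · right; exact ⟨j, h, hA⟩

/-- For almost every limit curve there are few bad scales around all the points of the systems. -/
theorem limit_bad {C : ℝ} (hC : 0 < C) (hA : AnnUp C) (R : Rect) {δ : ℕ → ℝ}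
    (hδ : ∀ i, 0 < δ i) (hlim : Tendsto δ atTop (𝓝 0)) {μ : ProbabilityMeasure X}
    (hμ : Tendsto (fun i => R.law (δ i)) atTop (𝓝 μ))
    {ι : Type*} (I : ℕ → Finset ι) (x : ι → ℂ) (𝒬 : ι → ℕ → Finset (Finset (ℤ × ℤ)))
    {M h0 W k G : ℕ} (r : ℕ → ℝ) (hr : ∀ j, 0 < r j)
    (hch : ∀ i j : ℕ, i < j → r j * M ≤ r i)
    (hh0 : 1 ≤ h0) (hW : 1 ≤ W) (hM : 2 * W ≤ h0 * M)
    (hdp : ∀ J, ∀ i ∈ I J, ∀ j, 3 * r j * W ≤ dp R (x i))
    {q : ℕ} (hq : ∀ J, ∀ i ∈ I J, ∀ j, (𝒬 i j).card ≤ q)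
    (hG : 1 ≤ G) {H : ℝ} (hH : 0 ≤ H) (hQ : ∀ J, ∀ i ∈ I J, ∀ j, OkF (𝒬 i j) h0 W H)
    {p : ℝ} (hp : (q : ℝ) * (22 * cc C k * ((k + 1) * H) / G) ^ k ≤ p)
    (m : ℕ → ℕ) (hsum : Summable (fun J => ((I J).card : ℝ) * (2 ^ J * p ^ m J))) :
    ∀ᵐ ω ∂(μ : Measure X), ∀ᶠ J in atTop, ∀ i ∈ I J,
      nbad ω.1 (x i) r (𝒬 i) G J < m J := by
  classical
  have hcc := cc_one hC k
  have hc0 : 0 ≤ (22 * cc C k * ((k + 1) * H) / G) ^ k := by positivity
  have hp0 : 0 ≤ p := le_trans (mul_nonneg (Nat.cast_nonneg q) hc0) hp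
  set B : ℕ → Set X := fun J => {ω | ∃ i ∈ I J, m J ≤ nbad ω.1 (x i) r (𝒬 i) G J} with hB
  have hBo : ∀ J, IsOpen (B J) := fun J => open_nbad (I J) x r 𝒬 G J (m J)
  have hBm : ∀ J, (μ : Measure X) (B J) ≤
      ENNReal.ofReal (((I J).card : ℝ) * (2 ^ J * p ^ m J)) := by
    intro J
    obtain ⟨d, hd, hd'⟩ := min_delta (I J)
      (fun i δ => ∀ m : ℕ, R.prob δ (fun F => m ≤ nbad (R.curve δ F) (x i) r (𝒬 i) G J) ≤
        2 ^ J * p ^ m)
      (fun i hi => mesh hC hA R (x := x i) (n := J) (M := M) (h0 := h0) (W := W) (k := k) (G := G) r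
        (fun j _ => hr j) (fun i j hij _ => hch i j hij) hh0 hW hM (fun j _ => hdp J i hi j)
        (𝒬 i) (fun j _ => hq J i hi j) hG hH (fun j _ => hQ J i hi j) hp)
    have h1 := limit_closed R hδ hlim hμ (G := (B J)ᶜ) (hBo J).isClosed_compl
      (ε := ((I J).card : ℝ) * (2 ^ J * p ^ m J)) (by positivity) hd (fun δ h2 h3 => by
        have h4 : R.prob δ (fun F => (R.curve δ F, R.time δ F) ∉ (B J)ᶜ) ≤
            ∑ i ∈ I J, R.prob δ (fun F => m J ≤ nbad (R.curve δ F) (x i) r (𝒬 i) G J) := by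
          refine le_trans (Pr_mono okh fun F _ hF => ?_) (ex_le _ (I J)
            (fun i F => m J ≤ nbad (R.curve δ F) (x i) r (𝒬 i) G J))
          exact not_not.mp hF
        refine h4.trans ?_
        calc ∑ i ∈ I J, R.prob δ (fun F => m J ≤ nbad (R.curve δ F) (x i) r (𝒬 i) G J)
            ≤ ∑ i ∈ I J, 2 ^ J * p ^ m J := Finset.sum_le_sum fun i hi => hd' δ h2 h3 i hi (m J)
          _ = ((I J).card : ℝ) * (2 ^ J * p ^ m J) := by rw [Finset.sum_const, nsmul_eq_mul])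
    rw [compl_compl] at h1
    exact h1
  have hfin : ∑' J, (μ : Measure X) (B J) ≠ ⊤ := by
    apply ne_top_of_le_ne_top _ (ENNReal.tsum_le_tsum hBm)
    exact hsum.tsum_ofReal_ne_top
  have h2 := ae_eventually_notMem hfin
  filter_upwards [h2] with ω hω
  filter_upwards [hω] with J hJ i hi
  by_contra hcon
  exact hJ ⟨i, hi, not_lt.mp hcon⟩

end K93U
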