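import Pool.Agent.K3h93.UR.Lip

/-!
Differentiable curves as sets modelled on the line.
-/

namespace K93U

open MeasureTheory Measure Filter Topology
open scoped ENNReal NNReal

theorem Modelled.mono {K K' A : Set ℂ} (h : Modelled K A) (hK : K ⊆ K') : Modelled K' A := by
  intro x hx
  obtain ⟨κ, Λ, h1⟩ := h x hx
  refine ⟨κ, Λ, fun ε hε => ?_⟩
  obtain ⟨ρ, hρ, h2⟩ := h1 ε hε
  refine ⟨ρ, hρ, fun r hr hrρ => ?_⟩
  obtain ⟨L, h3, h4, h5⟩ := h2 r hr hrρ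
  refine ⟨L, h3, h4, fun y hy hyx => ?_⟩
  obtain ⟨κ', hκ', h6⟩ := h5 y hy hyx
  exact ⟨κ', hK hκ', h6⟩

/-- The line has Assouad dimension one. -/
theorem hom_line {s : ℝ} (hs : 1 < s) : Hom (Set.range Complex.ofReal) s := by
  refine ⟨5, fun z ρ R hρ hρR _ => ?_⟩
  have hR : 1 ≤ R / ρ := by rwa [le_div_iff₀ hρ, one_mul]
  set n : ℕ := ⌈R / ρ⌉₊ with hn
  refine ⟨(Finset.Icc (-(n:ℤ)) n).image fun j : ℤ => (((z.re + j * ρ : ℝ)) : ℂ), ?_, ?_⟩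
  · have h1 : (((Finset.Icc (-(n:ℤ)) n).image
        fun j : ℤ => (((z.re + j * ρ : ℝ)) : ℂ)).card : ℝ) ≤ 2 * n + 1 := by
      have h2 := Finset.card_image_le (s := Finset.Icc (-(n:ℤ)) n)
        (f := fun j : ℤ => (((z.re + j * ρ : ℝ)) : ℂ))
      rw [Int.card_Icc] at h2
      have h3 : ((n:ℤ) + 1 - -(n:ℤ)).toNat = 2 * n + 1 := by omega
      rw [h3] at h2
      exact_mod_cast h2
    have h4 : (n:ℝ) < R / ρ + 1 := Nat.ceil_lt_add_one (by linarith)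
    have h5 : R / ρ ≤ (R / ρ) ^ s := by
      calc R / ρ = (R / ρ) ^ (1:ℝ) := (Real.rpow_one _).symm
        _ ≤ (R / ρ) ^ s := Real.rpow_le_rpow_of_exponent_le hR hs.le
    linarith
  · rintro _ ⟨⟨t, rfl⟩, ht⟩
    rw [Metric.mem_ball, dist_eq_norm] at ht
    have h1 : |t - z.re| < R := by
      have h2 := Complex.abs_re_le_norm ((t:ℂ) - z)
      rw [Complex.sub_re, Complex.ofReal_re] at h2
      exact lt_of_le_of_lt h2 ht
    rw [abs_lt] at h1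
    simp only [Set.mem_iUnion, Finset.mem_image, Finset.mem_Icc]
    have h3 : R ≤ n * ρ := by
      have := Nat.le_ceil (R / ρ)
      rwa [div_le_iff₀ hρ] at this
    have h4 : ((⌊(t - z.re) / ρ⌋ : ℤ) : ℝ) * ρ ≤ t - z.re := by
      rw [← le_div_iff₀ hρ]; exact Int.floor_le _
    have h5 : t - z.re < (((⌊(t - z.re) / ρ⌋ : ℤ) : ℝ) + 1) * ρ := by
      rw [← div_lt_iff₀ hρ]; exact Int.lt_floor_add_one _
    refine ⟨(((z.re + (⌊(t - z.re) / ρ⌋ : ℤ) * ρ : ℝ)) : ℂ),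
      ⟨⌊(t - z.re) / ρ⌋, ⟨?_, ?_⟩, rfl⟩, ?_⟩
    · rw [Int.le_floor]
      push_cast
      rw [le_div_iff₀ hρ]
      nlinarith
    · have h6 : ((⌊(t - z.re) / ρ⌋ : ℤ) : ℝ) * ρ < (n:ℝ) * ρ := by linarith
      have h7 := lt_of_mul_lt_mul_right h6 hρ.le
      exact_mod_cast h7.le
    · rw [Metric.mem_ball, dist_eq_norm, ← Complex.ofReal_sub, Complex.norm_real,
        Real.norm_eq_abs, abs_lt]
      constructor
      · linarith
      · linarith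

/-- The regular part of a curve is covered by sets which are modelled on the line. -/
theorem regular_modelled (γ : ℝ → ℂ) :
    ∃ A : (ℕ × ℕ) × (ℤ × ℤ) → Set ℂ, (∀ n, Modelled (Set.range Complex.ofReal) (A n)) ∧
      γ '' {t | ∃ v, v ≠ 0 ∧ HasDerivAt γ v t} ⊆ ⋃ n, A n := by
  set S : Set ℝ := {t | ∃ v, v ≠ 0 ∧ HasDerivAt γ v t} with hS
  have h : ∀ κ ∈ Complex.ofReal '' S, ∃ L : ℂ ≃L[ℝ] ℂ,
      HasFDerivWithinAt (fun z : ℂ => γ z.re) (L : ℂ →L[ℝ] ℂ) (Complex.ofReal '' S) κ := by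
    rintro _ ⟨t, ⟨v, hv, ht⟩, rfl⟩
    refine ⟨ContinuousLinearEquiv.smulLeft (Units.mk0 v hv), ?_⟩
    have hd := hasDerivAt_iff_isLittleO.mp ht
    rw [hasFDerivWithinAt_iff_isLittleO]
    rw [Asymptotics.isLittleO_iff] at hd ⊢
    intro c hc
    have h1 := hd hc
    rw [Metric.eventually_nhds_iff] at h1
    obtain ⟨r, hr, h1⟩ := h1
    rw [Metric.nhdsWithin_basis_ball.eventually_iff]
    refine ⟨r, hr, ?_⟩
    rintro _ ⟨hy, ⟨t', ht', rfl⟩⟩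
    rw [Metric.mem_ball, dist_eq_norm, ← Complex.ofReal_sub, Complex.norm_real] at hy
    have h2 := h1 (y := t') (by rw [dist_eq_norm]; exact hy)
    simp only [Complex.ofReal_re]
    rw [← Complex.ofReal_sub, Complex.norm_real]
    have e : ((ContinuousLinearEquiv.smulLeft (Units.mk0 v hv) : ℂ ≃L[ℝ] ℂ) : ℂ →L[ℝ] ℂ)
        (((t' - t : ℝ)) : ℂ) = (t' - t) • v := by
      simp [mul_comm]
    rw [e]
    exact h2
  obtain ⟨A, h1, h2⟩ := image_modelled h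
  refine ⟨A, fun n => (h1 n).mono ?_, ?_⟩
  · rintro _ ⟨t, -, rfl⟩
    exact ⟨t, rfl⟩
  · rintro _ ⟨t, ht, rfl⟩
    exact h2 ⟨(t:ℂ), ⟨t, ht, rfl⟩, by simp⟩

end K93U
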