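import Pool.Agent.K3h93.UR.Img

/-!
Lipschitz curves and sets which meet all differentiable curves in dimension less than one.
-/

namespace K93U

open MeasureTheory Measure Filter Topology
open scoped ENNReal NNReal

theorem haus_Icc (a b : ℝ) : μH[1] (Set.Icc a b) = ENNReal.ofReal (b - a) := by
  rw [hausdorffMeasure_real, Real.volume_Icc]

/-- A bounded piece of the set of critical values. -/
theorem crit_piece (γ : ℝ → ℂ) (m : ℕ) {ε : ℝ≥0} {n : ℕ} {S : Set ℝ}
    (hS : ∀ t ∈ S, |t| ≤ m ∧ ∀ s : ℝ, |s - t| < 1 / ((n:ℝ) + 1) → ‖γ s - γ t‖ ≤ ε * |s - t|) :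
    μH[1] (γ '' S) ≤ ε * ENNReal.ofReal (2 * m + 1) := by
  set N : ℕ := n + 2 with hN
  have hN0 : (0:ℝ) < N := by rw [hN]; push_cast; positivity
  have hN1 : (1:ℝ) / N < 1 / ((n:ℝ) + 1) := by
    apply one_div_lt_one_div_of_lt (by positivity)
    rw [hN]; push_cast; linarith
  set J : Finset ℤ := Finset.Icc (-((m * N : ℕ) : ℤ)) ((m * N : ℕ) : ℤ) with hJ
  set I : ℤ → Set ℝ := fun j => Set.Icc ((j:ℝ) / N) ((j:ℝ) / N + 1 / N) with hI
  have hcov : γ '' S ⊆ ⋃ j ∈ J, γ '' (S ∩ I j) := by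
    rintro _ ⟨t, ht, rfl⟩
    obtain ⟨h1, -⟩ := hS t ht
    rw [abs_le] at h1
    simp only [Set.mem_iUnion]
    refine ⟨⌊t * N⌋, ?_, t, ⟨ht, ?_⟩, rfl⟩
    · rw [hJ, Finset.mem_Icc]
      constructor
      · rw [Int.le_floor]
        push_cast
        nlinarith [h1.1]
      · have h2 : (⌊t * N⌋ : ℝ) ≤ t * N := Int.floor_le _
        have h3 : (⌊t * N⌋ : ℝ) ≤ m * N := h2.trans (by nlinarith [h1.2])
        exact_mod_cast h3
    · rw [hI]
      constructor
      · rw [div_le_iff₀ hN0]; exact Int.floor_le _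
      · have h2 : t * N < ⌊t * N⌋ + 1 := Int.lt_floor_add_one _
        rw [← add_div, le_div_iff₀ hN0]; exact h2.le
  have hpiece : ∀ j ∈ J, μH[1] (γ '' (S ∩ I j)) ≤ ε * ENNReal.ofReal (1 / N) := by
    intro j _
    have hL : LipschitzOnWith ε γ (S ∩ I j) := by
      apply LipschitzOnWith.of_dist_le_mul
      rintro s ⟨-, hs2⟩ t ⟨ht1, ht2⟩
      rw [dist_eq_norm, dist_eq_norm, Real.norm_eq_abs]
      apply (hS t ht1).2
      refine lt_of_le_of_lt ?_ hN1
      rw [abs_le]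
      constructor <;> linarith [hs2.1, hs2.2, ht2.1, ht2.2]
    have h1 := hL.hausdorffMeasure_image_le (zero_le_one : (0:ℝ) ≤ 1)
    rw [ENNReal.rpow_one] at h1
    refine h1.trans ?_
    gcongr
    refine (measure_mono Set.inter_subset_right).trans ?_
    rw [hI, haus_Icc]
    apply ENNReal.ofReal_le_ofReal
    linarith
  calc μH[1] (γ '' S) ≤ μH[1] (⋃ j ∈ J, γ '' (S ∩ I j)) := measure_mono hcov
    _ ≤ ∑ j ∈ J, μH[1] (γ '' (S ∩ I j)) := measure_biUnion_finset_le _ _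
    _ ≤ ∑ _j ∈ J, (ε : ℝ≥0∞) * ENNReal.ofReal (1 / N) := Finset.sum_le_sum hpiece
    _ = J.card * ((ε : ℝ≥0∞) * ENNReal.ofReal (1 / N)) := by rw [Finset.sum_const, nsmul_eq_mul]
    _ = (ε : ℝ≥0∞) * ENNReal.ofReal (J.card * (1 / N)) := by
        rw [ENNReal.ofReal_mul (by positivity), ENNReal.ofReal_natCast]
        ring
    _ ≤ (ε : ℝ≥0∞) * ENNReal.ofReal (2 * m + 1) := by
        gcongr
        have hc : J.card = 2 * (m * N) + 1 := by
          rw [hJ, Int.card_Icc]; omega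
        rw [hc]
        push_cast
        have : (1:ℝ) / N ≤ 1 := by
          rw [div_le_one hN0, hN]; push_cast; linarith [Nat.cast_nonneg (α := ℝ) n]
        calc (2 * ((m:ℝ) * N) + 1) * (1 / N) = 2 * m + 1 / N := by field_simp
          _ ≤ 2 * m + 1 := by linarith

/-- The critical values of a curve have length zero. -/
theorem crit_null (γ : ℝ → ℂ) : μH[1] (γ '' {t | HasDerivAt γ 0 t}) = 0 := by
  have hb : ∀ m : ℕ, μH[1] (γ '' {t | |t| ≤ m ∧ HasDerivAt γ 0 t}) = 0 := by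
    intro m
    have hε : ∀ ε : ℝ≥0, 0 < ε →
        μH[1] (γ '' {t | |t| ≤ m ∧ HasDerivAt γ 0 t}) ≤ ε * ENNReal.ofReal (2 * m + 1) := by
      intro ε hε
      set S : ℕ → Set ℝ := fun n => {t | |t| ≤ m ∧ ∀ s : ℝ, |s - t| < 1 / ((n:ℝ) + 1) →
        ‖γ s - γ t‖ ≤ ε * |s - t|} with hS
      have hmono : Monotone fun n => γ '' S n := by
        intro a b hab
        apply Set.image_mono
        rintro t ⟨h1, h2⟩
        refine ⟨h1, fun s hs => h2 s (lt_of_lt_of_le hs ?_)⟩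
        apply one_div_le_one_div_of_le (by positivity)
        have : (a:ℝ) ≤ b := by exact_mod_cast hab
        linarith
      have hsub : γ '' {t | |t| ≤ m ∧ HasDerivAt γ 0 t} ⊆ ⋃ n, γ '' S n := by
        rintro _ ⟨t, ⟨h1, h2⟩, rfl⟩
        have h3 := (hasDerivAt_iff_isLittleO.mp h2).def (c := (ε:ℝ)) (by exact_mod_cast hε)
        rw [Metric.eventually_nhds_iff] at h3
        obtain ⟨ρ, hρ, h4⟩ := h3
        obtain ⟨n, hn⟩ := exists_nat_one_div_lt hρ
        simp only [Set.mem_iUnion]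
        refine ⟨n, t, ⟨h1, fun s hs => ?_⟩, rfl⟩
        have h5 := h4 (y := s) (by rw [Real.dist_eq]; exact hs.trans hn)
        simpa using h5
      refine (measure_mono hsub).trans ?_
      rw [hmono.measure_iUnion]
      exact iSup_le fun n => crit_piece γ m (n := n) (fun t ht => ht)
    by_contra hne
    have hpos : 0 < μH[1] (γ '' {t | |t| ≤ m ∧ HasDerivAt γ 0 t}) := pos_iff_ne_zero.mpr hne
    have hlim : Tendsto (fun k : ℕ => ((1 / ((k:ℝ≥0) + 1) : ℝ≥0) : ℝ≥0∞) *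
        ENNReal.ofReal (2 * m + 1)) atTop (𝓝 (0 * ENNReal.ofReal (2 * m + 1))) := by
      apply ENNReal.Tendsto.mul_const
      · have h1 : Tendsto (fun k : ℕ => (1 / ((k:ℝ≥0) + 1) : ℝ≥0)) atTop (𝓝 0) :=
          tendsto_one_div_add_atTop_nhds_zero_nat
        have h2 := ENNReal.tendsto_coe.mpr h1
        rw [ENNReal.coe_zero] at h2
        exact h2
      · right; exact ENNReal.ofReal_ne_top
    rw [zero_mul] at hlim
    have hle := ge_of_tendsto' hlim fun k => hε (1 / ((k:ℝ≥0) + 1)) (by positivity)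
    exact absurd hle (not_le.mpr hpos)
  have hsub : γ '' {t | HasDerivAt γ 0 t} ⊆ ⋃ m : ℕ, γ '' {t | |t| ≤ m ∧ HasDerivAt γ 0 t} := by
    rintro _ ⟨t, ht, rfl⟩
    obtain ⟨m, hm⟩ := exists_nat_ge |t|
    exact Set.mem_iUnion.mpr ⟨m, t, ⟨hm, ht⟩, rfl⟩
  exact measure_mono_null hsub (measure_iUnion_null hb)

/-- If `T` meets the regular part of a Lipschitz curve in dimension less than one, then it meets
the curve in a set of length zero. -/
theorem lip_null {T : Set ℂ} {γ : ℝ → ℂ} {C : ℝ≥0} (hγ : LipschitzWith C γ)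
    (hT : dimH (T ∩ γ '' {t | ∃ v, v ≠ 0 ∧ HasDerivAt γ v t}) < 1) :
    μH[1] (T ∩ Set.range γ) = 0 := by
  have h1 : μH[1] (T ∩ γ '' {t | ∃ v, v ≠ 0 ∧ HasDerivAt γ v t}) = 0 := by
    have := hausdorffMeasure_of_dimH_lt (d := 1)
      (s := T ∩ γ '' {t | ∃ v, v ≠ 0 ∧ HasDerivAt γ v t}) (by simpa using hT)
    simpa using this
  have h2 : μH[1] (γ '' {t | ¬ DifferentiableAt ℝ γ t}) = 0 := by
    have h3 : (volume : Measure ℝ) {t | ¬ DifferentiableAt ℝ γ t} = 0 := by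
      have := hγ.ae_differentiableAt (μ := (volume : Measure ℝ))
      rwa [ae_iff] at this
    have h4 := hγ.hausdorffMeasure_image_le (zero_le_one : (0:ℝ) ≤ 1)
      {t | ¬ DifferentiableAt ℝ γ t}
    rw [hausdorffMeasure_real, h3, mul_zero] at h4
    exact nonpos_iff_eq_zero.mp h4
  have h5 := crit_null γ
  refine measure_mono_null ?_ (measure_union_null (measure_union_null h1 h2) h5)
  rintro z ⟨hz, t, rfl⟩
  by_cases hd : DifferentiableAt ℝ γ t
  · by_cases hv : deriv γ t = 0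
    · right
      refine ⟨t, ?_, rfl⟩
      have := hd.hasDerivAt
      rw [hv] at this
      exact this
    · left; left
      exact ⟨hz, t, ⟨deriv γ t, hv, hd.hasDerivAt⟩, rfl⟩
  · left; right
    exact ⟨t, hd, rfl⟩

end K93U
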