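import Pool.Agent.K3h93.UR.KPt2

/-!
Many scales.
-/

namespace K93U

open H974 Finset H342P H984P H984N H443P H443U

/-- A configuration of the family has many visited boxes. -/
def BadL (D : Dm) (V : Vtx) (L : ℕ) (𝒬 : Finset (Finset (ℤ × ℤ))) (G : ℕ)
    (F : Finset Edg) : Prop := ∃ Q ∈ 𝒬, G ≤ nh D V L Q F

open Classical in
/-- The number of `j < n` with the property `A`. -/
noncomputable def nP (n : ℕ) (A : ℕ → Prop) : ℕ := ((Finset.range n).filter A).card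

theorem nP_mono {n : ℕ} {A B : ℕ → Prop} (h : ∀ j < n, A j → B j) : nP n A ≤ nP n B := by
  classical
  unfold nP
  refine Finset.card_le_card fun j hj => ?_
  rw [Finset.mem_filter, Finset.mem_range] at hj ⊢
  exact ⟨hj.1, h j hj.1 hj.2⟩

theorem count_le {n m : ℕ} {S : Finset Edg} (A : ℕ → Finset Edg → Prop) {p : ℝ}
    (h : ∀ T ⊆ Finset.range n, T.card = m → P S (fun F => ∀ i ∈ T, A i F) ≤ p ^ m)
    (hp : 0 ≤ p) :
    P S (fun F => m ≤ nP n (fun j => A j F)) ≤ 2 ^ n * p ^ m := by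
  classical
  have h1 : P S (fun F => m ≤ nP n (fun j => A j F)) ≤
      P S (fun F => ∃ T ∈ (Finset.range n).powersetCard m, ∀ i ∈ T, A i F) := by
    refine Pr_mono okh fun F _ hF => ?_
    unfold nP at hF
    obtain ⟨T, hT1, hT2⟩ := Finset.exists_subset_card_eq hF
    refine ⟨T, Finset.mem_powersetCard.mpr ⟨hT1.trans (Finset.filter_subset _ _), hT2⟩, ?_⟩
    intro i hi
    exact (Finset.mem_filter.mp (hT1 hi)).2
  refine h1.trans ((Pr_exists_le okh S _ _).trans ?_)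
  calc ∑ T ∈ (Finset.range n).powersetCard m,
        Pr (fun _ => (1/2:ℝ)) S (fun F => ∀ i ∈ T, A i F)
      ≤ ∑ T ∈ (Finset.range n).powersetCard m, p ^ m := by
        refine Finset.sum_le_sum fun T hT => ?_
        rw [Finset.mem_powersetCard] at hT
        exact h T hT.1 hT.2
    _ = (n.choose m : ℝ) * p ^ m := by
        rw [Finset.sum_const, Finset.card_powersetCard, Finset.card_range, nsmul_eq_mul]
    _ ≤ 2 ^ n * p ^ m := by
        apply mul_le_mul_of_nonneg_right _ (pow_nonneg hp m)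
        have := Nat.choose_le_two_pow n m
        exact_mod_cast this

/-- A family of configurations with small sums. -/
def OkF (𝒬 : Finset (Finset (ℤ × ℤ))) (h0 W : ℕ) (H : ℝ) : Prop :=
  ∀ Q ∈ 𝒬, (∀ v ∈ Q, 2 * (h0 : ℤ) ≤ b0 v ∧ b0 v ≤ W) ∧ ∑ v ∈ Q, w (b0 v) ≤ H ∧
    ∀ u ∈ Q, ∑ v ∈ Q, w (H443U.sd v u) ≤ H

/-- Many scales: the probability of `m` bad scales around one centre. -/
theorem multi {C : ℝ} (hC : 0 < C) (hA : AnnUp C) {D : Dm} (hD : D.Ok) {V : Vtx}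
    {n m h0 W k G : ℕ} (L : ℕ → ℕ) (hL : ∀ j < n, 1 ≤ L j)
    (hh0 : 1 ≤ h0) (hbd : ∀ j < n, ((8 * L j * W : ℕ) : ℤ) ≤ D.bd V)
    (hch : ∀ i j : ℕ, i < j → j < n → 8 * L j * W ≤ 4 * L i * h0)
    (𝒬 : ℕ → Finset (Finset (ℤ × ℤ))) {q : ℕ} (hq : ∀ j < n, (𝒬 j).card ≤ q)
    (hG : 1 ≤ G) {H : ℝ} (hH : 0 ≤ H) (hQ : ∀ j < n, OkF (𝒬 j) h0 W H)
    {p : ℝ} (hp : (q : ℝ) * (22 * cc C k * ((k + 1) * H) / G) ^ k ≤ p) :
    P D.edges (fun F => m ≤ nP n (fun j => BadL D V (L j) (𝒬 j) G F)) ≤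
      2 ^ n * p ^ m := by
  have hcc := cc_one hC k
  have hc0 : 0 ≤ (22 * cc C k * ((k + 1) * H) / G) ^ k := by positivity
  have hp0 : 0 ≤ p := le_trans (mul_nonneg (Nat.cast_nonneg q) hc0) hp
  set A : ℕ → Finset Edg → Prop := fun j F => ∃ Q ∈ 𝒬 j, Ev V (L j) Q k G F with hAdef
  have h1 : P D.edges (fun F => m ≤ nP n (fun j => BadL D V (L j) (𝒬 j) G F)) ≤
      P D.edges (fun F => m ≤ nP n (fun j => A j F)) := by
    refine Pr_mono okh fun F hF h => h.trans (nP_mono fun j hj hB => ?_)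
    obtain ⟨Q, hQ1, hQ2⟩ := hB
    exact ⟨Q, hQ1, Ev_of_nh hD hF (hL j hj) (hbd j hj)
      (fun v hv => ((hQ j hj Q hQ1).1 v hv).2) hQ2⟩
  refine h1.trans (count_le A ?_ hp0)
  intro T hT hTm
  have hTn : ∀ i ∈ T, i < n := fun i hi => Finset.mem_range.mp (hT hi)
  have key := indep_le (S := D.edges) (fun j => An V (4 * L j * h0) (8 * L j * W)) A
    (fun _ => p) T ?_ ?_ ?_ ?_
  · rw [Finset.prod_const, hTm] at key
    exact key
  · intro i hi
    exact An_sub (hbd i (hTn i hi))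
  · have main : ∀ i j : ℕ, i < j → j < n →
        Disjoint (An V (4 * L i * h0) (8 * L i * W)) (An V (4 * L j * h0) (8 * L j * W)) := by
      intro i j hij hj
      have h3 : bxe V ((8 * L j * W : ℕ) : ℤ) ⊆ bxe V ((4 * L i * h0 : ℕ) : ℤ) := by
        apply bxe_mono
        exact_mod_cast hch i j hij hj
      rw [Finset.disjoint_left]
      intro e he he'
      unfold An at he he'
      rw [Finset.mem_sdiff] at he he'
      exact he.2 (h3 he'.1)
    intro i hi j hj hne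
    rcases Nat.lt_or_gt_of_ne hne with h | h
    · exact main i j h (hTn j hj)
    · exact (main j i h (hTn i hi)).symm
  · intro i hi F
    show (∃ Q ∈ 𝒬 i, Ev V (L i) Q k G F) ↔
      ∃ Q ∈ 𝒬 i, Ev V (L i) Q k G (F ∩ An V (4 * L i * h0) (8 * L i * W))
    constructor
    · rintro ⟨Q, h2, h3⟩
      exact ⟨Q, h2, (Ev_local (hL i (hTn i hi)) hh0 ((hQ i (hTn i hi) Q h2).1) k G F).mp h3⟩
    · rintro ⟨Q, h2, h3⟩
      exact ⟨Q, h2, (Ev_local (hL i (hTn i hi)) hh0 ((hQ i (hTn i hi) Q h2).1) k G F).mpr h3⟩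
  · intro i hi
    refine le_trans (Pr_exists_le okh D.edges (𝒬 i) (fun Q F => Ev V (L i) Q k G F)) ?_
    calc ∑ Q ∈ 𝒬 i, Pr (fun _ => (1/2:ℝ)) D.edges (fun F => Ev V (L i) Q k G F)
        ≤ ∑ Q ∈ 𝒬 i, (22 * cc C k * ((k + 1) * H) / G) ^ k := by
          refine Finset.sum_le_sum fun Q h2 => ?_
          obtain ⟨g1, g2, g3⟩ := hQ i (hTn i hi) Q h2
          exact Ev_pr hC hA (hL i (hTn i hi)) hh0 (hbd i (hTn i hi)) g1 hG hH g2 g3
      _ = ((𝒬 i).card : ℝ) * (22 * cc C k * ((k + 1) * H) / G) ^ k := by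
          rw [Finset.sum_const, nsmul_eq_mul]
      _ ≤ (q : ℝ) * (22 * cc C k * ((k + 1) * H) / G) ^ k := by
          apply mul_le_mul_of_nonneg_right _ hc0
          exact_mod_cast hq i (hTn i hi)
      _ ≤ p := hp

end K93U
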