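import Pool.Agent.K3h93.UR.Par
import Pool.Agent.K3h93.UR.Limit

/-!
For almost every limit curve there are few bad scales at every point.
-/

namespace K93U

open H974 Finset H342P H984P H984N H443P H443U MeasureTheory Filter Topology

/-- The scales. -/
noncomputable def rs (Λ M N j : ℕ) : ℝ := 1 / (420 * Λ * M * (N + 1)) * (1 / (M:ℝ)) ^ j

theorem rs_pos {Λ M : ℕ} (hΛ : 1 ≤ Λ) (hM : 1 ≤ M) (N j : ℕ) : 0 < rs Λ M N j := by
  have h1 : (0:ℝ) < Λ := by exact_mod_cast hΛ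
  have h2 : (0:ℝ) < M := by exact_mod_cast hM
  unfold rs
  positivity

theorem rs_le {Λ M : ℕ} (hM : 1 ≤ M) (N : ℕ) {i j : ℕ} (h : i ≤ j) :
    rs Λ M N j ≤ rs Λ M N i := by
  have h2 : (1:ℝ) ≤ M := by exact_mod_cast hM
  unfold rs
  apply mul_le_mul_of_nonneg_left _ (by positivity)
  apply pow_le_pow_of_le_one (by positivity) _ h
  rw [div_le_one (by linarith)]
  exact h2

theorem rs_succ {Λ M : ℕ} (hM : 1 ≤ M) (N j : ℕ) : rs Λ M N (j + 1) * M = rs Λ M N j := by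
  have h2 : (M:ℝ) ≠ 0 := by
    have : (1:ℝ) ≤ M := by exact_mod_cast hM
    linarith
  unfold rs
  rw [pow_succ]
  field_simp

theorem rs_bd {Λ M : ℕ} (hΛ : 1 ≤ Λ) (hM : 1 ≤ M) (N j : ℕ) :
    420 * Λ * rs Λ M N j * M ≤ 1 / (N + 1) := by
  have h1 : (0:ℝ) < Λ := by exact_mod_cast hΛ
  have h2 : (0:ℝ) < M := by exact_mod_cast hM
  have h3 := rs_le (Λ := Λ) hM N (Nat.zero_le j)
  have h4 : rs Λ M N 0 = 1 / (420 * Λ * M * (N + 1)) := by unfold rs; simp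
  rw [h4] at h3
  calc 420 * Λ * rs Λ M N j * M = 420 * Λ * M * rs Λ M N j := by ring
    _ ≤ 420 * Λ * M * (1 / (420 * Λ * M * (N + 1))) :=
        mul_le_mul_of_nonneg_left h3 (by positivity)
    _ = 1 / (N + 1) := by field_simp

/-- The lattice point `a` at scale `J`. -/
noncomputable def xi (Λ M N J : ℕ) (a : ℤ × ℤ) : ℂ := (rs Λ M N J : ℂ) * qc a

/-- The families of configurations at the lattice point `b` of scale `J`. -/
noncomputable def qi (K : Set ℂ) (Λ M N J : ℕ) (b : ℤ × ℤ) (j : ℕ) : Finset (Finset (ℤ × ℤ)) :=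
  fam K Λ M (rs Λ M N j) (xi Λ M N J b)

/-- Few bad scales at all the points. -/
def Few (R : Rect) (K : Set ℂ) (Λ M G : ℕ) (ε : ℝ) (N Z : ℕ) (f : C(unitInterval, ℂ)) : Prop :=
  ∀ᶠ J in atTop, ∀ a b : ℤ × ℤ, b0 a ≤ (Z * M ^ J : ℕ) → b0 b ≤ (Z * M ^ J : ℕ) →
    1 / (2 * ((N:ℝ) + 1)) ≤ dp R (xi Λ M N J a) →
    nbad f (xi Λ M N J a) (rs Λ M N) (qi K Λ M N J b) G J < ⌈ε * J⌉₊

theorem few_ae {C : ℝ} (hC : 0 < C) (hA : AnnUp C) (R : Rect) {δ : ℕ → ℝ}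
    (hδ : ∀ i, 0 < δ i) (hlim : Tendsto δ atTop (𝓝 0)) {μ : ProbabilityMeasure X}
    (hμ : Tendsto (fun i => R.law (δ i)) atTop (𝓝 μ)) {K : Set ℂ} {γ C2 ε : ℝ}
    (hC2 : 0 < C2) (hε : 0 < ε) {Λ k M : ℕ} (hΛ : 1 ≤ Λ)
    (hfam : ∀ (r : ℝ) (k : ℂ), 0 < r → 420 * Λ * r * M ≤ 1 →
      OkF (fam K Λ M r k) 20 (10 * M) (C2 * (M : ℝ) ^ γ))
    (hpar : Par C C2 γ ε Λ k M) (N Z : ℕ) :
    ∀ᵐ ω ∂(μ : Measure X), Few R K Λ M ⌈(M:ℝ) ^ (γ + ε)⌉₊ ε N Z ω.1 := by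
  classical
  have hM2 := hpar.two
  have hM : 1 ≤ M := by omega
  have hM0 : (0:ℝ) < M := by exact_mod_cast (by omega : 0 < M)
  have hM2' : (2:ℝ) ≤ M := by exact_mod_cast hM2
  have hN0 : (0:ℝ) ≤ N := Nat.cast_nonneg N
  set I : ℕ → Finset (ℕ × ((ℤ × ℤ) × (ℤ × ℤ))) := fun J =>
    ((bx (Z * M ^ J) ×ˢ bx (Z * M ^ J)).image (fun p => (J, p))).filter
      (fun i => 1 / (2 * ((N:ℝ) + 1)) ≤ dp R (xi Λ M N i.1 i.2.1)) with hI
  have hcard : ∀ J, ((I J).card : ℝ) ≤ (2 * (Z:ℝ) + 1) ^ 4 * ((M:ℝ) ^ 4) ^ J := by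
    intro J
    have h1 : (I J).card ≤ ((2 * (Z * M ^ J) + 1) ^ 2) * ((2 * (Z * M ^ J) + 1) ^ 2) := by
      rw [hI]
      refine (Finset.card_filter_le _ _).trans (Finset.card_image_le.trans ?_)
      rw [Finset.card_product, card_bx]
    have h2 : 2 * (Z * M ^ J) + 1 ≤ (2 * Z + 1) * M ^ J := by
      have : 1 ≤ M ^ J := Nat.one_le_pow _ _ hM
      nlinarith
    have h3 : (I J).card ≤ (2 * Z + 1) ^ 4 * (M ^ 4) ^ J := by
      refine h1.trans ?_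
      calc ((2 * (Z * M ^ J) + 1) ^ 2) * ((2 * (Z * M ^ J) + 1) ^ 2)
          = (2 * (Z * M ^ J) + 1) ^ 4 := by ring
        _ ≤ ((2 * Z + 1) * M ^ J) ^ 4 := Nat.pow_le_pow_left h2 4
        _ = (2 * Z + 1) ^ 4 * (M ^ 4) ^ J := by ring
    exact_mod_cast h3
  set p : ℝ := (M:ℝ) ^ (-(6 / ε)) with hp
  have hp0 : 0 < p := by positivity
  have hpm : ∀ J : ℕ, p ^ ⌈ε * J⌉₊ ≤ ((M:ℝ)⁻¹ ^ 6) ^ J := by
    intro J
    have h1 : ε * J ≤ ⌈ε * J⌉₊ := Nat.le_ceil _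
    have h2 : p ^ ⌈ε * J⌉₊ = (M:ℝ) ^ (-(6 / ε) * ⌈ε * J⌉₊) := by
      rw [hp, ← Real.rpow_natCast, ← Real.rpow_mul hM0.le]
    have h3 : ((M:ℝ)⁻¹ ^ 6) ^ J = (M:ℝ) ^ (-(6 * (J:ℝ))) := by
      rw [← pow_mul, inv_pow, Real.rpow_neg hM0.le, ← Real.rpow_natCast]
      push_cast
      rfl
    rw [h2, h3]
    apply Real.rpow_le_rpow_of_exponent_le (by linarith)
    have h4 : 6 / ε * (ε * J) ≤ 6 / ε * ⌈ε * J⌉₊ := mul_le_mul_of_nonneg_left h1 (by positivity)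
    have h5 : 6 / ε * (ε * J) = 6 * J := by field_simp
    linarith
  have hsum : Summable (fun J => ((I J).card : ℝ) * (2 ^ J * p ^ ⌈ε * J⌉₊)) := by
    have hq : (M:ℝ) ^ 4 * 2 * (M:ℝ)⁻¹ ^ 6 ≤ 1 / 2 := by
      have e : (M:ℝ) ^ 4 * 2 * (M:ℝ)⁻¹ ^ 6 = 2 / (M:ℝ) ^ 2 := by
        field_simp
      rw [e, div_le_div_iff₀ (by positivity) (by norm_num)]
      nlinarith
    have hg : Summable (fun J : ℕ => (2 * (Z:ℝ) + 1) ^ 4 * ((M:ℝ) ^ 4 * 2 * (M:ℝ)⁻¹ ^ 6) ^ J) :=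
      (summable_geometric_of_lt_one (by positivity) (by linarith)).mul_left _
    refine Summable.of_nonneg_of_le (fun J => by positivity) (fun J => ?_) hg
    calc ((I J).card : ℝ) * (2 ^ J * p ^ ⌈ε * J⌉₊)
        ≤ ((2 * (Z:ℝ) + 1) ^ 4 * ((M:ℝ) ^ 4) ^ J) * (2 ^ J * ((M:ℝ)⁻¹ ^ 6) ^ J) := by
          apply mul_le_mul (hcard J) _ (by positivity) (by positivity)
          exact mul_le_mul_of_nonneg_left (hpm J) (by positivity)
      _ = (2 * (Z:ℝ) + 1) ^ 4 * ((M:ℝ) ^ 4 * 2 * (M:ℝ)⁻¹ ^ 6) ^ J := by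
          rw [mul_pow, mul_pow]
          ring
  have hγε : 0 < (M:ℝ) ^ (γ + ε) := by positivity
  have hG1 : 1 ≤ ⌈(M:ℝ) ^ (γ + ε)⌉₊ := Nat.one_le_iff_ne_zero.mpr (by
    have := Nat.ceil_pos.mpr hγε
    omega)
  have key := limit_bad hC hA R hδ hlim hμ I (fun i => xi Λ M N i.1 i.2.1)
    (fun i => qi K Λ M N i.1 i.2.2) (M := M) (h0 := 20) (W := 10 * M) (k := k)
    (G := ⌈(M:ℝ) ^ (γ + ε)⌉₊) (rs Λ M N) (rs_pos hΛ hM N)
    (fun i j hij => by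
      have h1 := rs_le (Λ := Λ) hM N (show i + 1 ≤ j from hij)
      calc rs Λ M N j * M ≤ rs Λ M N (i + 1) * M := mul_le_mul_of_nonneg_right h1 hM0.le
        _ = rs Λ M N i := rs_succ hM N i)
    (by norm_num) (by omega) (by omega)
    (fun J i hi j => by
      rw [hI] at hi
      have h1 := (Finset.mem_filter.mp hi).2
      refine le_trans ?_ h1
      have h2 := rs_bd hΛ hM N j
      have hΛ' : (1:ℝ) ≤ Λ := by exact_mod_cast hΛ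
      have h3 := rs_pos hΛ hM N j
      push_cast
      have h4 : 420 * (rs Λ M N j * M) ≤ 1 / (N + 1) := by
        have : rs Λ M N j * M ≤ Λ * (rs Λ M N j * M) :=
          le_mul_of_one_le_left (by positivity) hΛ'
        linarith
      have h5 : (1:ℝ) / (2 * (N + 1)) = 1 / 2 * (1 / (N + 1)) := by field_simp
      have h6 : (0:ℝ) < 1 / (N + 1) := by positivity
      rw [h5]
      linarith)
    (q := qM Λ M) (fun J i _ j => fam_card K hΛ hM _ _) hG1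
    (H := C2 * (M : ℝ) ^ γ) (by positivity)
    (fun J i _ j => hfam _ _ (rs_pos hΛ hM N j) (by
      refine (rs_bd hΛ hM N j).trans ?_
      rw [div_le_one (by positivity)]
      linarith))
    (p := p) hpar.pr (fun J => ⌈ε * J⌉₊) hsum
  filter_upwards [key] with ω hω
  unfold Few
  filter_upwards [hω] with J hJ a b ha hb hd
  have hmem : (J, (a, b)) ∈ I J :=
    Finset.mem_filter.mpr ⟨Finset.mem_image.mpr ⟨(a, b),
      Finset.mem_product.mpr ⟨mem_bx.mpr ha, mem_bx.mpr hb⟩, rfl⟩, hd⟩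
  exact hJ (J, (a, b)) hmem

end K93U
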